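import Pool.Agent.Lib.MP_0c623d_al.BP.ADefs

set_option autoImplicit false

/-!
The chart `(u₁, u₂, c)` at mirrors and crossings: points `∓ u₁ ^ k / 2`, `c ∓ u₂ ^ k / 2`, with
`k = 2 j + 1`, `m = 2 k`. The frame is ordered `11, 22, cc, 12, 1c, 2c`.
-/

namespace Pool.Agent.Lib.MP_0c623d_al.BP.B

open Matrix

noncomputable section

/-- coordinates `(u₁, u₂, c)` -/
abbrev X3 := Fin 3 → ℂ

/-- six by six matrices -/
abbrev M6 := Matrix (Fin 6) (Fin 6) ℂ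

/-- the configuration of a point of the chart -/
def cfg (j : ℕ) (x : X3) : Cf :=
  ![-(x 0 ^ (2 * j + 1) / 2), x 0 ^ (2 * j + 1) / 2,
    x 2 - x 1 ^ (2 * j + 1) / 2, x 2 + x 1 ^ (2 * j + 1) / 2]

/-- its derivative -/
def dcfg (j : ℕ) (x v : X3) : Cf :=
  ![-((2 * j + 1) * x 0 ^ (2 * j) * v 0 / 2), (2 * j + 1) * x 0 ^ (2 * j) * v 0 / 2,
    v 2 - (2 * j + 1) * x 1 ^ (2 * j) * v 1 / 2, v 2 + (2 * j + 1) * x 1 ^ (2 * j) * v 1 / 2]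

/-- the four cross differences -/
def LL (j : ℕ) (s t : ℂ) (x : X3) : ℂ :=
  x 2 - s * (x 0 ^ (2 * j + 1) / 2) + t * (x 1 ^ (2 * j + 1) / 2)

/-- the domain of the chart -/
def Om (j : ℕ) : Set X3 :=
  {x | LL j 1 1 x ≠ 0 ∧ LL j 1 (-1) x ≠ 0 ∧ LL j (-1) 1 x ≠ 0 ∧ LL j (-1) (-1) x ≠ 0}

/-- the constant change of frame -/
def Tm : M6 :=
  !![1, 1 / 4, 1 / 4, 1 / 4, 1 / 4, 0; 0, 1 / 4, 1 / 4, 1 / 4, 1 / 4, 1; 0, 1, 1, 1, 1, 0;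
    0, -1 / 4, 1 / 4, 1 / 4, -1 / 4, 0; 0, 1 / 2, 1 / 2, -1 / 2, -1 / 2, 0;
    0, -1 / 2, 1 / 2, -1 / 2, 1 / 2, 0]

/-- its inverse -/
def Ti : M6 :=
  !![1, 0, -1 / 4, 0, 0, 0; 0, 0, 1 / 4, -1, 1 / 2, -1 / 2; 0, 0, 1 / 4, 1, 1 / 2, 1 / 2;
    0, 0, 1 / 4, 1, -1 / 2, -1 / 2; 0, 0, 1 / 4, -1, -1 / 2, 1 / 2; 0, 1, -1 / 4, 0, 0, 0]

/-- shear exponents in `u₁` -/
def K1 (j : ℕ) : Fin 6 → ℕ := ![3 * j + 1, 0, 0, 2 * j, 2 * j, 0]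

/-- shear exponents in `u₂` -/
def K2 (j : ℕ) : Fin 6 → ℕ := ![0, 3 * j + 1, 0, 2 * j, 0, 2 * j]

/-- the shear -/
def sh (j : ℕ) (x : X3) : Fin 6 → ℂ := fun p => x 0 ^ K1 j p * x 1 ^ K2 j p

/-- the gauge -/
def gg (j : ℕ) (x : X3) : M6 := diagonal (sh j x) * Tm

/-- the residue along `13` in the new frame -/
def gam (e : ℝ) : M6 :=
  !![al e, 0, be e / 16, -al e - be e / 4, -al e - be e / 8, be e / 8;
    0, al e, be e / 16, -al e - be e / 4, -be e / 8, al e + be e / 8;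
    0, 0, 2 * al e + be e / 4, -be e, -2 * al e - be e / 2, 2 * al e + be e / 2;
    -al e / 2, -al e / 2, -be e / 16, al e + be e / 4, al e / 2 + be e / 8, -al e / 2 - be e / 8;
    -al e, 0, -al e / 2 - be e / 8, al e + be e / 2, 3 * al e / 2 + be e / 4, -al e / 2 - be e / 4;
    0, al e, al e / 2 + be e / 8, -al e - be e / 2, -al e / 2 - be e / 4, 3 * al e / 2 + be e / 4]

/-- parity in the first pair -/
def p1 : Fin 6 → Fin 2 := ![0, 0, 0, 1, 1, 0]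

/-- parity in the second pair -/
def p2 : Fin 6 → Fin 2 := ![0, 0, 0, 1, 0, 1]

/-- the symmetric sums of the inverse cross differences, divided by their obvious factors -/
def TT (j : ℕ) (x : X3) : Fin 2 → Fin 2 → ℂ :=
  ![![(LL j 1 1 x)⁻¹ + (LL j 1 (-1) x)⁻¹ + (LL j (-1) 1 x)⁻¹ + (LL j (-1) (-1) x)⁻¹,
      -((LL j 1 1 x)⁻¹ * (LL j 1 (-1) x)⁻¹) - (LL j (-1) 1 x)⁻¹ * (LL j (-1) (-1) x)⁻¹],
    ![(LL j 1 1 x)⁻¹ * (LL j (-1) 1 x)⁻¹ + (LL j 1 (-1) x)⁻¹ * (LL j (-1) (-1) x)⁻¹,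
      -2 * x 2 * ((LL j 1 1 x)⁻¹ * (LL j 1 (-1) x)⁻¹ * (LL j (-1) 1 x)⁻¹ * (LL j (-1) (-1) x)⁻¹)]]

/-- the regular system, direction `u₁` -/
def A0 (j : ℕ) (e : ℝ) (x : X3) : M6 := of fun p q =>
  -((2 * j + 1) / 2) * gam e p q *
      x 0 ^ (K1 j p + 2 * j + (2 * j + 1) * (p1 p + p1 q + 1 : Fin 2) - K1 j q) *
      x 1 ^ (K2 j p + (2 * j + 1) * (p2 p + p2 q : Fin 2) - K2 j q) *
      TT j x (p1 p + p1 q + 1) (p2 p + p2 q) +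
    if p = 0 ∧ q = 2 then -((j - 1) / 4) * x 0 ^ (3 * j) else 0

/-- the regular system, direction `u₂` -/
def A1 (j : ℕ) (e : ℝ) (x : X3) : M6 := of fun p q =>
  (2 * j + 1) / 2 * gam e p q *
      x 0 ^ (K1 j p + (2 * j + 1) * (p1 p + p1 q : Fin 2) - K1 j q) *
      x 1 ^ (K2 j p + 2 * j + (2 * j + 1) * (p2 p + p2 q + 1 : Fin 2) - K2 j q) *
      TT j x (p1 p + p1 q) (p2 p + p2 q + 1) +
    if p = 1 ∧ q = 2 then -((j - 1) / 4) * x 1 ^ (3 * j) else 0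

/-- the regular system, direction `c` -/
def A2 (j : ℕ) (e : ℝ) (x : X3) : M6 := of fun p q =>
  gam e p q * x 0 ^ (K1 j p + (2 * j + 1) * (p1 p + p1 q : Fin 2) - K1 j q) *
    x 1 ^ (K2 j p + (2 * j + 1) * (p2 p + p2 q : Fin 2) - K2 j q) *
    TT j x (p1 p + p1 q) (p2 p + p2 q)

/-- the regular system -/
def Am (j : ℕ) (e : ℝ) (x v : X3) : M6 := v 0 • A0 j e x + v 1 • A1 j e x + v 2 • A2 j e x

/-- the coefficients of the period map in the sheared frame -/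
def wr (j : ℕ) (x : X3) : Fin 6 → ℂ :=
  ![x 0 ^ (j + 1), x 1 ^ (j + 1), x 2 ^ 2, 2 * x 0 * x 1, 2 * x 2 * x 0, 2 * x 2 * x 1]

/-- the coefficients of its derivative, up to the factor `5 al + 1` -/
def dwr (j : ℕ) (x v : X3) : Fin 6 → ℂ :=
  ![(2 * j + 1) * x 0 ^ j * v 0, (2 * j + 1) * x 1 ^ j * v 1, x 2 * v 2,
    (2 * j + 1) * (x 1 * v 0 + x 0 * v 1), (2 * j + 1) * x 2 * v 0 + x 0 * v 2,
    (2 * j + 1) * x 2 * v 1 + x 1 * v 2]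

theorem Tm_Ti : Tm * Ti = 1 := by
  ext p q
  fin_cases p <;> fin_cases q <;> simp [Tm, Ti, Matrix.mul_apply, Fin.sum_univ_six] <;> norm_num

theorem Ti_Tm : Ti * Tm = 1 := mul_eq_one_comm.1 Tm_Ti

theorem wr_gg (j : ℕ) (x : X3) : wr j x ᵥ* gg j x = cw (cfg j x) := by
  ext n
  fin_cases n <;>
    simp [gg, wr, sh, K1, K2, Tm, cw, cfg, fst, snd, vecMul, dotProduct, Fin.sum_univ_six,
      Matrix.mul_apply, diagonal] <;> ring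

theorem dwr_gg (j : ℕ) (x v : X3) : dwr j x v ᵥ* gg j x = fun n =>
    (cfg j x (fst n) - cfg j x (snd n)) * (dcfg j x v (fst n) - dcfg j x v (snd n)) := by
  ext n
  fin_cases n <;>
    simp [gg, dwr, sh, K1, K2, Tm, cfg, dcfg, fst, snd, vecMul, dotProduct, Fin.sum_univ_six,
      Matrix.mul_apply, diagonal] <;> ring

end

end Pool.Agent.Lib.MP_0c623d_al.BP.B
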