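import Pool.Agent.Lib.MP_0c623d_al.BP.Sk
import Pool.Agent.Lib.MP_0c623d_al.B.Defs

set_option autoImplicit false

/-!
The statements between the regular system and the charts.
-/

namespace Pool.Agent.Lib.MP_0c623d_al.BP.B

open Matrix Filter Topology Set Function Metric
open Pool.Agent.BP.F (V hh)

/-- chart functions in the coordinates `(u₁, u₂, c)` -/
def XSt : Prop := ∀ (j : ℕ) (e : ℝ), 3 ≤ j → (4 * j + 2) * e = 1 → ∀ (f : FR e) (g : GR f)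
  (σ : Equiv.Perm (Fin 4)) (x0 : X3), x0 ∈ Om j → ∃ r : ℝ, 0 < r ∧ ∀ S : Set X3,
    S ⊆ ball x0 r → IsPreconnected S → S.Nonempty →
    (∀ x ∈ S, cfg j x ∘ σ ∈ Pool.Agent.BP.F.Om) → ∃ Gx : X3 → V, AnalyticAt ℂ Gx x0 ∧
      (∀ x ∈ S, Gx x = f.W (cfg j x ∘ σ)) ∧
      (∀ x ∈ ball x0 r, x 0 ≠ 0 → x 1 ≠ 0 →
        (hh g.Hm (Gx x) (Gx x)).re = g.phi (cfg j x ∘ σ)) ∧
      Injective (fderiv ℂ Gx x0) ∧ (∃ v, fderiv ℂ Gx x0 v = Gx x0) ∧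
      ∃ U : Submodule ℂ V, Module.finrank ℂ U = 3 ∧ (∀ u ∈ U, u ≠ 0 → 0 < (hh g.Hm u u).re) ∧
        ∀ u ∈ U, ∀ v, hh g.Hm u (fderiv ℂ Gx x0 v) = 0

/-- a frame of the regular system on a ball -/
def RegSt : Prop := ∀ (j : ℕ) (e : ℝ), 1 ≤ j → (4 * j + 2) * e = 1 → ∀ x0 ∈ Om j,
  ∃ r : ℝ, 0 < r ∧ ball x0 r ⊆ Om j ∧ ∃ Z : X3 → M6, ∀ x ∈ ball x0 r, IsUnit (Z x) ∧
    ∃ L : X3 →L[ℂ] M6, (∀ v, L v = Am j e x v * Z x) ∧ HasFDerivAt Z L x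

/-- positivity of the sheared dual Gram matrix -/
def UPosSt : Prop := ∀ (j : ℕ) (e : ℝ), 3 ≤ j → (4 * j + 2) * e = 1 → ∀ x0 ∈ Om j,
  ∀ Γ : X3 → M6, ContinuousAt Γ x0 →
    (∀ᶠ x in 𝓝 x0, x 0 ≠ 0 → x 1 ≠ 0 → ∀ l : Fin 3 → ℂ,
      hh (Γ x) (star (gg j x *ᵥ Srow (cfg j x) l)) (star (gg j x *ᵥ Srow (cfg j x) l)) =
        (G e (cfg j x) l : ℂ)) →
    ∃ N : Submodule ℂ V, Module.finrank ℂ N = 3 ∧ (∀ s ∈ N, ∀ v, dwr j x0 v ⬝ᵥ s = 0) ∧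
      ∀ s ∈ N, s ≠ 0 → 0 < (hh (Γ x0) (star s) (star s)).re

end Pool.Agent.Lib.MP_0c623d_al.BP.B
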