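import Pool.Agent.Lib.MP_0c623d_al.B.Reg
import Pool.Agent.Lib.MP_0c623d_al.B.XDefs
import Pool.Agent.Lib.MP_0c623d_al.BP.WAlg

set_option autoImplicit false

/-!
Frames on balls and the derivative of the period map in the chart.
-/

namespace Pool.Agent.Lib.MP_0c623d_al.BP.B

open Matrix Filter Topology Set
open scoped Matrix.Norms.Operator

noncomputable section

theorem regSt : RegSt := by
  intro j e hj he x0 h0
  obtain ⟨r, hr, hb⟩ := Metric.isOpen_iff.1 (isOpen_Om j) x0 h0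
  obtain ⟨Z, -, -, hZ⟩ := frame_star hj he Metric.isOpen_ball (Metric.mem_ball_self hr)
    ((convex_ball _ _).starConvex (Metric.mem_ball_self hr)) hb
  exact ⟨r, hr, hb, Z, hZ⟩

/-- the derivative of the row `wr` -/
def wr1 (j : ℕ) (x v : X3) : Fin 6 → ℂ :=
  ![(j + 1) * x 0 ^ j * v 0, (j + 1) * x 1 ^ j * v 1, 2 * x 2 * v 2, 2 * (v 0 * x 1 + x 0 * v 1),
    2 * (v 2 * x 0 + x 2 * v 0), 2 * (v 2 * x 1 + x 2 * v 1)]

theorem an_wr (j : ℕ) (x : X3) : AnalyticAt ℂ (wr j) x := by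
  refine analyticAt_pi_iff.2 fun i => ?_
  fin_cases i
  · exact (an_coord 0 x).pow _
  · exact (an_coord 1 x).pow _
  · exact (an_coord 2 x).pow _
  · exact (analyticAt_const.mul (an_coord 0 x)).mul (an_coord 1 x)
  · exact (analyticAt_const.mul (an_coord 2 x)).mul (an_coord 0 x)
  · exact (analyticAt_const.mul (an_coord 2 x)).mul (an_coord 1 x)

theorem fderiv_wr (j : ℕ) (x v : X3) : fderiv ℂ (wr j) x v = wr1 j x v := by
  refine fderiv_line (an_wr j x).differentiableAt (hasDerivAt_pi.2 fun i => ?_)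
  have h : ∀ i, HasDerivAt (fun s : ℂ => x i + s * v i) (v i) 0 := fun i => by
    simpa using ((hasDerivAt_id (0 : ℂ)).mul_const (v i)).const_add (x i)
  fin_cases i
  · exact (line_pow (x 0) (v 0) (j + 1)).congr_deriv (by simp [wr1])
  · exact (line_pow (x 1) (v 1) (j + 1)).congr_deriv (by simp [wr1])
  · exact (line_pow (x 2) (v 2) 2).congr_deriv (by simp [wr1])
  · exact (((h 0).const_mul 2).mul (h 1)).congr_deriv (by simp [wr1]; ring)
  · exact (((h 2).const_mul 2).mul (h 0)).congr_deriv (by simp [wr1]; ring)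
  · exact (((h 2).const_mul 2).mul (h 1)).congr_deriv (by simp [wr1]; ring)

theorem wr1_gg (j : ℕ) {x : X3} (h0 : x 0 ≠ 0) (h1 : x 1 ≠ 0) (v : X3) :
    wr1 j x v ᵥ* gg j x + wr j x ᵥ* (diagonal (fun p => sh j x p * lsh j x v p) * Tm) =
      (2 : ℂ) • (dwr j x v ᵥ* gg j x) := by
  rw [gg, ← vecMul_vecMul, ← vecMul_vecMul, ← vecMul_vecMul, ← add_vecMul, ← smul_vecMul]
  congr 1
  ext p
  simp only [Pi.add_apply, Pi.smul_apply, vecMul_diagonal, smul_eq_mul]
  fin_cases p <;> simp [wr1, wr, dwr, sh, lsh, K1, K2] <;> field_simp <;> ring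

theorem cont_Am {j : ℕ} (e : ℝ) {x : X3} (hx : x ∈ Om j) (v : X3) (p q : Fin 6) :
    ContinuousAt (fun y => Am j e y v p q) x :=
  ((continuous_apply_apply p q).continuousAt).comp (an_Am e hx v).continuousAt

/-- The identity behind the derivative of the period map. -/
theorem wr_Am {j : ℕ} (hj : 1 ≤ j) {e : ℝ} (he : (4 * j + 2) * e = 1) {x : X3} (hx : x ∈ Om j)
    (v : X3) : wr1 j x v + wr j x ᵥ* Am j e x v = (5 * al e + 1) • dwr j x v := by
  refine eq_of_ne (f := fun x => wr1 j x v + wr j x ᵥ* Am j e x v)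
    (g := fun x => (5 * al e + 1) • dwr j x v) ?_ ?_ ?_
  · refine ContinuousAt.add (Continuous.continuousAt ?_) (continuousAt_pi.2 fun q => ?_)
    · unfold wr1; fun_prop
    · simp only [vecMul, dotProduct]
      exact tendsto_finsetSum _ fun p _ =>
        ((continuous_apply p).continuousAt.comp (an_wr j x).continuousAt).mul (cont_Am e hx v p q)
  · refine Continuous.continuousAt ?_
    unfold dwr; fun_prop
  filter_upwards [(isOpen_Om j).mem_nhds hx] with y hy h0 h1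
  refine (Matrix.vecMul_injective_iff_isUnit.2 (gg_unit j h0 h1)) ?_
  have k := Pool.Agent.Lib.MP_0c623d_al.BP.W.cw_conn e (cfg_inj hy h0 h1) (dcfg j y v)
  have k2 : dwr j y v ᵥ* gg j y = Bm (cfg j y) (dcfg j y v) := dwr_gg j y v
  simp only [add_vecMul, smul_vecMul, vecMul_vecMul]
  rw [gauge hj he hy h0 h1, vecMul_add, ← add_assoc, wr1_gg j h0 h1, ← vecMul_vecMul, wr_gg, k, k2,
    ← add_smul, Pool.Agent.Lib.MP_0c623d_al.BP.W.dg, al]
  congr 1
  ring

/-- The derivative of the period map of a solution of the regular system. -/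
theorem SolR.fderiv_w {j : ℕ} (hj : 1 ≤ j) {e : ℝ} (he : (4 * j + 2) * e = 1) {x : X3}
    (hx : x ∈ Om j) {Z : X3 → M6} (hZ : SolR j e Z x) :
    DifferentiableAt ℂ (fun y => wr j y ᵥ* Z y) x ∧
      ∀ v, fderiv ℂ (fun y => wr j y ᵥ* Z y) x v = (5 * al e + 1) • (dwr j x v ᵥ* Z x) := by
  obtain ⟨L, hL, hZ⟩ := hZ
  let B : (Fin 6 → ℂ) →L[ℂ] M6 →L[ℂ] (Fin 6 → ℂ) := LinearMap.toContinuousLinearMap
    ((LinearMap.toContinuousLinearMap.toLinearMap) ∘ₗ (vecMulBilin ℂ ℂ))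
  have h := B.hasFDerivAt_of_bilinear (an_wr j x).differentiableAt.hasFDerivAt hZ
  refine ⟨h.differentiableAt, fun v => ?_⟩
  have h' : HasFDerivAt (fun y => wr j y ᵥ* Z y) _ x := h
  rw [h'.fderiv]
  change wr j x ᵥ* L v + fderiv ℂ (wr j) x v ᵥ* Z x = _
  rw [hL, fderiv_wr, ← vecMul_vecMul, ← add_vecMul, add_comm, wr_Am hj he hx, smul_vecMul]

theorem dwr_inj {j : ℕ} {x : X3} (hx : x ∈ Om j) {v : X3} (h : dwr j x v = 0) : v = 0 := by
  have hk : (2 * j + 1 : ℂ) ≠ 0 := by exact_mod_cast (by omega : 2 * j + 1 ≠ 0)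
  have h0 := congrFun h 0
  have h1 := congrFun h 1
  have h2 := congrFun h 2
  have h3 := congrFun h 3
  have h4 := congrFun h 4
  have h5 := congrFun h 5
  simp [dwr, hk] at h0 h1 h2 h3 h4 h5
  have key : v 0 = 0 ∧ v 1 = 0 ∧ v 2 = 0 := by
    by_cases c2 : x 2 = 0
    · by_cases c0 : x 0 = 0
      · have c1 : x 1 ≠ 0 := fun c1 => hx.1 (by simp [LL, c0, c1, c2])
        simp_all
      · simp_all
    · simp_all
  ext i
  fin_cases i <;> simp [key]

theorem dwr_euler (j : ℕ) (x : X3) :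
    dwr j x ![x 0 / (2 * j + 1), x 1 / (2 * j + 1), x 2] = wr j x := by
  have hk : (2 * j + 1 : ℂ) ≠ 0 := by exact_mod_cast (by omega : 2 * j + 1 ≠ 0)
  ext p
  fin_cases p <;> simp [dwr, wr] <;> field_simp <;> ring

end

end Pool.Agent.Lib.MP_0c623d_al.BP.B
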