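import Pool.Agent.Lib.MP_0c623d_al.B.XDefs
import Pool.Agent.Lib.MP_0c623d_al.F.Rot

set_option autoImplicit false

/-!
From the coordinates `(u₁, u₂, c)` to the charts centred at admissible differences.
-/

namespace Pool.Agent.Lib.MP_0c623d_al.BP.B

open Complex Matrix Filter Topology Set Function Metric
open Pool.Agent.BP.F (V E3 hh Adm pw Sect LexNN)

namespace Trn

theorem pre_sec {k : ℕ} (hk : k ≠ 0) {r : ℝ} :
    IsPreconnected (ball (0 : ℂ) r ∩ {z : ℂ | z ≠ 0 ∧ |arg z| < Real.pi / k}) := by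
  have : ball (0 : ℂ) r ∩ {z : ℂ | z ≠ 0 ∧ |arg z| < Real.pi / k} =
      (fun p : ℝ × ℝ => (p.1 : ℂ) * exp ((p.2 : ℂ) * I)) ''
        (Ioo 0 r ×ˢ Ioo (-(Real.pi / k)) (Real.pi / k)) := by
    ext z
    constructor
    · rintro ⟨h1, h2, h3⟩
      exact ⟨(‖z‖, arg z), ⟨⟨norm_pos_iff.2 h2, by simpa using h1⟩, abs_lt.1 h3⟩,
        norm_mul_exp_arg_mul_I z⟩
    · rintro ⟨p, ⟨h1, h2⟩, rfl⟩
      refine ⟨?_, Pool.Agent.BP.F.ray_sec hk h1.1 (abs_lt.2 h2)⟩
      simpa [norm_exp_ofReal_mul_I, abs_of_pos h1.1] using h1.2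
  rw [this]
  exact (isPreconnected_Ioo.prod isPreconnected_Ioo).image _ (by fun_prop)

theorem pre_sect {k : ℕ} (hk : k ≠ 0) (d0 : E3) {r : ℝ} (hr : 0 < r) :
    IsPreconnected (ball d0 r ∩ {ζ | Sect k d0 ζ}) := by
  have : ball d0 r ∩ {ζ | Sect k d0 ζ} = Set.pi univ fun p =>
      ball (d0 p) r ∩ {z : ℂ | d0 p = 0 → z ≠ 0 ∧ |arg z| < Real.pi / k} := by
    rw [ball_pi _ hr]
    ext ζ
    simp only [mem_inter_iff, Set.mem_pi, mem_univ, true_imp_iff, mem_ofPred_eq, Sect, forall_and]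
  rw [this]
  refine isPreconnected_univ_pi fun p => ?_
  by_cases h : d0 p = 0
  · simpa only [h, true_imp_iff] using pre_sec hk
  · simpa [h] using (convex_ball (d0 p) r).isPreconnected

theorem phi_add {e : ℝ} {f : FR e} (g : GR f) {a : Cf} (ha : Injective a) (c : ℂ) :
    g.phi (fun i => a i + c) = g.phi a := by
  have h := g.aff a ha 1 c one_ne_zero
  simp only [one_mul, norm_one, Real.one_rpow, ofReal_one, one_smul] at h
  have h2 : cw (fun i => a i + c) = cw a := by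
    funext n
    simp [cw]
  rw [GR.phi, GR.phi, h, h2]

/-- change of coordinates -/
theorem pre_of (hW : WSt) (hX : XSt) {j : ℕ} (hj : 30 ≤ j) (f : FR (ee (2 * j + 1))) (g : GR f)
    {d0 : E3} (hd : Adm d0) (σ : Equiv.Perm (Fin 4)) (X : E3 → X3) (Z : X3 → E3)
    (h1 : AnalyticAt ℂ X d0) (h2 : DifferentiableAt ℂ Z (X d0)) (h3 : ∀ ζ, Z (X ζ) = ζ)
    (h4 : X d0 ∈ Om j)
    (h5 : ∀ ζ, ∃ c : ℂ, cfg j (X ζ) ∘ σ =
      fun i => Pool.Agent.BP.F.cfg (pw (2 * j + 1) d0 ζ) i + c) :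
    ∃ Gc, PreChart (2 * j + 1) g d0 Gc := by
  have k0 : 2 * j + 1 ≠ 0 := by omega
  have jr : (30 : ℝ) ≤ j := by exact_mod_cast hj
  have he : (4 * j + 2) * ee (2 * j + 1) = 1 := by
    unfold ee; push_cast; field_simp; ring
  have e0 : 0 < ee (2 * j + 1) := by unfold ee; positivity
  have e1 : ee (2 * j + 1) < 1 / 12 := by
    unfold ee; push_cast
    exact one_div_lt_one_div_of_lt (by norm_num) (by linarith)
  have tr := (hW _ e0 e1 f).2.1
  obtain ⟨r, r0, hr⟩ := hX j _ (by omega) he f g σ (X d0) h4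
  obtain ⟨ρ, ρ0, hρ⟩ := Metric.eventually_nhds_iff_ball.1 (h1.eventually_analyticAt.and
    ((h1.continuousAt.eventually (ball_mem_nhds _ r0)).and (Pool.Agent.BP.F.om_ev k0 hd)))
  obtain ⟨ε, b, hε⟩ := (((Pool.Agent.BP.F.ray_tendsto (k := 2 * j + 1) d0).eventually
    (ball_mem_nhds d0 ρ0)).and self_mem_nhdsWithin).exists
  obtain ⟨Gx, g1, g2, g3, g4, ⟨v, g5⟩, U, g6, g7, g8⟩ := hr
    (X '' (ball d0 ρ ∩ {ζ | Sect (2 * j + 1) d0 ζ}))
    (by rintro _ ⟨ζ, hζ, rfl⟩; exact (hρ ζ hζ.1).2.1)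
    ((pre_sect k0 d0 ρ0).image _ fun ζ hζ => (hρ ζ hζ.1).1.continuousAt.continuousWithinAt)
    ⟨_, _, ⟨b, Pool.Agent.BP.F.ray_sect k0 d0 hε⟩, rfl⟩
    (by
      rintro _ ⟨ζ, hζ, rfl⟩
      obtain ⟨c, hc⟩ := h5 ζ
      rw [hc]
      intro a a' haa
      simpa using (hρ ζ hζ.1).2.2 hζ.2 a a' haa)
  have dX := h1.differentiableAt.hasFDerivAt
  have dG : fderiv ℂ (fun ζ => Gx (X ζ)) d0 = (fderiv ℂ Gx (X d0)).comp (fderiv ℂ X d0) :=
    (g1.differentiableAt.hasFDerivAt.comp d0 dX).fderiv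
  have inj : Injective (fderiv ℂ X d0) := by
    have a := h2.hasFDerivAt.comp d0 dX
    have b : (Z ∘ X) = id := funext h3
    rw [b] at a
    have c := a.unique (hasFDerivAt_id d0)
    exact LeftInverse.injective (g := fderiv ℂ Z (X d0)) fun w =>
      congrArg (fun L : E3 →L[ℂ] E3 => L w) c
  have sur : Surjective (fderiv ℂ X d0) :=
    (LinearMap.injective_iff_surjective (f := (fderiv ℂ X d0).toLinearMap)).1 inj
  refine ⟨fun ζ => Gx (X ζ), g1.comp h1, ?_, ?_, ?_, ?_, U, g6, g7, fun u hu w => ?_⟩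
  · filter_upwards [ball_mem_nhds d0 ρ0] with ζ hζ hs
    obtain ⟨c, hc⟩ := h5 ζ
    rw [g2 _ ⟨ζ, ⟨hζ, hs⟩, rfl⟩, hc, tr _ ((hρ ζ hζ).2.2 hs)]
  · filter_upwards [ball_mem_nhds d0 ρ0] with ζ hζ hi
    obtain ⟨c, hc⟩ := h5 ζ
    have i1 : Injective (cfg j (X ζ) ∘ σ) := by
      rw [hc]
      exact fun a a' h => hi (add_right_cancel h)
    have i2 : Injective (cfg j (X ζ)) := (Injective.of_comp_iff' _ σ.bijective).1 i1
    rw [g3 _ (hρ ζ hζ).2.1 (fun h => ?_) (fun h => ?_), hc, phi_add g hi]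
    · exact absurd (i2 (a₁ := 0) (a₂ := 1) (by simp [cfg, h])) (by decide)
    · exact absurd (i2 (a₁ := 2) (a₂ := 3) (by simp [cfg, h])) (by decide)
  · rw [dG]
    exact g4.comp inj
  · obtain ⟨w, hw⟩ := sur v
    exact ⟨w, by rw [dG, ContinuousLinearMap.comp_apply, hw, g5]⟩
  · rw [dG]
    exact g8 u hu _

/-- the root coordinate -/
noncomputable def ro (k : ℕ) (d z : ℂ) : ℂ := if d = 0 then z else z ^ ((k : ℂ)⁻¹)

theorem ro_pow {k : ℕ} (hk : k ≠ 0) (d0 ζ : E3) (p : Fin 3) :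
    ro k (d0 p) (ζ p) ^ k = pw k d0 ζ p := by
  unfold ro pw
  split_ifs
  · rfl
  · exact cpow_nat_inv_pow _ hk

theorem an_co (p : Fin 3) (ζ : E3) : AnalyticAt ℂ (fun ζ : E3 => ζ p) ζ :=
  (ContinuousLinearMap.proj (R := ℂ) (φ := fun _ : Fin 3 => ℂ) p).analyticAt ζ

theorem an_ro (k : ℕ) {d0 : E3} (hd : Adm d0) (p : Fin 3) :
    AnalyticAt ℂ (fun ζ : E3 => ro k (d0 p) (ζ p)) d0 := by
  unfold ro
  by_cases h : d0 p = 0
  · simpa only [h, if_true] using an_co p d0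
  · simp only [h, if_false]
    exact (an_co p d0).cpow analyticAt_const (Pool.Agent.BP.F.lex_slit (hd.1 p) h)

theorem an_pw (k : ℕ) (d0 : E3) (p : Fin 3) : AnalyticAt ℂ (fun ζ : E3 => pw k d0 ζ p) d0 :=
  analyticAt_pi_iff.1 (Pool.Agent.BP.F.analytic_pw d0 d0) p

end Trn

open Trn

theorem chart_of (hW : WSt) (hX : XSt) : ChartSt := by
  rintro _ ⟨j, rfl⟩ hk f g d0 hd
  have k0 : 2 * j + 1 ≠ 0 := by omega
  have ps := Pool.Agent.BP.F.pw_self k0 d0
  have n01 : d0 0 + d0 1 ≠ 0 := fun e => hd.2.1 (Pool.Agent.BP.F.lex_add_eq (hd.1 0) (hd.1 1) e)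
  have n12 : d0 1 + d0 2 ≠ 0 := fun e => hd.2.2 (Pool.Agent.BP.F.lex_add_eq (hd.1 1) (hd.1 2) e)
  have l012 := Pool.Agent.BP.F.lex_add (Pool.Agent.BP.F.lex_add (hd.1 0) (hd.1 1)) (hd.1 2)
  have n012 : d0 0 + d0 1 + d0 2 ≠ 0 := fun e => n01
    (Pool.Agent.BP.F.lex_add_eq (Pool.Agent.BP.F.lex_add (hd.1 0) (hd.1 1)) (hd.1 2) e).1
  by_cases h : d0 1 = 0
  · have a0 : d0 0 ≠ 0 := fun e => hd.2.1 ⟨e, h⟩
    have a2 : d0 2 ≠ 0 := fun e => hd.2.2 ⟨h, e⟩
    have rp : ∀ z : ℂ, (z ^ (((2 * j + 1 : ℕ) : ℂ)⁻¹)) ^ (2 * j + 1) = z := fun z =>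
      cpow_nat_inv_pow z k0
    refine pre_of hW hX (by omega) f g hd (Equiv.swap 0 2 * Equiv.swap 1 2)
      (fun ζ => ![ζ 1, (ζ 0 + ζ 1 ^ (2 * j + 1) + ζ 2) ^ (((2 * j + 1 : ℕ) : ℂ)⁻¹),
        (ζ 2 - ζ 0) / 2])
      (fun x => ![(x 1 ^ (2 * j + 1) - x 0 ^ (2 * j + 1)) / 2 - x 2, x 0,
        (x 1 ^ (2 * j + 1) - x 0 ^ (2 * j + 1)) / 2 + x 2]) ?_ ?_ (fun ζ => ?_) ?_ fun ζ => ?_
    · refine analyticAt_pi_iff.2 fun p => ?_
      fin_cases p
      · exact an_co 1 d0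
      · refine (((an_co 0 d0).add ((an_co 1 d0).pow _)).add (an_co 2 d0)).cpow analyticAt_const ?_
        have := Pool.Agent.BP.F.lex_slit l012 n012
        simpa [h] using this
      · exact ((an_co 2 d0).sub (an_co 0 d0)).div_const
    · refine differentiableAt_pi.2 fun p => ?_
      fin_cases p <;> simp only [Fin.reduceFinMk, cons_val_zero, cons_val_one, cons_val] <;>
        fun_prop
    · funext p
      fin_cases p <;> simp only [Fin.reduceFinMk, cons_val_zero, cons_val_one, cons_val, rp] <;>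
        ring
    · simp only [Om, LL, mem_ofPred_eq, cons_val_zero, cons_val_one, cons_val, rp, h,
        zero_pow k0]
      refine ⟨fun e => a2 ?_, fun e => a0 ?_, fun e => a2 ?_, fun e => a0 ?_⟩
      · linear_combination e
      · linear_combination -e
      · linear_combination e
      · linear_combination -e
    · refine ⟨-(ζ 0 + ζ 1 ^ (2 * j + 1) / 2), funext fun i => ?_⟩
      fin_cases i <;>
        simp only [Fin.reduceFinMk, Function.comp, cfg, Pool.Agent.BP.F.cfg, pw, h, a0, a2, if_true,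
          if_false, Equiv.Perm.mul_apply, Equiv.swap_apply_def, Fin.reduceEq, cons_val_zero,
          cons_val_one, cons_val, rp] <;> ring
  · have rp := ro_pow k0 d0
    have p1 : ∀ ζ, pw (2 * j + 1) d0 ζ 1 = ζ 1 := fun ζ => by simp [pw, h]
    refine pre_of hW hX (by omega) f g hd 1
      (fun ζ => ![ro (2 * j + 1) (d0 0) (ζ 0), ro (2 * j + 1) (d0 2) (ζ 2),
        ζ 1 + pw (2 * j + 1) d0 ζ 0 / 2 + pw (2 * j + 1) d0 ζ 2 / 2])
      (fun x => ![if d0 0 = 0 then x 0 else x 0 ^ (2 * j + 1),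
        x 2 - x 0 ^ (2 * j + 1) / 2 - x 1 ^ (2 * j + 1) / 2,
        if d0 2 = 0 then x 1 else x 1 ^ (2 * j + 1)]) ?_ ?_ (fun ζ => ?_) ?_ fun ζ => ?_
    · refine analyticAt_pi_iff.2 fun p => ?_
      fin_cases p
      · exact an_ro _ hd 0
      · exact an_ro _ hd 2
      · exact ((an_co 1 d0).add (an_pw _ d0 0).div_const).add (an_pw _ d0 2).div_const
    · refine differentiableAt_pi.2 fun p => ?_
      fin_cases p <;> simp only [Fin.reduceFinMk, cons_val_zero, cons_val_one, cons_val]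
      · split_ifs <;> fun_prop
      · fun_prop
      · split_ifs <;> fun_prop
    · funext p
      fin_cases p <;> simp only [Fin.reduceFinMk, cons_val_zero, cons_val_one, cons_val, rp]
      · split_ifs with e <;> simp [ro, pw, e]
      · ring
      · split_ifs with e <;> simp [ro, pw, e]
    · simp only [Om, LL, mem_ofPred_eq, cons_val_zero, cons_val_one, cons_val, rp, ps]
      refine ⟨fun e => n12 ?_, fun e => h ?_, fun e => n012 ?_, fun e => n01 ?_⟩ <;>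
        linear_combination e
    · refine ⟨-(pw (2 * j + 1) d0 ζ 0 / 2), funext fun i => ?_⟩
      fin_cases i <;>
        simp only [Fin.reduceFinMk, Function.comp, cfg, Pool.Agent.BP.F.cfg, Equiv.Perm.one_apply,
          cons_val_zero, cons_val_one, cons_val, rp, p1] <;> ring

end Pool.Agent.Lib.MP_0c623d_al.BP.B
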