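import Pool.Agent.Lib.MP_0c623d_al.B.Pos
import Pool.Agent.Lib.MP_0c623d_al.B.XDefs
import Pool.Agent.Lib.MP_0c623d_al.BP.Int

set_option autoImplicit false

/-!
Positivity of the sheared dual Gram matrix at every point of the chart.
-/

namespace Pool.Agent.Lib.MP_0c623d_al.BP.B.Pos

open Matrix Filter Topology
open Pool.Agent.BP.F (V hh)

noncomputable section

variable {j : ℕ}

/-- the first jet as a matrix -/
def Lm (j : ℕ) (x : X3) : Matrix (Fin 3) (Fin 6) ℂ :=
  !![(2 * j + 1) * x 0 ^ j, 0, 0, (2 * j + 1) * x 1, (2 * j + 1) * x 2, 0;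
    0, (2 * j + 1) * x 1 ^ j, 0, (2 * j + 1) * x 0, 0, (2 * j + 1) * x 2;
    0, 0, x 2, 0, x 0, x 1]

theorem vm_Lm (x v : X3) : v ᵥ* Lm j x = dwr j x v := by
  ext q
  fin_cases q <;> simp [Lm, dwr, vecMul, dotProduct, Fin.sum_univ_three] <;> ring

theorem cont_Lm : Continuous (Lm j) := by
  refine continuous_matrix fun p q => ?_
  fin_cases p <;> fin_cases q <;> simp [Lm] <;> fun_prop

theorem dwr_inj {x : X3} (hx : x ∈ Om j) {v : X3} (h : dwr j x v = 0) : v = 0 := by
  have hk : (2 * j + 1 : ℂ) ≠ 0 := by exact_mod_cast Nat.succ_ne_zero (2 * j)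
  have e0 := congrFun h 0
  have e1 := congrFun h 1
  have e2 := congrFun h 2
  have e3 := congrFun h 3
  have e4 := congrFun h 4
  have e5 := congrFun h 5
  simp [dwr, hk] at e0 e1 e2 e3 e4 e5
  have hL := hx.1
  simp only [LL] at hL
  have fin : v 0 = 0 → v 1 = 0 → v 2 = 0 → v = 0 := fun a b c => by
    ext i; fin_cases i <;> simpa
  by_cases h2 : x 2 = 0
  · by_cases a0 : x 0 = 0
    · have a1 : x 1 ≠ 0 := fun a1 => hL (by simp [h2, a0, a1])
      simp [h2, a0, a1] at e1 e3 e5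
      exact fin e3 e1 e5
    · have v0 : v 0 = 0 := by simpa [a0] using e0
      simp [h2, a0, v0] at e3 e4
      exact fin v0 e3 e4
  · have v2 : v 2 = 0 := by simpa [h2] using e2
    simp [h2, v2, hk] at e4 e5
    exact fin e4 e5 v2

open scoped ComplexOrder in
theorem det_ne {x : X3} (hx : x ∈ Om j) : (Lm j x * (Lm j x)ᴴ).det ≠ 0 := by
  intro h
  obtain ⟨v, hv, e⟩ := Matrix.exists_vecMul_eq_zero_iff.2 h
  apply hv
  apply dwr_inj hx
  rw [← vm_Lm]
  exact (Matrix.vecMul_self_mul_conjTranspose_eq_zero _ _).1 e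

theorem Bm_Srow (a : Cf) (ha : Function.Injective a) (v : Cf) (l : Fin 3 → ℂ) :
    (fun n => (a (fst n) - a (snd n)) * (v (fst n) - v (snd n))) ⬝ᵥ Srow a l = 0 := by
  have h : ∀ i j : Fin 4, i ≠ j → a i - a j ≠ 0 := fun i j h => sub_ne_zero.2 (ha.ne h)
  have h01 := h 0 1 (by decide)
  have h02 := h 0 2 (by decide)
  have h03 := h 0 3 (by decide)
  have h12 := h 1 2 (by decide)
  have h13 := h 1 3 (by decide)
  have h23 := h 2 3 (by decide)
  have h10 := h 1 0 (by decide)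
  have h20 := h 2 0 (by decide)
  have h30 := h 3 0 (by decide)
  have h21 := h 2 1 (by decide)
  have h31 := h 3 1 (by decide)
  have h32 := h 3 2 (by decide)
  simp [dotProduct, Fin.sum_univ_six, Srow, cw, Pc, ell, fst, snd, cpl]
  field_simp
  ring

/-- the sheared dual frame as a linear map -/
def TL (j : ℕ) (x : X3) : (Fin 3 → ℂ) →ₗ[ℂ] V where
  toFun l := gg j x *ᵥ Srow (cfg j x) l
  map_add' l l' := by
    rw [← mulVec_add]; congr 1; ext n; simp [Srow, ell]; ring
  map_smul' c l := by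
    rw [RingHom.id_apply, ← mulVec_smul]; congr 1; ext n; simp [Srow, ell]; ring

theorem fin_ker {x : X3} (hx : x ∈ Om j) :
    Module.finrank ℂ (LinearMap.ker (Lm j x).mulVecLin) = 3 := by
  have hs : LinearMap.range (Lm j x).mulVecLin = ⊤ := by
    refine LinearMap.range_eq_top.2 fun y => ⟨(Lm j x)ᴴ *ᵥ ((Lm j x * (Lm j x)ᴴ)⁻¹ *ᵥ y), ?_⟩
    rw [mulVecLin_apply, mulVec_mulVec, mulVec_mulVec,
      mul_nonsing_inv _ (isUnit_iff_ne_zero.2 (det_ne hx)), one_mulVec]
  have := LinearMap.finrank_range_add_finrank_ker (Lm j x).mulVecLin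
  rw [hs] at this
  simp at this
  omega

theorem ker_sub {x : X3} (hx : x ∈ Om j) (n0 : x 0 ≠ 0) (n1 : x 1 ≠ 0)
    (hi : Function.Injective (TL j x)) {u : V} (hu : Lm j x *ᵥ u = 0) :
    ∃ l, gg j x *ᵥ Srow (cfg j x) l = u := by
  have hle : LinearMap.range (TL j x) ≤ LinearMap.ker (Lm j x).mulVecLin := by
    rintro _ ⟨l, rfl⟩
    rw [LinearMap.mem_ker, mulVecLin_apply]
    ext i
    have e : (Lm j x *ᵥ TL j x l) i = (Pi.single i 1 : X3) ⬝ᵥ (Lm j x *ᵥ TL j x l) := by simp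
    rw [e, dotProduct_mulVec, vm_Lm]
    show dwr j x _ ⬝ᵥ gg j x *ᵥ _ = _
    rw [dotProduct_mulVec, dwr_gg]
    exact Bm_Srow _ (inj hx n0 n1) _ l
  have he : LinearMap.range (TL j x) = LinearMap.ker (Lm j x).mulVecLin :=
    Submodule.eq_of_le_of_finrank_eq hle (by
      rw [fin_ker hx, LinearMap.finrank_range_of_inj hi]; simp)
  have : u ∈ LinearMap.range (TL j x) := by rw [he]; exact hu
  exact this

theorem dense_reg : Dense {x : X3 | x 0 ≠ 0 ∧ x 1 ≠ 0} := by
  have d : ∀ i : Fin 3, Dense {x : X3 | x i ≠ 0} := fun i =>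
    (dense_compl_singleton (0 : ℂ)).preimage (isOpenMap_eval (X := fun _ : Fin 3 => ℂ) i)
  exact (d 0).inter_of_isOpen_left (d 1) (isOpen_ne_fun (continuous_apply 0) continuous_const)

theorem upos : UPosSt := by
  intro j e hj he x0 hx Γ hΓ hG
  have hj' : (3 : ℝ) ≤ j := by exact_mod_cast hj
  have h0 : 0 < e := by
    by_contra h
    nlinarith
  have h1 : e < 1 / 12 := by
    by_contra h
    nlinarith
  refine ⟨LinearMap.ker (Lm j x0).mulVecLin, fin_ker hx, fun s hs v => ?_, fun s hs hne => ?_⟩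
  · have : Lm j x0 *ᵥ s = 0 := hs
    rw [← vm_Lm, ← dotProduct_mulVec, this, dotProduct_zero]
  have hs0 : Lm j x0 *ᵥ s = 0 := hs
  obtain ⟨c, hc, hlow⟩ := posLow intSt h0 h1 he hx
  set R := (Lm j x0)ᴴ with hR
  have cP : Continuous fun x => Lm j x * R := cont_Lm.matrix_mul continuous_const
  have cd : ContinuousAt (fun x => (Lm j x * R).det) x0 := cP.matrix_det.continuousAt
  have ci : ContinuousAt (fun x => (Lm j x * R)⁻¹) x0 := by
    simp only [Matrix.inv_def, Ring.inverse_eq_inv']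
    exact (cd.inv₀ (det_ne hx)).smul cP.matrix_adjugate.continuousAt
  set u : X3 → V := fun x => s - R *ᵥ ((Lm j x * R)⁻¹ *ᵥ (Lm j x *ᵥ s)) with hu
  have mv : ∀ {m n : ℕ} {A : X3 → Matrix (Fin m) (Fin n) ℂ} {y : X3 → Fin n → ℂ},
      ContinuousAt A x0 → ContinuousAt y x0 → ContinuousAt (fun x => A x *ᵥ y x) x0 :=
    fun a b => (continuous_fst.matrix_mulVec continuous_snd).continuousAt.comp₂ a b
  have cu : ContinuousAt u x0 :=
    continuousAt_const.sub (mv continuousAt_const (mv ci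
      (mv cont_Lm.continuousAt continuousAt_const)))
  have u0 : u x0 = s := by simp only [hu, hs0, mulVec_zero, sub_zero]
  have cs : ContinuousAt (fun x => star (u x)) x0 := cu.star
  have cq : ContinuousAt (fun x => (hh (Γ x) (star (u x)) (star (u x))).re) x0 := by
    refine Complex.continuous_re.continuousAt.comp ?_
    exact (continuous_fst.dotProduct continuous_snd).continuousAt.comp₂ cs.star (mv hΓ cs)
  have cn : ContinuousAt (fun x => c * ‖u x‖ ^ 2) x0 := continuousAt_const.mul (cu.norm.pow 2)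
  have : (𝓝[{x : X3 | x 0 ≠ 0 ∧ x 1 ≠ 0}] x0).NeBot :=
    mem_closure_iff_nhdsWithin_neBot.1 (dense_reg x0)
  have hle : c * ‖u x0‖ ^ 2 ≤ (hh (Γ x0) (star (u x0)) (star (u x0))).re := by
    refine le_of_tendsto_of_tendsto (b := 𝓝[{x : X3 | x 0 ≠ 0 ∧ x 1 ≠ 0}] x0)
      (cn.tendsto.mono_left nhdsWithin_le_nhds) (cq.tendsto.mono_left nhdsWithin_le_nhds) ?_
    refine eventually_nhdsWithin_iff.2 ?_
    filter_upwards [hG, hlow, ev_Om hx, cd.eventually_ne (det_ne hx)] with x a b o d n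
    have hi : Function.Injective (TL j x) := by
      refine (injective_iff_map_eq_zero _).2 fun l hl => ?_
      by_contra hn
      have hp := G_pos intSt h0 h1 (inj o n.1 n.2) hn
      have := a n.1 n.2 l
      rw [show gg j x *ᵥ Srow (cfg j x) l = 0 from hl] at this
      simp [hh] at this
      exact hp.ne' (by exact_mod_cast this.symm)
    have hk : Lm j x *ᵥ u x = 0 := by
      simp only [hu]
      rw [mulVec_sub, mulVec_mulVec, mulVec_mulVec,
        mul_nonsing_inv _ (isUnit_iff_ne_zero.2 d), one_mulVec, sub_self]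
    obtain ⟨l, hl⟩ := ker_sub o n.1 n.2 hi hk
    have := a n.1 n.2 l
    show c * ‖u x‖ ^ 2 ≤ (hh (Γ x) (star (u x)) (star (u x))).re
    rw [← hl, this, Complex.ofReal_re]
    exact b n.1 n.2 l
  rw [u0] at hle
  exact lt_of_lt_of_le (mul_pos hc (pow_pos (norm_pos_iff.2 hne) 2)) hle

end

end Pool.Agent.Lib.MP_0c623d_al.BP.B.Pos

namespace Pool.Agent.Lib.MP_0c623d_al.BP.B

theorem uposSt : UPosSt := Pos.upos

end Pool.Agent.Lib.MP_0c623d_al.BP.B
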