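import Pool.Agent.Lib.MP_0c623d_al.B.X
import Pool.Agent.Lib.MP_0c623d_al.B.Reg2
import Pool.Agent.Lib.MP_0c623d_al.B.UPos
import Pool.Agent.Lib.MP_0c623d_al.B.Trans
import Pool.Agent.Lib.MP_0c623d_al.BP.WSk

set_option autoImplicit false

/-!
Every admissible centre has a chart function.
-/

namespace Pool.Agent.Lib.MP_0c623d_al.BP.B

theorem chartSt : ChartSt := chart_of wSt (xSt regSt uposSt)

end Pool.Agent.Lib.MP_0c623d_al.BP.B
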