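import Pool.Agent.Lib.MP_0c623d_al.B.Gauge
import Pool.Agent.Lib.MP_0c623d_al.BP.Flat
import Pool.Agent.Lib.MP_0c623d_al.E.Red

set_option autoImplicit false

/-!
The sheared Gram matrix is bounded near every point of the chart; the square norm of the period
vector is bounded near every configuration without triple collision.
-/

namespace Pool.Agent.Lib.MP_0c623d_al.BP.B

open Matrix Filter Topology Function Set Metric
open scoped Matrix.Norms.Operator

noncomputable section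

namespace Bd

/-- the sheared Gram matrix -/
def Hh (j : ℕ) (Hk : Cf → M6) (x : X3) : M6 := gg j x * Hk (cfg j x) * (gg j x)ᴴ

theorem cfg_inj {j : ℕ} {x : X3} (hx : x ∈ Om j) (h0 : x 0 ≠ 0) (h1 : x 1 ≠ 0) :
    Injective (cfg j x) := by
  obtain ⟨a1, a2, a3, a4⟩ := hx
  have p0 := pow_ne_zero (2 * j + 1) h0
  have p1 := pow_ne_zero (2 * j + 1) h1
  simp only [LL] at a1 a2 a3 a4
  intro p q h
  fin_cases p <;> fin_cases q <;> simp [cfg] at h ⊢ <;>
    first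
    | exact p0 (by linear_combination -h)
    | exact p0 (by linear_combination h)
    | exact p1 (by linear_combination -h / 1)
    | exact p1 (by linear_combination h)
    | exact a1 (by linear_combination h)
    | exact a1 (by linear_combination -h)
    | exact a2 (by linear_combination h)
    | exact a2 (by linear_combination -h)
    | exact a3 (by linear_combination h)
    | exact a3 (by linear_combination -h)
    | exact a4 (by linear_combination h)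
    | exact a4 (by linear_combination -h)

theorem cont_LL (j : ℕ) (s t : ℂ) : Continuous (LL j s t) := by
  unfold LL
  fun_prop

theorem open_Om (j : ℕ) : IsOpen (Om j) :=
  (isOpen_ne_fun (cont_LL j _ _) continuous_const).inter
    ((isOpen_ne_fun (cont_LL j _ _) continuous_const).inter
      ((isOpen_ne_fun (cont_LL j _ _) continuous_const).inter
        (isOpen_ne_fun (cont_LL j _ _) continuous_const)))

theorem cont_cfg (j : ℕ) : Continuous (cfg j) := by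
  refine continuous_pi fun i => ?_
  fin_cases i <;> simp [cfg] <;> fun_prop

theorem cont_gg (j : ℕ) : Continuous (gg j) := by
  unfold gg
  refine Continuous.matrix_mul (Continuous.matrix_diagonal ?_) continuous_const
  unfold sh
  fun_prop

theorem cont_wr (j : ℕ) : Continuous (wr j) := by
  refine continuous_pi fun i => ?_
  fin_cases i <;> simp [wr] <;> fun_prop

theorem cont_TT {j : ℕ} {x : X3} (hx : x ∈ Om j) (a b : Fin 2) :
    ContinuousAt (fun y => TT j y a b) x := by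
  obtain ⟨a1, a2, a3, a4⟩ := hx
  have c1 := ((cont_LL j 1 1).continuousAt (x := x)).inv₀ a1
  have c2 := ((cont_LL j 1 (-1)).continuousAt (x := x)).inv₀ a2
  have c3 := ((cont_LL j (-1) 1).continuousAt (x := x)).inv₀ a3
  have c4 := ((cont_LL j (-1) (-1)).continuousAt (x := x)).inv₀ a4
  fin_cases a <;> fin_cases b
  · exact ((c1.add c2).add c3).add c4
  · exact (c1.mul c2).neg.sub (c3.mul c4)
  · exact (c1.mul c3).add (c2.mul c4)
  · exact (continuousAt_const.mul (continuous_apply 2).continuousAt).mul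
      (((c1.mul c2).mul c3).mul c4)

theorem cont_Am {j : ℕ} (e : ℝ) {p : X3 × X3} (hx : p.1 ∈ Om j) :
    ContinuousAt (fun q : X3 × X3 => Am j e q.1 q.2) p := by
  have hT := fun a b => cont_TT hx a b
  have h0 : ContinuousAt (A0 j e) p.1 := by
    refine continuousAt_pi.2 fun r => continuousAt_pi.2 fun s => ?_
    simp only [A0, of_apply]
    refine ContinuousAt.add (ContinuousAt.mul (by fun_prop) (hT _ _)) ?_
    split_ifs
    · exact (continuous_const.mul ((continuous_apply 0).pow _)).continuousAt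
    · exact continuousAt_const
  have h1 : ContinuousAt (A1 j e) p.1 := by
    refine continuousAt_pi.2 fun r => continuousAt_pi.2 fun s => ?_
    simp only [A1, of_apply]
    refine ContinuousAt.add (ContinuousAt.mul (by fun_prop) (hT _ _)) ?_
    split_ifs
    · exact (continuous_const.mul ((continuous_apply 1).pow _)).continuousAt
    · exact continuousAt_const
  have h2 : ContinuousAt (A2 j e) p.1 := by
    refine continuousAt_pi.2 fun r => continuousAt_pi.2 fun s => ?_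
    simp only [A2, of_apply]
    exact ContinuousAt.mul (by fun_prop) (hT _ _)
  unfold Am
  exact (((by fun_prop : ContinuousAt (fun q : X3 × X3 => q.2 0) p).smul
    (h0.comp continuousAt_fst)).add
    ((by fun_prop : ContinuousAt (fun q : X3 × X3 => q.2 1) p).smul
      (h1.comp continuousAt_fst))).add
    ((by fun_prop : ContinuousAt (fun q : X3 × X3 => q.2 2) p).smul (h2.comp continuousAt_fst))

theorem line_coord (x v : X3) (i : Fin 3) (t : ℝ) :
    HasDerivAt (fun s : ℝ => (x + (s : ℂ) • v) i) (v i) t := by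
  simpa using ((Complex.ofRealCLM.hasDerivAt (x := t)).mul_const (v i)).const_add (x i)

theorem line_cfg (j : ℕ) (x v : X3) (t : ℝ) :
    HasDerivAt (fun s : ℝ => cfg j (x + (s : ℂ) • v)) (dcfg j (x + (t : ℂ) • v) v) t := by
  have h0 := ((line_coord x v 0 t).fun_pow (2 * j + 1)).div_const 2
  have h1 := ((line_coord x v 1 t).fun_pow (2 * j + 1)).div_const 2
  have h2 := line_coord x v 2 t
  simp only [Nat.add_sub_cancel, Nat.cast_add, Nat.cast_mul, Nat.cast_ofNat, Nat.cast_one] at h0 h1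
  refine hasDerivAt_pi.2 fun i => ?_
  fin_cases i
  · exact h0.neg
  · exact h0
  · exact h2.sub h1
  · exact h2.add h1

theorem line_sh (j : ℕ) (x v : X3) (t : ℝ) (h0 : (x + (t : ℂ) • v) 0 ≠ 0)
    (h1 : (x + (t : ℂ) • v) 1 ≠ 0) (p : Fin 6) :
    HasDerivAt (fun s : ℝ => sh j (x + (s : ℂ) • v) p)
      (sh j (x + (t : ℂ) • v) p * lsh j (x + (t : ℂ) • v) v p) t := by
  have a := ((line_coord x v 0 t).fun_pow (K1 j p)).mul ((line_coord x v 1 t).fun_pow (K2 j p))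
  refine a.congr_deriv ?_
  have pw : ∀ (u : ℂ) (n : ℕ), u ≠ 0 → (n : ℂ) * u ^ (n - 1) = n * u ^ n / u := by
    intro u n hu
    cases n with
    | zero => simp
    | succ n => simp only [Nat.add_sub_cancel, pow_succ]; field_simp
  rw [pw _ _ h0, pw _ _ h1]
  simp only [sh, lsh]
  generalize (x + (t : ℂ) • v) 0 = u0 at *
  generalize (x + (t : ℂ) • v) 1 = u1 at *
  field_simp

theorem line_gg (j : ℕ) (x v : X3) (t : ℝ) (h0 : (x + (t : ℂ) • v) 0 ≠ 0)
    (h1 : (x + (t : ℂ) • v) 1 ≠ 0) :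
    HasDerivAt (fun s : ℝ => gg j (x + (s : ℂ) • v))
      (diagonal (fun p => sh j (x + (t : ℂ) • v) p * lsh j (x + (t : ℂ) • v) v p) * Tm) t := by
  unfold gg
  refine HasDerivAt.mul_const ?_ _
  let L : (Fin 6 → ℂ) →L[ℝ] M6 := LinearMap.toContinuousLinearMap (diagonalLinearMap (Fin 6) ℝ ℂ)
  exact L.hasFDerivAt.comp_hasDerivAt t (hasDerivAt_pi.2 fun p => line_sh j x v t h0 h1 p)

variable {e : ℝ} {Hk Hi : Cf → M6}

theorem line_Hh {j : ℕ} (hj : 1 ≤ j) (he : (4 * j + 2) * e = 1) (g : Gr e Hk Hi) (x v : X3) (t : ℝ)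
    (hx : x + (t : ℂ) • v ∈ Om j) (h0 : (x + (t : ℂ) • v) 0 ≠ 0) (h1 : (x + (t : ℂ) • v) 1 ≠ 0) :
    HasDerivAt (fun s : ℝ => Hh j Hk (x + (s : ℂ) • v))
      (Am j e (x + (t : ℂ) • v) v * Hh j Hk (x + (t : ℂ) • v) +
        Hh j Hk (x + (t : ℂ) • v) * (Am j e (x + (t : ℂ) • v) v)ᴴ) t := by
  obtain ⟨D, hD, hD'⟩ := g.der _ (cfg_inj hx h0 h1)
  have a := line_gg j x v t h0 h1
  have b := (hD.comp_hasDerivAt t (line_cfg j x v t)).congr_deriv (hD' _)
  let L : M6 →L[ℝ] M6 := LinearMap.toContinuousLinearMap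
    { toFun := conjTranspose
      map_add' := conjTranspose_add
      map_smul' := fun c X => by ext p q; simp }
  have a' : HasDerivAt (fun s : ℝ => (gg j (x + (s : ℂ) • v))ᴴ) (_ : M6)ᴴ t :=
    L.hasFDerivAt.comp_hasDerivAt t a
  have c := (a.mul b).mul a'
  refine c.congr_deriv ?_
  have hg := gauge hj he hx h0 h1 v
  have hg' := congrArg conjTranspose hg
  rw [conjTranspose_mul, conjTranspose_add, conjTranspose_mul (gg j _)] at hg'
  simp only [Hh, Function.comp_apply, Pi.mul_apply]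
  rw [← mul_assoc, ← mul_assoc, hg, mul_assoc _ (gg j _)ᴴ, hg']
  noncomm_ring

theorem cont_Hh {j : ℕ} (g : Gr e Hk Hi) {x : X3} (hx : x ∈ Om j) (h0 : x 0 ≠ 0) (h1 : x 1 ≠ 0) :
    ContinuousAt (Hh j Hk) x := by
  obtain ⟨D, hD, -⟩ := g.der _ (cfg_inj hx h0 h1)
  exact ((cont_gg j).continuousAt.mul (hD.continuousAt.comp (cont_cfg j).continuousAt)).mul
    (cont_gg j).matrix_conjTranspose.continuousAt

/-- the sheared Gram matrix is bounded near every point of the chart -/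
theorem Hh_bdd {j : ℕ} (hj : 1 ≤ j) (he : (4 * j + 2) * e = 1) (g : Gr e Hk Hi) {x0 : X3}
    (hx : x0 ∈ Om j) : ∃ C, ∀ᶠ x in 𝓝 x0, x 0 ≠ 0 → x 1 ≠ 0 → ‖Hh j Hk x‖ ≤ C := by
  obtain ⟨r2, hr2, hb⟩ := nhds_basis_closedBall.mem_iff.1 ((open_Om j).mem_nhds hx)
  set r := r2 / 2 with hr
  have r0 : 0 < r := by positivity
  obtain ⟨K, hK⟩ := ((isCompact_closedBall x0 r2).prod
    (isCompact_closedBall (0 : X3) r)).exists_bound_of_continuousOn
    (f := fun q : X3 × X3 => ‖Am j e q.1 q.2‖ + ‖(Am j e q.1 q.2)ᴴ‖) fun q hq =>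
      ((cont_Am e (hb hq.1)).norm.add
        (continuous_star.continuousAt.comp (cont_Am e (hb hq.1))).norm).continuousWithinAt
  have hc : IsCompact (closedBall x0 r2 ∩ ({x : X3 | r ≤ ‖x 0‖} ∩ {x : X3 | r ≤ ‖x 1‖})) :=
    (isCompact_closedBall x0 r2).inter_right
      ((isClosed_le continuous_const (by fun_prop)).inter
        (isClosed_le continuous_const (by fun_prop)))
  obtain ⟨d, hd⟩ := hc.exists_bound_of_continuousOn (f := Hh j Hk) fun x hx =>
    (cont_Hh g (hb hx.1) (norm_pos_iff.1 (r0.trans_le hx.2.1))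
      (norm_pos_iff.1 (r0.trans_le hx.2.2))).continuousWithinAt
  refine ⟨(|d| + 0) * Real.exp |K|, ?_⟩
  filter_upwards [closedBall_mem_nhds x0 r0] with x hxr h0 h1
  let v : X3 := ![((r / ‖x 0‖ : ℝ) : ℂ) * x 0, ((r / ‖x 1‖ : ℝ) : ℂ) * x 1, 0]
  have n0 := norm_pos_iff.2 h0
  have n1 := norm_pos_iff.2 h1
  have hv : ‖v‖ ≤ r := by
    refine (pi_norm_le_iff_of_nonneg r0.le).2 fun i => ?_
    fin_cases i
    · simp [v, abs_of_pos r0, h0]
    · simp [v, abs_of_pos r0, h1]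
    · simp [v, r0.le]
  have hy : ∀ s : ℝ, x + v + (s : ℂ) • (-v) = x + ((1 - s : ℝ) : ℂ) • v := fun s => by
    rw [Complex.ofReal_sub, Complex.ofReal_one, sub_smul, one_smul, smul_neg]
    abel
  have hn : ∀ (u : ℂ) (s : ℝ), u ≠ 0 → 0 ≤ s →
      ‖u + (s : ℂ) * (((r / ‖u‖ : ℝ) : ℂ) * u)‖ = ‖u‖ + s * r := fun u s hu hs => by
    have nu := norm_pos_iff.2 hu
    have : u + (s : ℂ) * (((r / ‖u‖ : ℝ) : ℂ) * u) = ((1 + s * (r / ‖u‖) : ℝ) : ℂ) * u := by
      push_cast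
      ring
    rw [this, norm_mul, Complex.norm_real, Real.norm_eq_abs, abs_of_pos (by positivity)]
    field_simp
  have hm : ∀ s ∈ Icc (0 : ℝ) 1, x + v + (s : ℂ) • (-v) ∈ closedBall x0 r2 ∧
      ‖(x + v + (s : ℂ) • (-v)) 0‖ = ‖x 0‖ + (1 - s) * r ∧
      ‖(x + v + (s : ℂ) • (-v)) 1‖ = ‖x 1‖ + (1 - s) * r := fun s hs => by
    have s1 : 0 ≤ 1 - s := by linarith [hs.2]
    rw [hy]
    refine ⟨?_, hn _ _ h0 s1, hn _ _ h1 s1⟩
    rw [mem_closedBall, dist_eq_norm] at hxr ⊢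
    have : ‖((1 - s : ℝ) : ℂ) • v‖ ≤ r := by
      rw [norm_smul, Complex.norm_real, Real.norm_eq_abs, abs_of_nonneg s1]
      nlinarith [norm_nonneg v, hs.1]
    calc _ = ‖(x - x0) + ((1 - s : ℝ) : ℂ) • v‖ := by congr 1; abel
      _ ≤ r + r := (norm_add_le _ _).trans (add_le_add hxr this)
      _ = r2 := by rw [hr]; ring
  have hne : ∀ s ∈ Icc (0 : ℝ) 1, (x + v + (s : ℂ) • (-v)) 0 ≠ 0 ∧
      (x + v + (s : ℂ) • (-v)) 1 ≠ 0 := fun s hs => by
    have s1 : 0 ≤ (1 - s) * r := mul_nonneg (by linarith [hs.2]) r0.le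
    exact ⟨norm_pos_iff.1 (by rw [(hm s hs).2.1]; linarith),
      norm_pos_iff.1 (by rw [(hm s hs).2.2]; linarith)⟩
  have key := gron (abs_nonneg K) (abs_nonneg d) le_rfl
    (fun s hs => line_Hh hj he g (x + v) (-v) s (hb (hm s hs).1) (hne s hs).1 (hne s hs).2)
    (((hd _ ⟨(hm 0 ⟨le_rfl, zero_le_one⟩).1, ?_, ?_⟩)).trans (le_abs_self d)) (fun s hs => ?_)
    1 ⟨zero_le_one, le_rfl⟩
  · simpa using key
  · show r ≤ _
    rw [(hm 0 ⟨le_rfl, zero_le_one⟩).2.1]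
    linarith
  · show r ≤ _
    rw [(hm 0 ⟨le_rfl, zero_le_one⟩).2.2]
    linarith
  · have h := hK (x + v + (s : ℂ) • (-v), -v) ⟨(hm s hs).1, by simpa using hv⟩
    have h' := (le_abs_self _).trans (h.trans (le_abs_self K))
    refine (norm_add_le _ _).trans ((add_le_add (norm_mul_le _ _) (norm_mul_le _ _)).trans ?_)
    dsimp only at h'
    nlinarith [norm_nonneg (Hh j Hk (x + v + (s : ℂ) • (-v)))]

theorem qf_gg (Y X : M6) (x y : Fin 6 → ℂ) : qf (Y * X * Yᴴ) x y = qf X (x ᵥ* Y) (y ᵥ* Y) := by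
  simp only [qf, star_vecMul, ← mulVec_mulVec, dotProduct_mulVec x Y]

theorem qf_le (X : M6) (x y : Fin 6 → ℂ) : ‖qf X x y‖ ≤ 6 * (‖x‖ * (‖X‖ * ‖y‖)) := by
  have h : ‖X *ᵥ star y‖ ≤ ‖X‖ * ‖y‖ := by simpa using linfty_opNorm_mulVec X (star y)
  unfold qf dotProduct
  refine (norm_sum_le _ _).trans ((Finset.sum_le_sum (s := Finset.univ)
    (g := fun _ : Fin 6 => ‖x‖ * (‖X‖ * ‖y‖)) fun i _ => ?_).trans (by simp))
  rw [norm_mul]
  exact mul_le_mul (norm_le_pi_norm x i) ((norm_le_pi_norm _ i).trans h) (norm_nonneg _)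
    (norm_nonneg _)

theorem phi_loc {j : ℕ} (hj : 1 ≤ j) (he : (4 * j + 2) * e = 1) (g : Gr e Hk Hi) {x0 : X3}
    (hx : x0 ∈ Om j) : ∃ C, ∀ᶠ x in 𝓝 x0, x 0 ≠ 0 → x 1 ≠ 0 →
      ‖qf (Hk (cfg j x)) (cw (cfg j x)) (cw (cfg j x))‖ ≤ C := by
  obtain ⟨C, hC⟩ := Hh_bdd hj he g hx
  refine ⟨6 * ((‖wr j x0‖ + 1) * (C * (‖wr j x0‖ + 1))), ?_⟩
  filter_upwards [hC, (cont_wr j).norm.continuousAt.eventually_lt continuousAt_const
    (lt_add_one ‖wr j x0‖)] with x h hw h0 h1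
  rw [← wr_gg, ← qf_gg]
  refine (qf_le _ _ _).trans ?_
  have := h h0 h1
  have hC0 := (norm_nonneg _).trans this
  unfold Hh at this
  gcongr

theorem phi_cpt {j : ℕ} (hj : 1 ≤ j) (he : (4 * j + 2) * e = 1) (g : Gr e Hk Hi) {K : Set X3}
    (hK : IsCompact K) (hs : K ⊆ Om j) : ∃ C, ∀ x ∈ K, x 0 ≠ 0 → x 1 ≠ 0 →
      ‖qf (Hk (cfg j x)) (cw (cfg j x)) (cw (cfg j x))‖ ≤ C := by
  refine hK.induction_on (p := fun S => ∃ C, ∀ x ∈ S, x 0 ≠ 0 → x 1 ≠ 0 →
      ‖qf (Hk (cfg j x)) (cw (cfg j x)) (cw (cfg j x))‖ ≤ C) ⟨0, by simp⟩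
    (fun _ _ h ⟨C, hC⟩ => ⟨C, fun x hx => hC x (h hx)⟩)
    (fun _ _ ⟨C, hC⟩ ⟨D, hD⟩ => ⟨max C D, fun x hx h0 h1 => hx.elim
      (fun h => (hC x h h0 h1).trans (le_max_left _ _))
      (fun h => (hD x h h0 h1).trans (le_max_right _ _))⟩) fun x hx => ?_
  obtain ⟨C, hC⟩ := phi_loc hj he g (hs hx)
  exact ⟨_, nhdsWithin_le_nhds hC, C, fun x hx => hx⟩

theorem exists_perm {a : Cf}
    (h : ∀ i j l : Fin 4, i ≠ j → j ≠ l → i ≠ l → ¬ (a i = a j ∧ a j = a l)) :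
    ∃ σ : Equiv.Perm (Fin 4), a (σ 3) ≠ a (σ 1) ∧ a (σ 2) ≠ a (σ 1) ∧ a (σ 3) ≠ a (σ 0) ∧
      a (σ 2) ≠ a (σ 0) := by
  have h012 := h 0 1 2 (by decide) (by decide) (by decide)
  have h013 := h 0 1 3 (by decide) (by decide) (by decide)
  have h023 := h 0 2 3 (by decide) (by decide) (by decide)
  have h123 := h 1 2 3 (by decide) (by decide) (by decide)
  by_cases c1 : a 3 ≠ a 1 ∧ a 2 ≠ a 1 ∧ a 3 ≠ a 0 ∧ a 2 ≠ a 0
  · exact ⟨1, c1⟩
  by_cases c2 : a 3 ≠ a 2 ∧ a 1 ≠ a 2 ∧ a 3 ≠ a 0 ∧ a 1 ≠ a 0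
  · exact ⟨Equiv.swap 1 2, c2⟩
  refine ⟨Equiv.swap 1 3, ?_⟩
  show a 1 ≠ a 3 ∧ a 2 ≠ a 3 ∧ a 1 ≠ a 0 ∧ a 2 ≠ a 0
  grind

end Bd

open Bd

/-- the square norm of the period vector is bounded near a configuration without triple
collision -/
theorem bdd {j : ℕ} (hj : 1 ≤ j) {e : ℝ} (he : (4 * j + 2) * e = 1) {Hk Hi : Cf → M6}
    (g : Gr e Hk Hi) {a0 : Cf}
    (h : ∀ i j l : Fin 4, i ≠ j → j ≠ l → i ≠ l → ¬ (a0 i = a0 j ∧ a0 j = a0 l)) :
    ∃ C, ∀ᶠ a in 𝓝 a0, Injective a → ‖qf (Hk a) (cw a) (cw a)‖ ≤ C := by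
  obtain ⟨σ, s1, s2, s3, s4⟩ := exists_perm h
  obtain ⟨δ, hδ, d1, d2, d3, d4⟩ : ∃ δ : ℝ, 0 < δ ∧ δ < ‖a0 (σ 3) - a0 (σ 1)‖ ∧
      δ < ‖a0 (σ 2) - a0 (σ 1)‖ ∧ δ < ‖a0 (σ 3) - a0 (σ 0)‖ ∧ δ < ‖a0 (σ 2) - a0 (σ 0)‖ := by
    have e : ∀ {u w : ℂ}, u ≠ w → ∀ᶠ δ in 𝓝[>] (0 : ℝ), δ < ‖u - w‖ := fun hu =>
      nhdsWithin_le_nhds (Iio_mem_nhds (norm_pos_iff.2 (sub_ne_zero.2 hu)))
    exact ((eventually_mem_nhdsWithin (s := Ioi (0 : ℝ))).and
      ((e s1).and ((e s2).and ((e s3).and (e s4))))).exists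
  set R := 2 * (‖a0‖ + 1) with hR
  have R1 : 1 ≤ R := by have := norm_nonneg a0; linarith
  have cl : ∀ s t : ℂ, IsClosed {x : X3 | δ ≤ ‖LL j s t x‖} := fun s t =>
    isClosed_le continuous_const (cont_LL j s t).norm
  obtain ⟨C, hC⟩ := phi_cpt hj he g ((isCompact_closedBall (0 : X3) R).inter_right
    ((cl 1 1).inter ((cl 1 (-1)).inter ((cl (-1) 1).inter (cl (-1) (-1)))))) fun x hx =>
      ⟨norm_pos_iff.1 (hδ.trans_le hx.2.1), norm_pos_iff.1 (hδ.trans_le hx.2.2.1),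
        norm_pos_iff.1 (hδ.trans_le hx.2.2.2.1), norm_pos_iff.1 (hδ.trans_le hx.2.2.2.2)⟩
  have e : ∀ p q : Fin 4, δ < ‖a0 p - a0 q‖ → ∀ᶠ a in 𝓝 a0, δ < ‖(a : Cf) p - a q‖ :=
    fun p q hpq => continuousAt_const.eventually_lt
      (by fun_prop : ContinuousAt (fun a : Cf => ‖a p - a q‖) a0) hpq
  refine ⟨C, ?_⟩
  filter_upwards [e _ _ d1, e _ _ d2, e _ _ d3, e _ _ d4,
    continuous_norm.continuousAt.eventually_lt continuousAt_const (lt_add_one ‖a0‖)]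
    with a e1 e2 e3 e4 hn ha
  obtain ⟨u, hu⟩ := IsAlgClosed.exists_pow_nat_eq (a (σ 1) - a (σ 0)) (Nat.succ_pos (2 * j))
  obtain ⟨w, hw⟩ := IsAlgClosed.exists_pow_nat_eq (a (σ 3) - a (σ 2)) (Nat.succ_pos (2 * j))
  have hb : ∀ p, ‖a p‖ ≤ ‖a0‖ + 1 := fun p => (norm_le_pi_norm a p).trans hn.le
  have hs : ∀ p q, ‖a p - a q‖ ≤ R := fun p q =>
    (norm_sub_le _ _).trans (by linarith [hb p, hb q])
  have rt : ∀ {z : ℂ} {p q : Fin 4}, z ^ (2 * j + 1) = a p - a q → ‖z‖ ≤ R := by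
    intro z p q hz
    by_contra hc
    have hc := not_le.1 hc
    have := le_self_pow₀ (R1.trans hc.le) (Nat.succ_ne_zero (2 * j))
    rw [← norm_pow, hz] at this
    linarith [hs p q]
  change u ^ (2 * j + 1) = _ at hu
  change w ^ (2 * j + 1) = _ at hw
  let x : X3 := ![u, w, ((a (σ 2) - a (σ 0)) + (a (σ 3) - a (σ 1))) / 2]
  have hx : a ∘ σ = fun i => 1 * cfg j x i + (a (σ 0) + a (σ 1)) / 2 := by
    funext i
    fin_cases i <;> simp [cfg, x, hu, hw] <;> ring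
  have hq := (Red.qf_norm g ha one_ne_zero hx).2 hx hx
  have u0 : u ≠ 0 := fun h0 => by
    rw [h0, zero_pow (Nat.succ_ne_zero _), eq_comm, sub_eq_zero] at hu
    exact absurd (σ.injective (ha hu)) (by decide)
  have w0 : w ≠ 0 := fun h0 => by
    rw [h0, zero_pow (Nat.succ_ne_zero _), eq_comm, sub_eq_zero] at hw
    exact absurd (σ.injective (ha hw)) (by decide)
  have key := hC x ⟨?_, ?_, ?_, ?_, ?_⟩ u0 w0
  · rw [Red.cw_eq, hq, ← Red.cw_eq]
    simpa using key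
  · rw [mem_closedBall_zero_iff]
    refine (pi_norm_le_iff_of_nonneg (by linarith)).2 fun i => ?_
    fin_cases i
    · exact rt hu
    · exact rt hw
    · show ‖((a (σ 2) - a (σ 0)) + (a (σ 3) - a (σ 1))) / 2‖ ≤ R
      rw [norm_div, Complex.norm_two]
      linarith [norm_add_le (a (σ 2) - a (σ 0)) (a (σ 3) - a (σ 1)), hs (σ 2) (σ 0),
        hs (σ 3) (σ 1)]
  · refine e1.le.trans (le_of_eq (congrArg norm ?_))
    simp [LL, x, hu, hw]
    ring
  · refine e2.le.trans (le_of_eq (congrArg norm ?_))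
    simp [LL, x, hu, hw]
    ring
  · refine e3.le.trans (le_of_eq (congrArg norm ?_))
    simp [LL, x, hu, hw]
    ring
  · refine e4.le.trans (le_of_eq (congrArg norm ?_))
    simp [LL, x, hu, hw]
    ring

end

end Pool.Agent.Lib.MP_0c623d_al.BP.B
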