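import Pool.Agent.Lib.MP_0c623d_al.B.Defs
import Pool.Agent.Lib.MP_0c623d_al.F.Rot
import Pool.Agent.Lib.MP_0c623d_al.F.Ord

set_option autoImplicit false

/-!
The change of coordinates from the charts of block F to the chart `(u₁, u₂, c)`.
-/

namespace Pool.Agent.Lib.MP_0c623d_al.BP.B

open Complex Filter Topology Set
open Pool.Agent.BP.F (E3 Adm pw Sect)

namespace Coord

theorem ex_root {k : ℕ} (hk : k ≠ 0) {f : E3 → ℂ} {d : E3} (hf : AnalyticAt ℂ f d) (h0 : f d ≠ 0) :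
    ∃ g : E3 → ℂ, AnalyticAt ℂ g d ∧ ∀ᶠ z in 𝓝 d, g z ^ k = f z := by
  refine ⟨fun z => exp ((log (f z / f d) + log (f d)) / k), ?_, ?_⟩
  · exact ((((hf.div_const (c := f d)).clog (by simp [h0])).add analyticAt_const).div_const
      (c := (k : ℂ))).cexp
  · filter_upwards [hf.continuousAt.eventually_ne h0] with z hz
    rw [← exp_nat_mul, mul_div_cancel₀ _ (Nat.cast_ne_zero.2 hk), exp_add,
      exp_log (div_ne_zero hz h0), exp_log h0, div_mul_cancel₀ _ h0]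

theorem an_ap (p : Fin 3) (d : E3) : AnalyticAt ℂ (fun z : E3 => z p) d :=
  (ContinuousLinearMap.proj (R := ℂ) (φ := fun _ : Fin 3 => ℂ) p).analyticAt d

theorem ex_rt {k : ℕ} (hk : k ≠ 0) (d : E3) (p : Fin 3) : ∃ g : E3 → ℂ, AnalyticAt ℂ g d ∧
    ∀ᶠ z in 𝓝 d, g z ^ k = pw k d z p ∧ (if d p = 0 then g z else g z ^ k) = z p := by
  by_cases h : d p = 0
  · exact ⟨fun z => z p, an_ap p d, Eventually.of_forall fun z => by simp [pw, h]⟩
  · obtain ⟨g, a, b⟩ := ex_root hk (an_ap p d) h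
    exact ⟨g, a, b.mono fun z e => by simp [pw, h, e]⟩

theorem bij {ph ψ : E3 → E3} {d : E3} (h1 : AnalyticAt ℂ ph d) (h2 : Differentiable ℂ ψ)
    (h : ∀ᶠ z in 𝓝 d, ψ (ph z) = z) : Function.Bijective (fderiv ℂ ph d) := by
  have e := ((h2 (ph d)).hasFDerivAt.comp d h1.differentiableAt.hasFDerivAt).unique
    ((hasFDerivAt_id d).congr_of_eventuallyEq h)
  have i : Function.Injective (fderiv ℂ ph d) :=
    Function.LeftInverse.injective (g := fderiv ℂ ψ (ph d)) fun v => DFunLike.congr_fun e v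
  exact ⟨i, (LinearMap.injective_iff_surjective (f := (fderiv ℂ ph d).toLinearMap)).1 i⟩

theorem mem_om {j : ℕ} {x : X3} {a : Cf} {t : ℂ} (h : a = fun i => cfg j x i + t)
    (h1 : a 3 - a 1 ≠ 0) (h2 : a 2 - a 1 ≠ 0) (h3 : a 3 - a 0 ≠ 0) (h4 : a 2 - a 0 ≠ 0) :
    x ∈ Om j := by
  subst h
  refine ⟨fun e => h1 ?_, fun e => h2 ?_, fun e => h3 ?_, fun e => h4 ?_⟩ <;>
    simp only [LL] at e <;> simp [cfg] <;> linear_combination e

theorem ball_diff {s : Set ℂ} (hs : s.Countable) (c : ℂ) {r : ℝ} (hr : 0 < r) :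
    IsPreconnected (Metric.ball c r \ s) := by
  let e : OpenPartialHomeomorph ℂ ℂ := OpenPartialHomeomorph.univBall c r
  have h1 : e.source = univ := OpenPartialHomeomorph.univBall_source c r
  have h2 : e.target = Metric.ball c r := OpenPartialHomeomorph.univBall_target c hr
  have h3 : (e ⁻¹' s).Countable :=
    hs.preimage_of_injOn (e.injOn.mono (by rw [h1]; exact subset_univ _))
  have h4 : Metric.ball c r \ s = e '' (e ⁻¹' s)ᶜ := by
    ext u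
    refine ⟨fun h => ⟨e.symm u, ?_, e.right_inv (h2 ▸ h.1)⟩, ?_⟩
    · rw [mem_compl_iff, mem_preimage, e.right_inv (h2 ▸ h.1)]
      exact h.2
    · rintro ⟨v, h, rfl⟩
      exact ⟨h2 ▸ e.map_source (h1 ▸ mem_univ v), h⟩
  rw [h4]
  exact (h3.isConnected_compl_of_one_lt_rank (by simp)).isPreconnected.image _
    (e.continuousOn.mono (by rw [h1]; exact subset_univ _))

end Coord

open Coord in
theorem coord {j : ℕ} (_hj : 1 ≤ j) {d0 : E3} (hd : Adm d0) :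
    ∃ (s : Equiv.Perm (Fin 4)) (ph : E3 → X3) (t : E3 → ℂ), AnalyticAt ℂ ph d0 ∧
      AnalyticAt ℂ t d0 ∧ Function.Bijective (fderiv ℂ ph d0) ∧ ph d0 ∈ Om j ∧
      ∀ᶠ z in 𝓝 d0, Pool.Agent.BP.F.cfg (pw (2 * j + 1) d0 z) ∘ s =
        fun i => cfg j (ph z) i + t z := by
  have hk : 2 * j + 1 ≠ 0 := by omega
  have a : d0 0 + d0 1 ≠ 0 := fun e => hd.2.1 (Pool.Agent.BP.F.lex_add_eq (hd.1 0) (hd.1 1) e)
  have b : d0 1 + d0 2 ≠ 0 := fun e => hd.2.2 (Pool.Agent.BP.F.lex_add_eq (hd.1 1) (hd.1 2) e)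
  have c : d0 0 + d0 1 + d0 2 ≠ 0 := fun e => a (Pool.Agent.BP.F.lex_add_eq
    (Pool.Agent.BP.F.lex_add (hd.1 0) (hd.1 1)) (hd.1 2) e).1
  have w : ∀ p, AnalyticAt ℂ (fun z => pw (2 * j + 1) d0 z p) d0 :=
    analyticAt_pi_iff.1 (Pool.Agent.BP.F.analytic_pw d0 d0)
  have ps := Pool.Agent.BP.F.pw_self hk d0
  by_cases h1 : d0 1 = 0
  · have h0 : d0 0 ≠ 0 := fun e => hd.2.1 ⟨e, h1⟩
    have h2 : d0 2 ≠ 0 := fun e => hd.2.2 ⟨h1, e⟩
    obtain ⟨g, g1, g2⟩ := ex_root hk (((an_ap 0 d0).add ((an_ap 1 d0).pow (2 * j + 1))).add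
      (an_ap 2 d0)) (by simpa [h1] using c)
    have p1 : AnalyticAt ℂ (fun z => (![z 1, g z, (z 2 - z 0) / 2] : X3)) d0 :=
      analyticAt_pi_iff.2 fun i => by
        fin_cases i
        exacts [an_ap 1 d0, g1, ((an_ap 2 d0).sub (an_ap 0 d0)).div_const]
    have ev : ∀ᶠ z in 𝓝 d0, Pool.Agent.BP.F.cfg (pw (2 * j + 1) d0 z) ∘
        (Equiv.swap 0 1 * Equiv.swap 1 2 : Equiv.Perm (Fin 4)) =
        fun i => cfg j ![z 1, g z, (z 2 - z 0) / 2] i + (z 0 + z 1 ^ (2 * j + 1) / 2) := by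
      filter_upwards [g2] with z e
      simp only [Pi.add_apply, Pi.pow_apply] at e
      funext i
      fin_cases i <;>
        simp [cfg, Pool.Agent.BP.F.cfg, pw, h0, h1, h2, e, Equiv.swap_apply_def] <;> ring
    refine ⟨_, _, _, p1, (an_ap 0 d0).add ((an_ap 1 d0).pow _).div_const, bij
      (ψ := fun x => ![(x 1 ^ (2 * j + 1) - x 0 ^ (2 * j + 1)) / 2 - x 2, x 0,
        (x 1 ^ (2 * j + 1) - x 0 ^ (2 * j + 1)) / 2 + x 2]) p1 ?_ ?_,
      mem_om ev.self_of_nhds ?_ ?_ ?_ ?_, ev⟩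
    · refine differentiable_pi.2 fun i => ?_
      fin_cases i <;> simp <;> fun_prop
    · filter_upwards [g2] with z e
      simp only [Pi.add_apply, Pi.pow_apply] at e
      funext i
      fin_cases i <;> simp [e] <;> ring
    all_goals simp [ps, Pool.Agent.BP.F.cfg, Equiv.swap_apply_def, h0, h1, h2]
  · obtain ⟨g, g1, g2⟩ := ex_rt hk d0 0
    obtain ⟨f, f1, f2⟩ := ex_rt hk d0 2
    have p1 : AnalyticAt ℂ (fun z => (![g z, f z,
        pw (2 * j + 1) d0 z 0 / 2 + z 1 + pw (2 * j + 1) d0 z 2 / 2] : X3)) d0 :=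
      analyticAt_pi_iff.2 fun i => by
        fin_cases i
        exacts [g1, f1, ((w 0).div_const.add (an_ap 1 d0)).add (w 2).div_const]
    have ev : ∀ᶠ z in 𝓝 d0, Pool.Agent.BP.F.cfg (pw (2 * j + 1) d0 z) ∘
        (1 : Equiv.Perm (Fin 4)) = fun i => cfg j ![g z, f z, pw (2 * j + 1) d0 z 0 / 2 + z 1 +
          pw (2 * j + 1) d0 z 2 / 2] i + pw (2 * j + 1) d0 z 0 / 2 := by
      filter_upwards [g2, f2] with z e e'
      have e1 : pw (2 * j + 1) d0 z 1 = z 1 := by simp [pw, h1]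
      funext i
      fin_cases i <;> simp [cfg, Pool.Agent.BP.F.cfg, e.1, e'.1, e1] <;> ring
    refine ⟨_, _, _, p1, (w 0).div_const, bij
      (ψ := fun x => ![if d0 0 = 0 then x 0 else x 0 ^ (2 * j + 1),
        x 2 - x 0 ^ (2 * j + 1) / 2 - x 1 ^ (2 * j + 1) / 2,
        if d0 2 = 0 then x 1 else x 1 ^ (2 * j + 1)]) p1 ?_ ?_,
      mem_om ev.self_of_nhds ?_ ?_ ?_ ?_, ev⟩
    · refine differentiable_pi.2 fun i => ?_
      fin_cases i <;> simp
      · split_ifs <;> fun_prop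
      · fun_prop
      · split_ifs <;> fun_prop
    · filter_upwards [g2, f2] with z e e'
      funext i
      fin_cases i
      · simpa using e.2
      · simp [e.1, e'.1]
        ring
      · simpa using e'.2
    all_goals simp [ps, Pool.Agent.BP.F.cfg, h1, a, b, add_assoc]
    rwa [← add_assoc]

theorem sect {j : ℕ} (_hj : 1 ≤ j) {d0 : E3} (hd : Adm d0) : ∀ᶠ z in 𝓝 d0,
    Sect (2 * j + 1) d0 z → Pool.Agent.BP.F.cfg (pw (2 * j + 1) d0 z) ∈ Pool.Agent.BP.F.Om :=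
  Pool.Agent.BP.F.om_ev (by omega) hd

theorem sect_open {k : ℕ} (hk : k ≠ 0) (d0 : E3) (r : ℝ) :
    IsOpen {z | z ∈ Metric.ball d0 r ∧ Sect k d0 z} :=
  Metric.isOpen_ball.inter (Pool.Agent.BP.F.isOpen_sect hk d0)

theorem sect_nonempty {k : ℕ} (hk : k ≠ 0) (d0 : E3) {r : ℝ} (hr : 0 < r) :
    {z | z ∈ Metric.ball d0 r ∧ Sect k d0 z}.Nonempty := by
  obtain ⟨ε, a, b⟩ := (((Pool.Agent.BP.F.ray_tendsto (k := k) d0).eventually
    (Metric.ball_mem_nhds d0 hr)).and self_mem_nhdsWithin).exists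
  exact ⟨_, a, Pool.Agent.BP.F.ray_sect hk d0 b⟩

theorem sect_preconn {k : ℕ} (hk : k ≠ 0) (d0 : E3) {r : ℝ} (hr : 0 < r) :
    IsPreconnected {z | z ∈ Metric.ball d0 r ∧ Sect k d0 z} := by
  have e : {z | z ∈ Metric.ball d0 r ∧ Sect k d0 z} = univ.pi fun p =>
      {u | u ∈ Metric.ball (d0 p) r ∧ (d0 p = 0 → u ≠ 0 ∧ |arg u| < Real.pi / k)} := by
    ext z
    simp only [ball_pi _ hr, Sect, mem_setOf_eq, Set.mem_pi, mem_univ, true_imp_iff, forall_and]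
  rw [e]
  refine isPreconnected_univ_pi fun p => ?_
  by_cases h : d0 p = 0
  · have : {u | u ∈ Metric.ball (d0 p) r ∧ (d0 p = 0 → u ≠ 0 ∧ |arg u| < Real.pi / k)} =
        (fun q : ℝ × ℝ => (q.1 : ℂ) * exp ((q.2 : ℂ) * I)) ''
          (Ioo 0 r ×ˢ Ioo (-(Real.pi / k)) (Real.pi / k)) := by
      ext u
      simp only [h, mem_setOf_eq, mem_ball_zero_iff, true_imp_iff]
      refine ⟨fun ⟨a, b, c⟩ => ⟨(‖u‖, arg u), ⟨⟨norm_pos_iff.2 b, a⟩, abs_lt.1 c⟩,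
        norm_mul_exp_arg_mul_I u⟩, ?_⟩
      rintro ⟨q, ⟨a, b⟩, rfl⟩
      refine ⟨?_, Pool.Agent.BP.F.ray_sec hk a.1 (abs_lt.2 b)⟩
      simpa [abs_of_pos a.1] using a.2
    rw [this]
    exact (isPreconnected_Ioo.prod isPreconnected_Ioo).image _ (by fun_prop)
  · simp only [h, false_imp_iff, and_true]
    exact (convex_ball (d0 p) r).isPreconnected

theorem punct_preconn (x0 : X3) (r : ℝ) :
    IsPreconnected {x : X3 | x ∈ Metric.ball x0 r ∧ x 0 ≠ 0 ∧ x 1 ≠ 0} := by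
  rcases le_or_gt r 0 with hr | hr
  · simp [Metric.ball_eq_empty.2 hr, isPreconnected_empty]
  have e : {x : X3 | x ∈ Metric.ball x0 r ∧ x 0 ≠ 0 ∧ x 1 ≠ 0} = univ.pi fun p =>
      Metric.ball (x0 p) r \ if p = 2 then ∅ else {0} := by
    ext z
    simp [ball_pi _ hr, Fin.forall_fin_succ]
    tauto
  rw [e]
  refine isPreconnected_univ_pi fun p => ?_
  exact Coord.ball_diff (by split_ifs <;> simp) _ hr

end Pool.Agent.Lib.MP_0c623d_al.BP.B
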