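import Pool.Agent.Lib.MP_0c623d_al.B.Res

set_option autoImplicit false

/-!
The gauge identity between the Pfaffian system and the regular system.
-/

namespace Pool.Agent.Lib.MP_0c623d_al.BP.B

open Matrix

noncomputable section

theorem al_eq {j : ℕ} {e : ℝ} (he : (4 * j + 2) * e = 1) : (2 * j + 1) * al e = -j := by
  have h : ((4 * j + 2 : ℂ)) * e = 1 := by exact_mod_cast he
  simp only [al]
  linear_combination (1 / 2) * h

theorem be_eq {j : ℕ} {e : ℝ} (he : (4 * j + 2) * e = 1) : (2 * j + 1) * be e = j - 1 := by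
  have h : ((4 * j + 2 : ℂ)) * e = 1 := by exact_mod_cast he
  simp only [be]
  linear_combination (-3 / 2) * h

/-- the logarithmic derivative of the shear -/
def lsh (j : ℕ) (x v : X3) : Fin 6 → ℂ := fun p => K1 j p * v 0 / x 0 + K2 j p * v 1 / x 1

/-- the connection in the unsheared frame -/
def Cm (j : ℕ) (e : ℝ) (x v : X3) : M6 := of fun p q =>
  (2 * j + 1) * v 0 / x 0 * R0 e p q + (2 * j + 1) * v 1 / x 1 * R5 e p q +
    gam e p q * (v 2 * SS j x (p1 p + p1 q) (p2 p + p2 q) -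
      (2 * j + 1) / 2 * x 0 ^ (2 * j) * v 0 * SS j x (p1 p + p1 q + 1) (p2 p + p2 q) +
      (2 * j + 1) / 2 * x 1 ^ (2 * j) * v 1 * SS j x (p1 p + p1 q) (p2 p + p2 q + 1))

theorem neg_pow_succ (a : Fin 2) : (-1 : ℂ) ^ ((a + 1 : Fin 2) : ℕ) = -(-1) ^ (a : ℕ) := by
  fin_cases a <;> simp

theorem Tm_conn {j : ℕ} (e : ℝ) {x : X3} (h0 : x 0 ≠ 0) (h1 : x 1 ≠ 0) (v : X3) :
    Tm * conn e (cfg j x) (dcfg j x v) = Cm j e x v * Tm := by
  have h : Cm j e x v =
      ((2 * j + 1) * v 0 / x 0) • R0 e +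
      ((dcfg j x v 0 - dcfg j x v 2) / (cfg j x 0 - cfg j x 2)) • Gs e (-1) (-1) +
      ((dcfg j x v 0 - dcfg j x v 3) / (cfg j x 0 - cfg j x 3)) • Gs e (-1) 1 +
      ((dcfg j x v 1 - dcfg j x v 2) / (cfg j x 1 - cfg j x 2)) • Gs e 1 (-1) +
      ((dcfg j x v 1 - dcfg j x v 3) / (cfg j x 1 - cfg j x 3)) • Gs e 1 1 +
      ((2 * j + 1) * v 1 / x 1) • R5 e := by
    have c1 : cfg j x 0 - cfg j x 2 = -LL j (-1) (-1) x := by simp [cfg, LL]; ring
    have c2 : cfg j x 0 - cfg j x 3 = -LL j (-1) 1 x := by simp [cfg, LL]; ring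
    have c3 : cfg j x 1 - cfg j x 2 = -LL j 1 (-1) x := by simp [cfg, LL]; ring
    have c4 : cfg j x 1 - cfg j x 3 = -LL j 1 1 x := by simp [cfg, LL]; ring
    rw [c1, c2, c3, c4]
    ext p q
    simp only [Cm, Gs, SS, of_apply, Matrix.add_apply, Matrix.smul_apply, smul_eq_mul, neg_pow_succ,
      dcfg, cons_val_zero, cons_val_one, cons_val, one_pow, div_eq_mul_inv]
    ring
  have d0 : (dcfg j x v 0 - dcfg j x v 1) / (cfg j x 0 - cfg j x 1) = (2 * j + 1) * v 0 / x 0 := by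
    have : cfg j x 0 - cfg j x 1 = -(x 0 ^ (2 * j) * x 0) := by simp [cfg]; ring
    rw [this]
    simp only [dcfg, cons_val_zero, cons_val_one]
    field_simp
    ring
  have d5 : (dcfg j x v 2 - dcfg j x v 3) / (cfg j x 2 - cfg j x 3) = (2 * j + 1) * v 1 / x 1 := by
    have : cfg j x 2 - cfg j x 3 = -(x 1 ^ (2 * j) * x 1) := by simp [cfg]; ring
    rw [this]
    simp only [dcfg, cons_val]
    field_simp
    ring
  rw [h, conn, Fin.sum_univ_six]
  simp only [mul_add, add_mul, mul_smul_comm, smul_mul_assoc, Tm_R0, Tm_R1, Tm_R2, Tm_R3, Tm_R4,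
    Tm_R5, fst, snd, cons_val_zero, cons_val_one, cons_val, d0, d5]

theorem ex1 {j : ℕ} (e : ℝ) (p q : Fin 6) :
    gam e p q = 0 ∨ K1 j q ≤ K1 j p + (2 * j + 1) * (p1 p + p1 q : Fin 2) := by
  fin_cases p <;> fin_cases q <;> simp [gam, K1, p1] <;> omega

theorem ex2 {j : ℕ} (e : ℝ) (p q : Fin 6) :
    gam e p q = 0 ∨ K2 j q ≤ K2 j p + (2 * j + 1) * (p2 p + p2 q : Fin 2) := by
  fin_cases p <;> fin_cases q <;> simp [gam, K2, p2] <;> omega

theorem ex3 {j : ℕ} (hj : 1 ≤ j) (p q : Fin 6) :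
    K1 j q ≤ K1 j p + 2 * j + (2 * j + 1) * (p1 p + p1 q + 1 : Fin 2) := by
  fin_cases p <;> fin_cases q <;> simp [K1, p1] <;> omega

theorem ex4 {j : ℕ} (hj : 1 ≤ j) (p q : Fin 6) :
    K2 j q ≤ K2 j p + 2 * j + (2 * j + 1) * (p2 p + p2 q + 1 : Fin 2) := by
  fin_cases p <;> fin_cases q <;> simp [K2, p2] <;> omega

theorem polar1 {j : ℕ} {e : ℝ} (he : (4 * j + 2) * e = 1) {x : X3} (h0 : x 0 ≠ 0)
    (p q : Fin 6) :
    (if p = 0 ∧ q = 2 then -((j - 1) / 4) * x 0 ^ (3 * j) else 0) * sh j x q =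
      (if p = q then sh j x p * (K1 j p / x 0) else 0) +
        sh j x p * ((2 * j + 1) / x 0 * R0 e p q) := by
  have ha := al_eq he
  have hb := be_eq he
  fin_cases p <;> fin_cases q <;> simp [sh, K1, K2, R0] <;> field_simp
  · linear_combination (-4 * ha - hb) * x 0 ^ (3 * j + 1)
  · linear_combination (x 0 ^ (3 * j + 1)) * hb
  · linear_combination (-2 * ha) * (x 0 ^ (2 * j) * x 1 ^ (2 * j))
  · linear_combination (-2 * ha) * x 0 ^ (2 * j)

theorem polar2 {j : ℕ} {e : ℝ} (he : (4 * j + 2) * e = 1) {x : X3} (h1 : x 1 ≠ 0)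
    (p q : Fin 6) :
    (if p = 1 ∧ q = 2 then -((j - 1) / 4) * x 1 ^ (3 * j) else 0) * sh j x q =
      (if p = q then sh j x p * (K2 j p / x 1) else 0) +
        sh j x p * ((2 * j + 1) / x 1 * R5 e p q) := by
  have ha := al_eq he
  have hb := be_eq he
  fin_cases p <;> fin_cases q <;> simp [sh, K1, K2, R5] <;> field_simp
  · linear_combination (-4 * ha - hb) * x 1 ^ (3 * j + 1)
  · linear_combination (x 1 ^ (3 * j + 1)) * hb
  · linear_combination (-2 * ha) * (x 0 ^ (2 * j) * x 1 ^ (2 * j))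
  · linear_combination (-2 * ha) * x 1 ^ (2 * j)

theorem pw_sub (g u : ℂ) {a b : ℕ} (h : g = 0 ∨ b ≤ a) : g * (u ^ (a - b) * u ^ b) = g * u ^ a := by
  rcases h with h | h
  · simp [h]
  · rw [← pow_add, Nat.sub_add_cancel h]

theorem pw_sub2 (g u w : ℂ) {a b c d : ℕ} (h : g = 0 ∨ b ≤ a) (h' : g = 0 ∨ d ≤ c) :
    g * u ^ (a - b) * w ^ (c - d) * (u ^ b * w ^ d) = g * u ^ a * w ^ c := by
  rcases h with h | h
  · simp [h]
  rcases h' with h' | h'
  · simp [h']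
  have e1 : u ^ a = u ^ (a - b) * u ^ b := by rw [← pow_add, Nat.sub_add_cancel h]
  have e2 : w ^ c = w ^ (c - d) * w ^ d := by rw [← pow_add, Nat.sub_add_cancel h']
  rw [e1, e2]
  ring

theorem Am_sh {j : ℕ} (hj : 1 ≤ j) {e : ℝ} (he : (4 * j + 2) * e = 1) {x : X3} (hx : x ∈ Om j)
    (h0 : x 0 ≠ 0) (h1 : x 1 ≠ 0) (v : X3) :
    Am j e x v * diagonal (sh j x) =
      diagonal (fun p => sh j x p * lsh j x v p) + diagonal (sh j x) * Cm j e x v := by
  ext p q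
  have k1 := polar1 he h0 p q
  have k2 := polar2 he h1 p q
  have k3 := pw_sub2 (gam e p q) (x 0) (x 1) (Or.inr (ex3 hj p q)) (ex2 (j := j) e p q)
  have k4 := pw_sub2 (gam e p q) (x 0) (x 1) (ex1 (j := j) e p q) (Or.inr (ex4 hj p q))
  have k5 := pw_sub2 (gam e p q) (x 0) (x 1) (ex1 (j := j) e p q) (ex2 (j := j) e p q)
  have k6 : (if p = q then sh j x p * lsh j x v p else 0) =
      v 0 * (if p = q then sh j x p * (K1 j p / x 0) else 0) +
        v 1 * (if p = q then sh j x p * (K2 j p / x 1) else 0) := by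
    split_ifs
    · simp only [lsh]; ring
    · simp
  simp only [mul_diagonal, diagonal_mul, Matrix.add_apply, Matrix.smul_apply, smul_eq_mul,
    diagonal_apply, Am, A0, A1, A2, Cm, of_apply, SS_eq hx, k6]
  simp only [pow_add, pow_mul] at k3 k4 k5
  simp only [sh, pow_add, pow_mul] at *
  linear_combination v 0 * k1 + v 1 * k2 +
    (v 0 * -((2 * j + 1) / 2) * TT j x (p1 p + p1 q + 1) (p2 p + p2 q)) * k3 +
    (v 1 * ((2 * j + 1) / 2) * TT j x (p1 p + p1 q) (p2 p + p2 q + 1)) * k4 +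
    (v 2 * TT j x (p1 p + p1 q) (p2 p + p2 q)) * k5

/-- The gauge identity. -/
theorem gauge {j : ℕ} (hj : 1 ≤ j) {e : ℝ} (he : (4 * j + 2) * e = 1) {x : X3} (hx : x ∈ Om j)
    (h0 : x 0 ≠ 0) (h1 : x 1 ≠ 0) (v : X3) :
    Am j e x v * gg j x = diagonal (fun p => sh j x p * lsh j x v p) * Tm +
      gg j x * conn e (cfg j x) (dcfg j x v) := by
  rw [gg, ← mul_assoc, Am_sh hj he hx h0 h1, mul_assoc _ Tm, Tm_conn e h0 h1, add_mul, mul_assoc]

end

end Pool.Agent.Lib.MP_0c623d_al.BP.B
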