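import Pool.Agent.Lib.MP_0c623d_al.BP.Sk
import Pool.Agent.Lib.MP_0c623d_al.BP.W
import Pool.Agent.Lib.MP_0c623d_al.B.Gauge

set_option autoImplicit false

/-!
The sheared Gram matrix extends across the mirrors.
-/

namespace Pool.Agent.Lib.MP_0c623d_al.BP.B

open Matrix Filter Topology Set Function Metric
open scoped Matrix.Norms.Operator

noncomputable section

theorem punct (c : ℂ) {r : ℝ} (hr : 0 < r) : IsPreconnected (ball c r \ {0}) := by
  let φ := OpenPartialHomeomorph.univBall (E := ℂ) c r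
  have hs : φ.source = univ := OpenPartialHomeomorph.univBall_source c r
  have ht : φ.target = ball c r := OpenPartialHomeomorph.univBall_target c hr
  have hi : Injective φ := injOn_univ.1 (hs ▸ φ.injOn)
  have hc : ({0} : Set ℂ).Countable := countable_singleton 0
  have h1 := ((hc.preimage_of_injOn hi.injOn).isConnected_compl_of_one_lt_rank
    (by simp)).isPreconnected.image φ (OpenPartialHomeomorph.continuous_univBall c r).continuousOn
  convert h1 using 1
  rw [← preimage_compl, image_preimage_eq_inter_range, ← image_univ, ← hs, φ.image_source_eq_target,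
    ht, inter_comm]
  rfl

/-- the part of a ball off the mirrors -/
def Off (x0 : X3) (r : ℝ) : Set X3 := {x | x ∈ ball x0 r ∧ x 0 ≠ 0 ∧ x 1 ≠ 0}

theorem off_open (x0 : X3) (r : ℝ) : IsOpen (Off x0 r) :=
  isOpen_ball.inter ((isOpen_ne_fun (continuous_apply 0) continuous_const).inter
    (isOpen_ne_fun (continuous_apply 1) continuous_const))

theorem off_conn (x0 : X3) {r : ℝ} (hr : 0 < r) : IsPreconnected (Off x0 r) := by
  have : Off x0 r = Set.pi univ ![ball (x0 0) r \ {0}, ball (x0 1) r \ {0}, ball (x0 2) r] := by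
    ext x
    simp only [Off, ball_pi _ hr, Set.mem_pi, mem_univ, forall_true_left, Fin.forall_fin_succ]
    simp
    tauto
  rw [this]
  refine isPreconnected_univ_pi fun i => ?_
  fin_cases i
  · exact punct _ hr
  · exact punct _ hr
  · exact isPreconnected_ball

theorem inj_of_om {j : ℕ} {x : X3} (hx : x ∈ Om j) (h0 : x 0 ≠ 0) (h1 : x 1 ≠ 0) :
    Injective (cfg j x) := by
  obtain ⟨a, b, c, d⟩ := hx
  have e0 := pow_ne_zero (2 * j + 1) h0
  have e1 := pow_ne_zero (2 * j + 1) h1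
  simp only [LL] at a b c d
  intro p q h
  fin_cases p <;> fin_cases q <;> simp [cfg] at h ⊢ <;> first
    | exact e0 (by linear_combination h) | exact e0 (by linear_combination -h)
    | exact e1 (by linear_combination h) | exact e1 (by linear_combination -h)
    | exact a (by linear_combination h) | exact a (by linear_combination -h)
    | exact b (by linear_combination h) | exact b (by linear_combination -h)
    | exact c (by linear_combination h) | exact c (by linear_combination -h)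
    | exact d (by linear_combination h) | exact d (by linear_combination -h)

theorem der_coord (x : X3) (i : Fin 3) : HasFDerivAt (fun y : X3 => y i)
    (ContinuousLinearMap.proj (R := ℂ) (φ := fun _ => ℂ) i) x :=
  (ContinuousLinearMap.proj (R := ℂ) (φ := fun _ : Fin 3 => ℂ) i).hasFDerivAt

theorem der_cfg (j : ℕ) (x : X3) :
    ∃ L : X3 →L[ℂ] Cf, (∀ v, L v = dcfg j x v) ∧ HasFDerivAt (cfg j) L x := by
  have d : DifferentiableAt ℂ (cfg j) x := by
    refine differentiableAt_pi.2 fun i => ?_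
    fin_cases i <;> simp [cfg] <;> fun_prop
  refine ⟨_, fun v => ?_, d.hasFDerivAt⟩
  have h0 := ((der_coord x 0).pow (2 * j + 1)).mul_const (2 : ℂ)⁻¹
  have h1 := ((der_coord x 1).pow (2 * j + 1)).mul_const (2 : ℂ)⁻¹
  funext i
  have k := hasFDerivAt_pi'.1 d.hasFDerivAt i
  fin_cases i
  · refine (congrArg (· v) (k.unique h0.neg)).trans ?_
    simp [dcfg]; ring
  · refine (congrArg (· v) (k.unique h0)).trans ?_
    simp [dcfg]; ring
  · refine (congrArg (· v) (k.unique ((der_coord x 2).sub h1))).trans ?_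
    simp [dcfg]; ring
  · refine (congrArg (· v) (k.unique ((der_coord x 2).add h1))).trans ?_
    simp [dcfg]; ring

theorem gg_unit1 (j : ℕ) {x : X3} (h0 : x 0 ≠ 0) (h1 : x 1 ≠ 0) : IsUnit (gg j x) := by
  refine IsUnit.mul ?_ (IsUnit.of_mul_eq_one _ Tm_Ti)
  rw [isUnit_diagonal, Pi.isUnit_iff]
  exact fun p => (mul_ne_zero (pow_ne_zero _ h0) (pow_ne_zero _ h1)).isUnit

theorem der_gg (j : ℕ) {x : X3} (h0 : x 0 ≠ 0) (h1 : x 1 ≠ 0) : ∃ L : X3 →L[ℂ] M6,
    (∀ v, L v = diagonal (fun p => sh j x p * lsh j x v p) * Tm) ∧ HasFDerivAt (gg j) L x := by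
  obtain ⟨T, hT⟩ : ∃ T : (Fin 6 → ℂ) →L[ℂ] M6, ∀ d, T d = diagonal d * Tm :=
    ⟨LinearMap.toContinuousLinearMap
      { toFun := fun d => diagonal d * Tm
        map_add' := fun a b => by rw [← add_mul, diagonal_add]; rfl
        map_smul' := fun c a => by rw [diagonal_smul, smul_mul_assoc]; rfl }, fun _ => rfl⟩
  have h := hasFDerivAt_pi.2 fun p : Fin 6 =>
    ((der_coord x 0).pow (K1 j p)).mul ((der_coord x 1).pow (K2 j p))
  refine ⟨_, fun v => ?_, (T.hasFDerivAt.comp x h).congr_of_eventuallyEq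
    (Eventually.of_forall fun y => (hT (sh j y)).symm)⟩
  refine (hT _).trans ?_
  congr 2
  funext p
  have a : ∀ (u : ℂ) (n : ℕ), u ≠ 0 → (n : ℂ) * u ^ (n - 1) = n * u ^ n / u := by
    intro u n hu
    rcases n with _ | n
    · simp
    · rw [Nat.add_sub_cancel, pow_succ]; field_simp
  simp [sh, lsh, a _ _ h0, a _ _ h1]
  ring

variable {j : ℕ} {e : ℝ} {Z : X3 → M6} {x : X3}

/-- `Z` is an invertible solution of the regular system at `x` -/
def Reg (j : ℕ) (e : ℝ) (Z : X3 → M6) (x : X3) : Prop :=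
  IsUnit (Z x) ∧ ∃ L : X3 →L[ℂ] M6, (∀ v, L v = Am j e x v * Z x) ∧ HasFDerivAt Z L x

/-- the inverse of a solution of the system in the chart -/
def Bi (j : ℕ) (Z : X3 → M6) (x : X3) : M6 := (Z x)⁻¹ * gg j x

theorem Z_Bi (h : Reg j e Z x) : Z x * Bi j Z x = gg j x := by
  rw [Bi, ← mul_assoc, mul_nonsing_inv _ ((isUnit_iff_isUnit_det _).1 h.1), one_mul]

theorem Bi_unit (h : Reg j e Z x) (h0 : x 0 ≠ 0) (h1 : x 1 ≠ 0) : IsUnit (Bi j Z x) :=
  (isUnit_nonsing_inv_iff.2 h.1).mul (gg_unit1 j h0 h1)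

theorem der_Bi (hj : 1 ≤ j) (he : (4 * j + 2) * e = 1) (hx : x ∈ Om j) (h : Reg j e Z x)
    (h0 : x 0 ≠ 0) (h1 : x 1 ≠ 0) : ∃ L : X3 →L[ℂ] M6,
      (∀ v, L v = -(Bi j Z x * conn e (cfg j x) (dcfg j x v))) ∧ HasFDerivAt (Bi j Z) L x := by
  obtain ⟨⟨y, hy⟩, L, hL, hd⟩ := h
  obtain ⟨L', hL', hd'⟩ := der_gg j h0 h1
  have k := hasFDerivAt_ringInverse (𝕜 := ℂ) y
  rw [hy] at k
  refine ⟨_, fun v => ?_, ((k.comp x hd).mul' hd').congr_of_eventuallyEq
    (Eventually.of_forall fun z => by simp [Bi, nonsing_inv_eq_ringInverse])⟩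
  have e1 : Ring.inverse (Z x) = ↑y⁻¹ := by rw [← hy, Ring.inverse_unit]
  have e2 : Z x * ↑y⁻¹ = 1 := by rw [← hy, Units.mul_inv]
  have e3 : L' v = Am j e x v * gg j x - gg j x * conn e (cfg j x) (dcfg j x v) := by
    rw [hL', gauge hj he hx h0 h1, add_sub_cancel_right]
  change Ring.inverse (Z x) * L' v + -(↑y⁻¹ * L v * ↑y⁻¹) * gg j x = _
  rw [Bi, nonsing_inv_eq_ringInverse, e1, e3, hL, mul_assoc _ (_ * Z x), mul_assoc _ (Z x), e2]
  noncomm_ring

theorem loc_const {E F : Type} [NormedAddCommGroup E] [NormedSpace ℝ E] [NormedAddCommGroup F]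
    [NormedSpace ℝ F] {O S : Set E} (hO : IsOpen O) (hS : IsPreconnected S) (hSO : S ⊆ O)
    {φ : E → F} (h : ∀ x ∈ O, HasFDerivAt φ (0 : E →L[ℝ] F) x) {x y : E} (hx : x ∈ S)
    (hy : y ∈ S) : φ x = φ y := by
  have sub := hS.subset_connectedComponentIn hx hSO
  have k := fun z (hz : z ∈ connectedComponentIn O x) => h z (connectedComponentIn_subset O x hz)
  obtain ⟨c, hc⟩ := (hO.connectedComponentIn (x := x)).exists_is_const_of_fderiv_eq_zero (𝕜 := ℝ)
    isPreconnected_connectedComponentIn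
    (fun z hz => (k z hz).differentiableAt.differentiableWithinAt) fun z hz => (k z hz).fderiv
  rw [hc x (sub hx), hc y (sub hy)]

theorem der_ext (hj : 1 ≤ j) (he : (4 * j + 2) * e = 1) (hx : x ∈ Om j) (h : Reg j e Z x)
    (h0 : x 0 ≠ 0) (h1 : x 1 ≠ 0) {Y : Cf → M6} (hY : Sol e Y (cfg j x)) :
    HasFDerivAt (fun x => Bi j Z x * Y (cfg j x)) (0 : X3 →L[ℝ] M6) x := by
  obtain ⟨L, hL, hd⟩ := der_Bi hj he hx h h0 h1
  obtain ⟨L1, hL1, hd1⟩ := hY
  obtain ⟨L2, hL2, hd2⟩ := der_cfg j x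
  refine ((hd.mul' (hd1.comp x hd2)).restrictScalars ℝ).congr_fderiv ?_
  ext1 v
  change Bi j Z x * L1 (L2 v) + L v * Y (cfg j x) = 0
  rw [hL1, hL2, hL]
  noncomm_ring

theorem der_gram (hj : 1 ≤ j) (he : (4 * j + 2) * e = 1) (hx : x ∈ Om j) (h : Reg j e Z x)
    (h0 : x 0 ≠ 0) (h1 : x 1 ≠ 0) {f : FR e} (g : GR f) :
    HasFDerivAt (fun x => (Bi j Z x)ᵀᴴ * g.Gam (cfg j x) * (Bi j Z x)ᵀ) (0 : X3 →L[ℝ] M6) x := by
  obtain ⟨L, hL, hd⟩ := der_Bi hj he hx h h0 h1
  obtain ⟨L1, hL1, hd1⟩ := g.der _ (inj_of_om hx h0 h1)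
  obtain ⟨L2, hL2, hd2⟩ := der_cfg j x
  obtain ⟨T, hT⟩ : ∃ T : M6 →L[ℝ] M6, ∀ A, T A = Aᵀ :=
    ⟨LinearMap.toContinuousLinearMap
      { toFun := fun A => Aᵀ, map_add' := fun _ _ => rfl, map_smul' := fun _ _ => rfl },
      fun _ => rfl⟩
  obtain ⟨T', hT'⟩ : ∃ T : M6 →L[ℝ] M6, ∀ A, T A = Aᵀᴴ :=
    ⟨LinearMap.toContinuousLinearMap
      { toFun := fun A => Aᵀᴴ
        map_add' := fun _ _ => by rw [transpose_add, conjTranspose_add]
        map_smul' := fun _ _ => by ext; simp }, fun _ => rfl⟩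
  have hr := hd.restrictScalars ℝ
  have k := ((T'.hasFDerivAt.comp x hr).mul' (hd1.comp x (hd2.restrictScalars ℝ))).mul'
    (T.hasFDerivAt.comp x hr)
  refine (k.congr_fderiv ?_).congr_of_eventuallyEq
    (Eventually.of_forall fun z => by simp [hT, hT'])
  ext1 v
  change T' (Bi j Z x) * g.Gam (cfg j x) * T (L v) +
    (T' (Bi j Z x) * L1 (L2 v) + T' (L v) * g.Gam (cfg j x)) * T (Bi j Z x) = 0
  rw [hL1, hL2, hL, hT, hT, hT', hT', transpose_neg, conjTranspose_neg, transpose_mul,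
    conjTranspose_mul]
  noncomm_ring

end

end Pool.Agent.Lib.MP_0c623d_al.BP.B
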