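import Pool.Agent.Lib.MP_0c623d_al.BP.Low

set_option autoImplicit false

/-!
Lower bounds for `G` in terms of the value of the form at the centres of two discs.
-/

namespace Pool.Agent.Lib.MP_0c623d_al.BP

open Complex MeasureTheory Metric

noncomputable section

theorem mv_int (α β y0 : ℂ) (r : ℝ) :
    Integrable ((ball y0 r).indicator fun y => ‖α + β * y‖ ^ 2) := by
  refine (integrable_indicator_iff measurableSet_ball).2 ?_
  have hc : Continuous fun y : ℂ => ‖α + β * y‖ ^ 2 := by fun_prop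
  exact (hc.continuousOn.integrableOn_compact (isCompact_closedBall y0 r)).mono_set
    ball_subset_closedBall

theorem mv_one (α β y0 : ℂ) {r : ℝ} (hr : 0 ≤ r) :
    Real.pi * r ^ 2 * ‖α + β * y0‖ ^ 2 ≤
      ∫ y, (ball y0 r).indicator (fun y => ‖α + β * y‖ ^ 2) y := by
  set f : ℂ → ℝ := (ball y0 r).indicator fun y => ‖α + β * y‖ ^ 2 with hf
  have hi : Integrable f := mv_int α β y0 r
  have h1 : ∫ y, f (2 * y0 - y) = ∫ y, f y := integral_sub_left_eq_self f volume (2 * y0)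
  have hi' : Integrable fun y => f (2 * y0 - y) := hi.comp_sub_left (2 * y0)
  have h2 : ∫ y, (ball y0 r).indicator (fun _ => 2 * ‖α + β * y0‖ ^ 2) y ≤
      ∫ y, (f y + f (2 * y0 - y)) := by
    refine integral_mono (intg_ball _ _ _) (hi.add hi') fun y => ?_
    by_cases hy : y ∈ ball y0 r
    · have hy' : 2 * y0 - y ∈ ball y0 r := by
        rw [mem_ball_iff_norm] at hy ⊢
        rw [show 2 * y0 - y - y0 = -(y - y0) by ring, norm_neg]; exact hy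
      simp only [hf, Set.indicator_of_mem hy, Set.indicator_of_mem hy']
      have e := norm_add_le (α + β * y) (α + β * (2 * y0 - y))
      rw [show α + β * y + (α + β * (2 * y0 - y)) = 2 * (α + β * y0) by ring, norm_mul,
        Complex.norm_two] at e
      nlinarith [sq_nonneg (‖α + β * y‖ - ‖α + β * (2 * y0 - y)‖), norm_nonneg (α + β * y0),
        norm_nonneg (α + β * y), norm_nonneg (α + β * (2 * y0 - y))]
    · rw [Set.indicator_of_notMem hy]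
      have : ∀ z, 0 ≤ f z := fun z => Set.indicator_nonneg (fun _ _ => by positivity) z
      exact add_nonneg (this _) (this _)
  rw [int_ball _ hr, integral_add hi hi', h1] at h2
  linarith

theorem low_mv (hI : IntSt) {e : ℝ} (h0 : 0 < e) (h1 : e < 1 / 12) {a : Cf}
    (ha : Function.Injective a) (l : Fin 3 → ℂ) {x0 y0 : ℂ} {r1 r2 γ : ℝ} {α β : Fin 4 → ℝ}
    (hr1 : 0 < r1) (hr2 : 0 < r2)
    (hα : ∀ x ∈ ball x0 r1, ∀ i, ‖x - a i‖ ≤ α i) (hβ : ∀ y ∈ ball y0 r2, ∀ i, ‖y - a i‖ ≤ β i)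
    (hγ : ∀ x ∈ ball x0 r1, ∀ y ∈ ball y0 r2, ‖x - y‖ ≤ γ) :
    Real.pi ^ 2 * r1 ^ 2 * r2 ^ 2 * ‖ell l x0 y0‖ ^ 2 * ((∏ i, α i ^ (-1 - 2 * e)) *
      (∏ i, β i ^ (-1 - 2 * e)) * γ ^ (-1 + 6 * e)) ≤ G e a l := by
  obtain ⟨K, hK⟩ : ∃ K : ℝ, K = (∏ i, α i ^ (-1 - 2 * e)) * (∏ i, β i ^ (-1 - 2 * e)) *
    γ ^ (-1 + 6 * e) := ⟨_, rfl⟩
  have hα0 : ∀ i, 0 ≤ α i := fun i => (norm_nonneg _).trans (hα x0 (mem_ball_self hr1) i)
  have hβ0 : ∀ i, 0 ≤ β i := fun i => (norm_nonneg _).trans (hβ y0 (mem_ball_self hr2) i)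
  have hγ0 : 0 ≤ γ := (norm_nonneg _).trans (hγ x0 (mem_ball_self hr1) y0 (mem_ball_self hr2))
  have hK0 : 0 ≤ K := by
    rw [hK]
    exact mul_nonneg (mul_nonneg (Finset.prod_nonneg fun i _ => Real.rpow_nonneg (hα0 i) _)
      (Finset.prod_nonneg fun i _ => Real.rpow_nonneg (hβ0 i) _)) (Real.rpow_nonneg hγ0 _)
  set I : ℂ × ℂ → ℝ := (ball x0 r1 ×ˢ ball y0 r2).indicator fun z => ‖ell l z.1 z.2‖ ^ 2 with hI'
  have hint : Integrable I := by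
    refine (integrable_indicator_iff (measurableSet_ball.prod measurableSet_ball)).2 ?_
    have hc : Continuous fun z : ℂ × ℂ => ‖ell l z.1 z.2‖ ^ 2 := (ell_cont l).norm.pow 2
    exact (hc.continuousOn.integrableOn_compact
      ((isCompact_closedBall x0 r1).prod (isCompact_closedBall y0 r2))).mono_set
      (Set.prod_mono ball_subset_closedBall ball_subset_closedBall)
  have s1 : K * ∫ z, I z ≤ G e a l := by
    rw [← integral_const_mul]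
    refine integral_mono_ae (hint.const_mul K) (G_int hI h0 h1 ha l) ?_
    filter_upwards [ae_reg a] with z hz
    have hw := wt_nonneg e a z
    by_cases h2 : z ∈ ball x0 r1 ×ˢ ball y0 r2
    · have h4 := wt_ge h0 h1 hz.1 hz.2.1 hz.2.2 (hα _ h2.1) (hβ _ h2.2) (hγ _ h2.1 _ h2.2)
      simp only [hI', Set.indicator_of_mem h2]
      rw [← hK] at h4
      rw [mul_comm]
      exact mul_le_mul_of_nonneg_left h4 (by positivity)
    · simp only [hI', Set.indicator_of_notMem h2, mul_zero]; positivity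
  have hint' : Integrable I ((volume : Measure ℂ).prod volume) := by
    rwa [← Measure.volume_eq_prod]
  have s2 : Real.pi * r2 ^ 2 * (Real.pi * r1 ^ 2 * ‖ell l x0 y0‖ ^ 2) ≤ ∫ z, I z := by
    rw [Measure.volume_eq_prod, integral_prod _ hint']
    have e1 : ell l x0 y0 = (l 0 + l 1 * y0) + (l 1 + l 2 * y0) * x0 := by unfold ell; ring
    refine le_trans (mul_le_mul_of_nonneg_left (e1 ▸ mv_one (l 0 + l 1 * y0) (l 1 + l 2 * y0) x0
      hr1.le) (by positivity)) ?_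
    rw [← integral_const_mul]
    refine integral_mono ((mv_int _ _ _ _).const_mul _) hint'.integral_prod_left fun x => ?_
    by_cases hx : x ∈ ball x0 r1
    · have e2 : (fun y => I (x, y)) =
          (ball y0 r2).indicator fun y => ‖(l 0 + l 1 * x) + (l 1 + l 2 * x) * y‖ ^ 2 := by
        funext y
        by_cases hy : y ∈ ball y0 r2
        · simp only [hI', Set.indicator_of_mem hy,
            Set.indicator_of_mem (show (x, y) ∈ ball x0 r1 ×ˢ ball y0 r2 from ⟨hx, hy⟩)]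
          congr 2; unfold ell; ring
        · simp only [hI', Set.indicator_of_notMem hy, Set.indicator_of_notMem
            (show (x, y) ∉ ball x0 r1 ×ˢ ball y0 r2 from fun h => hy h.2)]
      simp only [e2, Set.indicator_of_mem hx]
      have := mv_one (l 0 + l 1 * x) (l 1 + l 2 * x) y0 hr2.le
      rwa [show l 0 + l 1 * x + (l 1 + l 2 * x) * y0 = l 0 + l 1 * y0 + (l 1 + l 2 * y0) * x by
        ring] at this
    · simp only [Set.indicator_of_notMem hx, mul_zero]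
      exact integral_nonneg fun y => Set.indicator_nonneg (fun _ _ => by positivity) _
  rw [← hK]
  calc _ = K * (Real.pi * r2 ^ 2 * (Real.pi * r1 ^ 2 * ‖ell l x0 y0‖ ^ 2)) := by ring
    _ ≤ K * ∫ z, I z := mul_le_mul_of_nonneg_left s2 hK0
    _ ≤ _ := s1

theorem near_le' {a : Cf} {i j : Fin 4} {τ R : ℝ} (hR : ∀ k, ‖a k‖ ≤ R) (hij : ‖a i - a j‖ ≤ τ)
    (hτ : τ ≤ R) : ∀ x ∈ ball (a j) τ, ∀ k, ‖x - a k‖ ≤ near i j τ R k := by
  intro x hx k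
  have := near_le hR (by rwa [norm_sub_rev] at hij : ‖a j - a i‖ ≤ τ) hτ x hx k
  unfold near at this ⊢
  simpa only [or_comm] using this

/-- both variables near a close pair -/
theorem mvA (hI : IntSt) {e : ℝ} (h0 : 0 < e) (h1 : e < 1 / 12) {R : ℝ} (hR0 : 0 < R) :
    ∃ c, 0 < c ∧ ∀ (a : Cf) (l : Fin 3 → ℂ) (i j : Fin 4) (τ : ℝ), Function.Injective a →
      (∀ k, ‖a k‖ ≤ R) → i ≠ j → ‖a i - a j‖ ≤ τ → τ ≤ R →
      c * ‖ell l (a i) (a j)‖ ^ 2 * τ ^ (-1 - 2 * e) ≤ G e a l := by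
  refine ⟨Real.pi ^ 2 * ((2 : ℝ) ^ (-1 - 2 * e)) ^ 4 * ((3 * R) ^ (-1 - 2 * e)) ^ 4 *
    (3 : ℝ) ^ (-1 + 6 * e), by positivity, ?_⟩
  intro a l i j τ ha hR hij hd hτ
  have hτ0 : 0 < τ := (norm_pos_iff.2 (sub_ne_zero.2 (ha.ne hij))).trans_le hd
  have h := low_mv hI h0 h1 ha l hτ0 hτ0 (near_le hR hd hτ) (near_le' hR hd hτ)
    (γ := 3 * τ) (fun x hx y hy => by
      have h2 : ‖x - a i‖ < τ := mem_ball_iff_norm.1 hx
      have h3 : ‖y - a j‖ < τ := mem_ball_iff_norm.1 hy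
      have h4 : x - y = ((x - a i) - (y - a j)) + (a i - a j) := by ring
      have h5 := norm_sub_le (x - a i) (y - a j)
      have h6 := norm_add_le ((x - a i) - (y - a j)) (a i - a j)
      rw [h4]; linarith)
  rw [near_prod hij, Real.mul_rpow (x := 3) (z := -1 + 6 * e) (by norm_num) hτ0.le] at h
  refine le_of_eq_of_le ?_ h
  have h6 := near_pow hτ0 e
  have h7 : τ ^ (-1 - 2 * e) = τ ^ (-4 * e) * τ ^ (-4 * e) * τ ^ (-1 + 6 * e) := by
    rw [← Real.rpow_add hτ0, ← Real.rpow_add hτ0]; congr 1; ring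
  calc _ = Real.pi ^ 2 * ‖ell l (a i) (a j)‖ ^ 2 * ((3 * R) ^ (-1 - 2 * e)) ^ 4 *
        (3 : ℝ) ^ (-1 + 6 * e) *
        τ ^ (-1 + 6 * e) * (((2 : ℝ) ^ (-1 - 2 * e)) ^ 2 * τ ^ (-4 * e)) *
        (((2 : ℝ) ^ (-1 - 2 * e)) ^ 2 * τ ^ (-4 * e)) := by rw [h7]; ring
    _ = _ := by rw [← h6]; ring

/-- one variable near a close pair, the other anywhere -/
theorem mvB (hI : IntSt) {e : ℝ} (h0 : 0 < e) (h1 : e < 1 / 12) {R : ℝ} (hR0 : 0 < R) :
    ∃ c, 0 < c ∧ ∀ (a : Cf) (l : Fin 3 → ℂ) (i j : Fin 4) (y0 : ℂ) (τ : ℝ),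
      Function.Injective a → (∀ k, ‖a k‖ ≤ R) → i ≠ j → ‖a i - a j‖ ≤ τ → τ ≤ R → ‖y0‖ ≤ R →
      c * ‖ell l (a i) y0‖ ^ 2 * τ ^ (-4 * e) ≤ G e a l := by
  refine ⟨Real.pi ^ 2 * R ^ 2 * ((2 : ℝ) ^ (-1 - 2 * e)) ^ 2 * ((3 * R) ^ (-1 - 2 * e)) ^ 6 *
    (4 * R) ^ (-1 + 6 * e), by positivity, ?_⟩
  intro a l i j y0 τ ha hR hij hd hτ hy0
  have hτ0 : 0 < τ := (norm_pos_iff.2 (sub_ne_zero.2 (ha.ne hij))).trans_le hd
  have h := low_mv hI h0 h1 ha l hτ0 hR0 (near_le hR hd hτ) (β := fun _ => 3 * R)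
    (fun y hy k => dist_ball hy le_rfl hy0 (hR k))
    (fun x hx y hy => dist_ball2 hx hy hτ le_rfl (hR i) hy0)
  rw [near_prod hij, Fin.prod_univ_four] at h
  refine le_of_eq_of_le ?_ h
  have h6 := near_pow hτ0 e
  calc _ = Real.pi ^ 2 * ‖ell l (a i) y0‖ ^ 2 * R ^ 2 * ((3 * R) ^ (-1 - 2 * e)) ^ 6 *
        (4 * R) ^ (-1 + 6 * e) * (((2 : ℝ) ^ (-1 - 2 * e)) ^ 2 * τ ^ (-4 * e)) := by ring
    _ = _ := by rw [← h6]; ring

/-- both variables anywhere -/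
theorem mvC (hI : IntSt) {e : ℝ} (h0 : 0 < e) (h1 : e < 1 / 12) {R : ℝ} (hR0 : 0 < R) :
    ∃ c, 0 < c ∧ ∀ (a : Cf) (l : Fin 3 → ℂ) (x0 y0 : ℂ),
      Function.Injective a → (∀ k, ‖a k‖ ≤ R) → ‖x0‖ ≤ R → ‖y0‖ ≤ R →
      c * ‖ell l x0 y0‖ ^ 2 ≤ G e a l := by
  refine ⟨Real.pi ^ 2 * R ^ 4 * ((3 * R) ^ (-1 - 2 * e)) ^ 8 * (4 * R) ^ (-1 + 6 * e),
    by positivity, ?_⟩
  intro a l x0 y0 ha hR hx0 hy0
  have h := low_mv hI h0 h1 ha l hR0 hR0 (α := fun _ => 3 * R) (β := fun _ => 3 * R)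
    (fun x hx k => dist_ball hx le_rfl hx0 (hR k)) (fun y hy k => dist_ball hy le_rfl hy0 (hR k))
    (fun x hx y hy => dist_ball2 hx hy le_rfl le_rfl hx0 hy0)
  rw [Fin.prod_univ_four] at h
  refine le_of_eq_of_le ?_ h
  ring

/-- one variable near each of two close pairs -/
theorem mvD (hI : IntSt) {e : ℝ} (h0 : 0 < e) (h1 : e < 1 / 12) {R : ℝ} (hR0 : 0 < R) :
    ∃ c, 0 < c ∧ ∀ (a : Cf) (l : Fin 3 → ℂ) (i j i' j' : Fin 4) (τ τ' : ℝ),
      Function.Injective a → (∀ k, ‖a k‖ ≤ R) → i ≠ j → i' ≠ j' → ‖a i - a j‖ ≤ τ → τ ≤ R →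
      ‖a i' - a j'‖ ≤ τ' → τ' ≤ R →
      c * ‖ell l (a i) (a i')‖ ^ 2 * (τ ^ (-4 * e) * τ' ^ (-4 * e)) ≤ G e a l := by
  refine ⟨Real.pi ^ 2 * ((2 : ℝ) ^ (-1 - 2 * e)) ^ 4 * ((3 * R) ^ (-1 - 2 * e)) ^ 4 *
    (4 * R) ^ (-1 + 6 * e), by positivity, ?_⟩
  intro a l i j i' j' τ τ' ha hR hij hij' hd hτ hd' hτ'
  have hτ0 : 0 < τ := (norm_pos_iff.2 (sub_ne_zero.2 (ha.ne hij))).trans_le hd
  have hτ0' : 0 < τ' := (norm_pos_iff.2 (sub_ne_zero.2 (ha.ne hij'))).trans_le hd'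
  have h := low_mv hI h0 h1 ha l hτ0 hτ0' (near_le hR hd hτ) (near_le hR hd' hτ')
    (fun x hx y hy => dist_ball2 hx hy hτ hτ' (hR i) (hR i'))
  rw [near_prod hij, near_prod hij'] at h
  refine le_of_eq_of_le ?_ h
  have h6 := near_pow hτ0 e
  have h7 := near_pow hτ0' e
  calc _ = Real.pi ^ 2 * ‖ell l (a i) (a i')‖ ^ 2 * ((3 * R) ^ (-1 - 2 * e)) ^ 4 *
        (4 * R) ^ (-1 + 6 * e) * (((2 : ℝ) ^ (-1 - 2 * e)) ^ 2 * τ ^ (-4 * e)) *
        (((2 : ℝ) ^ (-1 - 2 * e)) ^ 2 * τ' ^ (-4 * e)) := by ring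
    _ = _ := by rw [← h6, ← h7]; ring

end

end Pool.Agent.Lib.MP_0c623d_al.BP
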