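import Pool.Agent.Lib.MP_0c623d_al.B.PosRows
import Pool.Agent.Lib.MP_0c623d_al.B.Mv

set_option autoImplicit false

/-!
The dual square norm dominates the sheared dual frame near every point of the chart.
-/

namespace Pool.Agent.Lib.MP_0c623d_al.BP.B.Pos

open Matrix Filter Topology Asymptotics

noncomputable section

variable {j : ℕ}

theorem d10 (x : X3) : cfg j x 1 - cfg j x 0 = x 0 ^ (2 * j + 1) := by simp [cfg]

theorem d32 (x : X3) : cfg j x 3 - cfg j x 2 = x 1 ^ (2 * j + 1) := by simp [cfg]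

theorem cross {x : X3} (hx : x ∈ Om j) : cfg j x 0 - cfg j x 2 ≠ 0 ∧ cfg j x 0 - cfg j x 3 ≠ 0 ∧
    cfg j x 1 - cfg j x 2 ≠ 0 ∧ cfg j x 1 - cfg j x 3 ≠ 0 := by
  obtain ⟨h1, h2, h3, h4⟩ := hx
  simp only [LL] at h1 h2 h3 h4
  refine ⟨fun h => h4 ?_, fun h => h3 ?_, fun h => h2 ?_, fun h => h1 ?_⟩ <;>
    simp [cfg] at h <;> linear_combination -h

theorem inj {x : X3} (hx : x ∈ Om j) (h0 : x 0 ≠ 0) (h1 : x 1 ≠ 0) :
    Function.Injective (cfg j x) := by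
  obtain ⟨a, b, c, d⟩ := cross hx
  have e1 : cfg j x 1 - cfg j x 0 ≠ 0 := by rw [d10]; exact pow_ne_zero _ h0
  have e2 : cfg j x 3 - cfg j x 2 ≠ 0 := by rw [d32]; exact pow_ne_zero _ h1
  rw [sub_ne_zero] at a b c d e1 e2
  intro p q h
  fin_cases p <;> fin_cases q <;> first | rfl | (exfalso; simp_all)

theorem cont_cfg (i : Fin 4) : Continuous fun x : X3 => cfg j x i := by
  fin_cases i <;> simp [cfg] <;> fun_prop

theorem ev_Om {x0 : X3} (hx : x0 ∈ Om j) : ∀ᶠ x in 𝓝 x0, x ∈ Om j := by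
  obtain ⟨h1, h2, h3, h4⟩ := hx
  have c : ∀ s t, ContinuousAt (LL j s t) x0 := fun s t => by unfold LL; fun_prop
  filter_upwards [(c _ _).eventually_ne h1, (c _ _).eventually_ne h2, (c _ _).eventually_ne h3,
    (c _ _).eventually_ne h4] with x a b c d
  exact ⟨a, b, c, d⟩

/-- regular points near `x0`, all forms -/
def Fl (x0 : X3) : Filter (X3 × (Fin 3 → ℂ)) :=
  (𝓝 x0 ⊓ 𝓟 {x | x 0 ≠ 0 ∧ x 1 ≠ 0}) ×ˢ ⊤

theorem ev_Fl {x0 : X3} {P : X3 × (Fin 3 → ℂ) → Prop} :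
    (∀ᶠ p in Fl x0, P p) ↔ ∀ᶠ x in 𝓝 x0, x 0 ≠ 0 → x 1 ≠ 0 → ∀ l, P (x, l) := by
  rw [Fl, Filter.prod_top, eventually_comap, eventually_inf_principal]
  refine ⟨fun h => h.mono fun x h a b l => h ⟨a, b⟩ _ rfl, fun h => h.mono fun x h a p e => ?_⟩
  subst e
  exact h a.1 a.2 p.2

/-- the size -/
def sz (j : ℕ) (e : ℝ) (p : X3 × (Fin 3 → ℂ)) : ℝ := √(G e (cfg j p.1) p.2)

theorem O_mul {x0 : X3} {e : ℝ} {φ : X3 → ℂ} (hφ : ContinuousAt φ x0)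
    {f : X3 × (Fin 3 → ℂ) → ℂ} (hf : f =O[Fl x0] sz j e) :
    (fun p => φ p.1 * f p) =O[Fl x0] sz j e := by
  have h1 : (fun p : X3 × (Fin 3 → ℂ) => φ p.1) =O[Fl x0] fun _ => (1 : ℝ) :=
    (hφ.tendsto.comp (tendsto_fst.mono_right inf_le_left)).isBigO_one ℝ
  simpa using h1.mul hf

theorem O_of {x0 : X3} {e : ℝ} {f : X3 × (Fin 3 → ℂ) → ℂ} {c : ℝ} (hc : 0 < c)
    (h : ∀ᶠ p in Fl x0, c * ‖f p‖ ^ 2 ≤ G e (cfg j p.1) p.2) : f =O[Fl x0] sz j e := by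
  refine IsBigO.of_bound (√c)⁻¹ (h.mono fun p hp => ?_)
  have hs : 0 < √c := Real.sqrt_pos.2 hc
  rw [sz, Real.norm_of_nonneg (Real.sqrt_nonneg _), ← div_eq_inv_mul, le_div_iff₀ hs]
  refine Real.le_sqrt_of_sq_le ?_
  rw [mul_pow, Real.sq_sqrt hc.le, mul_comm]
  exact hp

theorem ex_R {x0 : X3} {φ ψ : X3 → ℂ} (hφ : ContinuousAt φ x0) (hψ : ContinuousAt ψ x0) :
    ∃ R : ℝ, 0 < R ∧ ∀ᶠ x in 𝓝 x0, (∀ i, ‖cfg j x i‖ ≤ R) ∧ ‖x 0‖ ^ (2 * j + 1) ≤ R ∧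
      ‖x 1‖ ^ (2 * j + 1) ≤ R ∧ ‖φ x‖ ≤ R ∧ ‖ψ x‖ ≤ R := by
  have hc : ContinuousAt (fun x : X3 => ‖cfg j x‖ + ‖x 0‖ ^ (2 * j + 1) + ‖x 1‖ ^ (2 * j + 1) +
      ‖φ x‖ + ‖ψ x‖) x0 := by
    have : Continuous (cfg j) := continuous_pi cont_cfg
    fun_prop
  refine ⟨‖cfg j x0‖ + ‖x0 0‖ ^ (2 * j + 1) + ‖x0 1‖ ^ (2 * j + 1) + ‖φ x0‖ + ‖ψ x0‖ + 1, ?_,
    (hc.eventually (gt_mem_nhds (lt_add_one _))).mono fun x h => ?_⟩
  · positivity
  · have a1 := norm_nonneg (cfg j x)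
    have a2 : 0 ≤ ‖x 0‖ ^ (2 * j + 1) := by positivity
    have a3 : 0 ≤ ‖x 1‖ ^ (2 * j + 1) := by positivity
    have a4 := norm_nonneg (φ x)
    have a5 := norm_nonneg (ψ x)
    refine ⟨fun i => (norm_le_pi_norm _ i).trans ?_, ?_, ?_, ?_, ?_⟩ <;> linarith

theorem pw4 {e : ℝ} (he : (4 * j + 2) * e = 1) {r : ℝ} (hr : 0 < r) :
    (r ^ (2 * j + 1)) ^ (-4 * e) = (r ^ 2)⁻¹ := by
  rw [← Real.rpow_natCast r (2 * j + 1), ← Real.rpow_mul hr.le, ← Real.rpow_natCast r 2,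
    ← Real.rpow_neg hr.le]
  congr 1
  push_cast
  linear_combination (-2) * he

theorem pw1 {e : ℝ} (he : (4 * j + 2) * e = 1) {r : ℝ} (hr : 0 < r) :
    (r ^ (2 * j + 1)) ^ (-1 - 2 * e) = ((r ^ (j + 1)) ^ 2)⁻¹ := by
  rw [← Real.rpow_natCast r (2 * j + 1), ← Real.rpow_mul hr.le, ← pow_mul,
    ← Real.rpow_natCast r ((j + 1) * 2), ← Real.rpow_neg hr.le]
  congr 1
  push_cast
  linear_combination (-1) * he

/-- the pair and the coordinate that belong to a point -/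
def mate : Fin 4 → Fin 4 := ![1, 0, 3, 2]

def co : Fin 4 → Fin 3 := ![0, 0, 1, 1]

theorem mate_ne (i : Fin 4) : i ≠ mate i := by fin_cases i <;> simp [mate]

theorem mate_dist (x : X3) (i : Fin 4) :
    ‖cfg j x i - cfg j x (mate i)‖ = ‖x (co i)‖ ^ (2 * j + 1) := by
  fin_cases i
  · show ‖cfg j x 0 - cfg j x 1‖ = ‖x 0‖ ^ _
    rw [norm_sub_rev, d10, norm_pow]
  · show ‖cfg j x 1 - cfg j x 0‖ = ‖x 0‖ ^ _
    rw [d10, norm_pow]
  · show ‖cfg j x 2 - cfg j x 3‖ = ‖x 1‖ ^ _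
    rw [norm_sub_rev, d32, norm_pow]
  · show ‖cfg j x 3 - cfg j x 2‖ = ‖x 1‖ ^ _
    rw [d32, norm_pow]

theorem co_or {P : Fin 3 → Prop} (h0 : P 0) (h1 : P 1) (i : Fin 4) : P (co i) := by
  fin_cases i <;> simpa [co]

section

variable (hI : IntSt) {e : ℝ} (h0 : 0 < e) (h1 : e < 1 / 12) (he : (4 * j + 2) * e = 1) {x0 : X3}
  (hx : x0 ∈ Om j)
include hI h0 h1 hx

theorem OC (s t : ℂ) : (fun p : X3 × (Fin 3 → ℂ) => ell p.2 s t) =O[Fl x0] sz j e := by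
  obtain ⟨R, hR, ev⟩ := ex_R (j := j) (x0 := x0) (φ := fun _ => s) (ψ := fun _ => t)
    continuousAt_const continuousAt_const
  obtain ⟨c, hc, h⟩ := mvC hI h0 h1 hR
  refine O_of hc (ev_Fl.2 ?_)
  filter_upwards [ev, ev_Om hx] with x a b n0 n1 l
  exact h _ l s t (inj b n0 n1) a.1 a.2.2.2.1 a.2.2.2.2

include he

theorem OA (i : Fin 4) : (fun p : X3 × (Fin 3 → ℂ) =>
    ell p.2 (cfg j p.1 i) (cfg j p.1 (mate i)) / p.1 (co i) ^ (j + 1)) =O[Fl x0] sz j e := by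
  obtain ⟨R, hR, ev⟩ := ex_R (j := j) (x0 := x0) (φ := fun _ => 0) (ψ := fun _ => 0)
    continuousAt_const continuousAt_const
  obtain ⟨c, hc, h⟩ := mvA hI h0 h1 hR
  refine O_of hc (ev_Fl.2 ?_)
  filter_upwards [ev, ev_Om hx] with x a b n0 n1 l
  have hn : 0 < ‖x (co i)‖ := norm_pos_iff.2 (co_or (P := fun q => x q ≠ 0) n0 n1 i)
  have := h _ l i (mate i) _ (inj b n0 n1) a.1 (mate_ne i) (mate_dist x i).le
    (co_or (P := fun q => ‖x q‖ ^ (2 * j + 1) ≤ R) a.2.1 a.2.2.1 i)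
  rw [pw1 he hn] at this
  simpa only [norm_div, norm_pow, div_pow, div_eq_mul_inv, mul_pow, inv_pow, mul_assoc,
    norm_mul, norm_inv] using this

theorem OB (i : Fin 4) {ψ : X3 → ℂ} (hψ : ContinuousAt ψ x0) : (fun p : X3 × (Fin 3 → ℂ) =>
    ell p.2 (cfg j p.1 i) (ψ p.1) / p.1 (co i)) =O[Fl x0] sz j e := by
  obtain ⟨R, hR, ev⟩ := ex_R (j := j) (x0 := x0) hψ hψ
  obtain ⟨c, hc, h⟩ := mvB hI h0 h1 hR
  refine O_of hc (ev_Fl.2 ?_)
  filter_upwards [ev, ev_Om hx] with x a b n0 n1 l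
  have hn : 0 < ‖x (co i)‖ := norm_pos_iff.2 (co_or (P := fun q => x q ≠ 0) n0 n1 i)
  have := h _ l i (mate i) (ψ x) _ (inj b n0 n1) a.1 (mate_ne i) (mate_dist x i).le
    (co_or (P := fun q => ‖x q‖ ^ (2 * j + 1) ≤ R) a.2.1 a.2.2.1 i) a.2.2.2.1
  rw [pw4 he hn] at this
  simpa only [norm_div, norm_pow, div_pow, div_eq_mul_inv, mul_pow, inv_pow, mul_assoc,
    norm_mul, norm_inv] using this

theorem OD (i i' : Fin 4) : (fun p : X3 × (Fin 3 → ℂ) =>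
    ell p.2 (cfg j p.1 i) (cfg j p.1 i') / (p.1 (co i) * p.1 (co i'))) =O[Fl x0] sz j e := by
  obtain ⟨R, hR, ev⟩ := ex_R (j := j) (x0 := x0) (φ := fun _ => 0) (ψ := fun _ => 0)
    continuousAt_const continuousAt_const
  obtain ⟨c, hc, h⟩ := mvD hI h0 h1 hR
  refine O_of hc (ev_Fl.2 ?_)
  filter_upwards [ev, ev_Om hx] with x a b n0 n1 l
  have hn : ∀ i, 0 < ‖x (co i)‖ := fun i =>
    norm_pos_iff.2 (co_or (P := fun q => x q ≠ 0) n0 n1 i)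
  have hb : ∀ i, ‖x (co i)‖ ^ (2 * j + 1) ≤ R := fun i =>
    co_or (P := fun q => ‖x q‖ ^ (2 * j + 1) ≤ R) a.2.1 a.2.2.1 i
  have := h _ l i (mate i) i' (mate i') _ _ (inj b n0 n1) a.1 (mate_ne i) (mate_ne i')
    (mate_dist x i).le (hb i) (mate_dist x i').le (hb i')
  rw [pw4 he (hn i), pw4 he (hn i')] at this
  simpa only [norm_div, norm_pow, div_pow, div_eq_mul_inv, mul_pow, inv_pow, mul_assoc,
    norm_mul, norm_inv, mul_inv] using this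

end

theorem c_iv {x0 : X3} {i i' : Fin 4} (h : cfg j x0 i - cfg j x0 i' ≠ 0) :
    ContinuousAt (fun x => iv (cfg j x) i i') x0 :=
  ((cont_cfg i).sub (cont_cfg i')).continuousAt.inv₀ h

theorem O_all (hI : IntSt) {e : ℝ} (h0 : 0 < e) (h1 : e < 1 / 12) (he : (4 * j + 2) * e = 1)
    {x0 : X3} (hx : x0 ∈ Om j) (q : Fin 6) :
    (fun p : X3 × (Fin 3 → ℂ) => (gg j p.1 *ᵥ Srow (cfg j p.1) p.2) q) =O[Fl x0] sz j e := by
  obtain ⟨n02, n03, n12, n13⟩ := cross hx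
  have g0 : ContinuousAt (fun x => gx (cfg j x) 0) x0 := (c_iv n02).mul (c_iv n03)
  have g1 : ContinuousAt (fun x => gx (cfg j x) 1) x0 := (c_iv n12).mul (c_iv n13)
  have y2 : ContinuousAt (fun x => hy (cfg j x) 2) x0 := (c_iv n02).mul (c_iv n12)
  have y3 : ContinuousAt (fun x => hy (cfg j x) 3) x0 := (c_iv n03).mul (c_iv n13)
  have ca : ∀ i, ContinuousAt (fun x : X3 => cfg j x i) x0 := fun i => (cont_cfg i).continuousAt
  have cG0 : ContinuousAt (fun x => G0 (cfg j x)) x0 :=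
    ((((ca 2).add (ca 3)).sub (ca 0)).sub (ca 1)).mul (g0.mul g1)
  have cG1 : ContinuousAt (fun x => G1 (cfg j x)) x0 := ((ca 0).mul cG0).add g1
  have cH1 : ContinuousAt (fun x => H1 (cfg j x)) x0 := ((ca 2).mul cG0.neg).add y3
  have C := OC (j := j) hI h0 h1 hx
  have A := OA (j := j) hI h0 h1 he hx
  have B := fun i (ψ : X3 → ℂ) hψ => OB (j := j) hI h0 h1 he hx i (ψ := ψ) hψ
  have D := OD (j := j) hI h0 h1 he hx
  have B1 := fun i => B i (fun _ => 1) continuousAt_const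
  have B0 := fun i => B i (fun _ => 0) continuousAt_const
  have hS : (fun p : X3 × (Fin 3 → ℂ) => S4 (cfg j p.1) p.2) =O[Fl x0] sz j e :=
    ((O_mul (cG0.mul cG0) (C 0 0)).add (O_mul ((cG1.mul cG0).sub (cG0.mul cH1))
      ((C 1 0).sub (C 0 0)))).sub (O_mul (cG1.mul cH1)
        ((((C 1 1).sub (C 1 0)).sub (C 1 0)).add (C 0 0)))
  have cp : ∀ (i : Fin 3) (n : ℕ), ContinuousAt (fun x : X3 => x i ^ n / 4) x0 := fun i n =>
    ((continuous_apply i).continuousAt.pow n).div_const 4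
  have key : ∀ {f : X3 × (Fin 3 → ℂ) → ℂ}, f =O[Fl x0] sz j e →
      (∀ x l, x ∈ Om j → x 0 ≠ 0 → x 1 ≠ 0 → f (x, l) = sh j x q * (Tm *ᵥ Srow (cfg j x) l) q) →
      (fun p : X3 × (Fin 3 → ℂ) => (gg j p.1 *ᵥ Srow (cfg j p.1) p.2) q) =O[Fl x0] sz j e := by
    intro f hf h
    refine hf.congr' (ev_Fl.2 ?_) EventuallyEq.rfl
    filter_upwards [ev_Om hx] with x b n0 n1 l
    rw [h x l b n0 n1, gg, ← mulVec_mulVec, mulVec_diagonal]
  fin_cases q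
  · refine key ((O_mul (g0.mul g1) (A 0)).add (O_mul (cp 0 (3 * j + 1)) hS))
      fun x l b n0 n1 => ?_
    rw [rows _ (inj b n0 n1)]
    simp [d10, sh, K1, K2, mate, co]
    field_simp
    ring
  · refine key ((O_mul (y2.mul y3) (A 2)).add (O_mul (cp 1 (3 * j + 1)) hS))
      fun x l b n0 n1 => ?_
    rw [rows _ (inj b n0 n1)]
    simp [d32, sh, K1, K2, mate, co]
    field_simp
    ring
  · refine key hS fun x l b n0 n1 => ?_
    rw [rows _ (inj b n0 n1)]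
    simp [sh, K1, K2]
  · refine key (((((O_mul (g0.mul y2) (D 0 2)).add (O_mul (g0.mul y3) (D 0 3))).add
      (O_mul (g1.mul y2) (D 1 2))).add (O_mul (g1.mul y3) (D 1 3))).const_mul_left (1 / 4))
      fun x l b n0 n1 => ?_
    rw [rows _ (inj b n0 n1)]
    simp [d10, d32, sh, K1, K2, co]
    field_simp
    ring
  · refine key (((((O_mul (g0.mul y3) ((B1 0).sub (B0 0))).sub
      (O_mul (g0.mul cG0) (B 0 _ (ca 2)))).add (O_mul (g1.mul y3) ((B1 1).sub (B0 1)))).sub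
      (O_mul (g1.mul cG0) (B 1 _ (ca 2)))).const_mul_left (1 / 2))
      fun x l b n0 n1 => ?_
    rw [rows _ (inj b n0 n1)]
    simp [d10, sh, K1, K2, co]
    field_simp
    ring
  · refine key (((((O_mul (y2.mul g1) ((B1 2).sub (B0 2))).add
      (O_mul (y2.mul cG0) (B 2 _ (ca 0)))).add (O_mul (y3.mul g1) ((B1 3).sub (B0 3)))).add
      (O_mul (y3.mul cG0) (B 3 _ (ca 0)))).const_mul_left (-1 / 2))
      fun x l b n0 n1 => ?_
    rw [rows _ (inj b n0 n1)]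
    simp [d32, sh, K1, K2, co]
    field_simp
    ring

/-- the dual square norm dominates the sheared dual frame -/
theorem posLow (hI : IntSt) {e : ℝ} (h0 : 0 < e) (h1 : e < 1 / 12) (he : (4 * j + 2) * e = 1)
    {x0 : X3} (hx : x0 ∈ Om j) : ∃ c : ℝ, 0 < c ∧ ∀ᶠ x in 𝓝 x0, x 0 ≠ 0 → x 1 ≠ 0 → ∀ l,
      c * ‖gg j x *ᵥ Srow (cfg j x) l‖ ^ 2 ≤ G e (cfg j x) l := by
  have h : (fun p : X3 × (Fin 3 → ℂ) => gg j p.1 *ᵥ Srow (cfg j p.1) p.2) =O[Fl x0] sz j e :=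
    isBigO_pi.2 (O_all hI h0 h1 he hx)
  obtain ⟨C, hC, h⟩ := h.exists_pos
  refine ⟨(C ^ 2)⁻¹, by positivity, (ev_Fl.1 h.bound).mono fun x h n0 n1 l => ?_⟩
  have := h n0 n1 l
  rw [sz, Real.norm_of_nonneg (Real.sqrt_nonneg _)] at this
  have h2 := pow_le_pow_left₀ (norm_nonneg _) this 2
  rw [mul_pow, Real.sq_sqrt (G_nonneg _ _ _)] at h2
  rw [← div_eq_inv_mul, div_le_iff₀ (by positivity), mul_comm]
  exact h2

end

end Pool.Agent.Lib.MP_0c623d_al.BP.B.Pos
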