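import Pool.Agent.Lib.MP_0c623d_al.B.Defs

set_option autoImplicit false

/-!
The dual frame in the coordinates of the chart.
-/

namespace Pool.Agent.Lib.MP_0c623d_al.BP.B.Pos

open Matrix Filter Topology Asymptotics

noncomputable section

/-- inverse difference -/
def iv (a : Cf) (i j : Fin 4) : ℂ := (a i - a j)⁻¹

def gx (a : Cf) (i : Fin 4) : ℂ := iv a i 2 * iv a i 3

def hy (a : Cf) (j : Fin 4) : ℂ := iv a 0 j * iv a 1 j

def G0 (a : Cf) : ℂ := (a 2 + a 3 - a 0 - a 1) * (gx a 0 * gx a 1)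

def G1 (a : Cf) : ℂ := a 0 * G0 a + gx a 1

def H1 (a : Cf) : ℂ := a 2 * (-G0 a) + hy a 3

def S4 (a : Cf) (l : Fin 3 → ℂ) : ℂ :=
  (G0 a * G0 a) * ell l 0 0 + (G1 a * G0 a - G0 a * H1 a) * (ell l 1 0 - ell l 0 0) -
    (G1 a * H1 a) * (ell l 1 1 - ell l 1 0 - ell l 1 0 + ell l 0 0)

theorem rows (a : Cf) (ha : Function.Injective a) (l : Fin 3 → ℂ) :
    Tm *ᵥ Srow a l = ![gx a 0 * gx a 1 * ell l (a 0) (a 1) / (a 1 - a 0) ^ 2 + S4 a l / 4,
      hy a 2 * hy a 3 * ell l (a 2) (a 3) / (a 3 - a 2) ^ 2 + S4 a l / 4, S4 a l,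
      (gx a 0 * hy a 2 * ell l (a 0) (a 2) + gx a 0 * hy a 3 * ell l (a 0) (a 3) +
        gx a 1 * hy a 2 * ell l (a 1) (a 2) + gx a 1 * hy a 3 * ell l (a 1) (a 3)) /
        (4 * (a 1 - a 0) * (a 3 - a 2)),
      (gx a 0 * hy a 3 * (ell l (a 0) 1 - ell l (a 0) 0) - gx a 0 * G0 a * ell l (a 0) (a 2) +
        gx a 1 * hy a 3 * (ell l (a 1) 1 - ell l (a 1) 0) - gx a 1 * G0 a * ell l (a 1) (a 2)) /
        (2 * (a 1 - a 0)),
      -(hy a 2 * gx a 1 * (ell l (a 2) 1 - ell l (a 2) 0) + hy a 2 * G0 a * ell l (a 2) (a 0) +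
        hy a 3 * gx a 1 * (ell l (a 3) 1 - ell l (a 3) 0) + hy a 3 * G0 a * ell l (a 3) (a 0)) /
        (2 * (a 3 - a 2))] := by
  have h : ∀ i j : Fin 4, i ≠ j → a i - a j ≠ 0 := fun i j h => sub_ne_zero.2 (ha.ne h)
  have h01 := h 0 1 (by decide)
  have h02 := h 0 2 (by decide)
  have h03 := h 0 3 (by decide)
  have h12 := h 1 2 (by decide)
  have h13 := h 1 3 (by decide)
  have h23 := h 2 3 (by decide)
  have h10 := h 1 0 (by decide)
  have h20 := h 2 0 (by decide)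
  have h30 := h 3 0 (by decide)
  have h21 := h 2 1 (by decide)
  have h31 := h 3 1 (by decide)
  have h32 := h 3 2 (by decide)
  ext p
  fin_cases p <;>
    simp [Tm, mulVec, dotProduct, Fin.sum_univ_six, Srow, S4, G1, H1, G0, gx, hy, iv, cw, Pc, ell,
      fst, snd, cpl] <;> field_simp <;> ring

end

end Pool.Agent.Lib.MP_0c623d_al.BP.B.Pos
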