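import Pool.Agent.Lib.MP_0c623d_al.B.Gauge
import Pool.Agent.Lib.MP_0c623d_al.BP.Conn
import Pool.Agent.Lib.MP_caab05_ag.GB.Osg

set_option autoImplicit false

/-!
The regular system is analytic and flat on the chart; its frames.
-/

namespace Pool.Agent.Lib.MP_0c623d_al.BP.B

open Matrix Filter Topology Set
open scoped Matrix.Norms.Operator

noncomputable section

/-- `Z` solves the regular system at `x` -/
def SolR (j : ℕ) (e : ℝ) (Z : X3 → M6) (x : X3) : Prop :=
  ∃ L : X3 →L[ℂ] M6, (∀ v, L v = Am j e x v * Z x) ∧ HasFDerivAt Z L x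

theorem an_coord (i : Fin 3) (x : X3) : AnalyticAt ℂ (fun y : X3 => y i) x :=
  (ContinuousLinearMap.proj (R := ℂ) (φ := fun _ : Fin 3 => ℂ) i).analyticAt x

theorem an_LL (j : ℕ) (s t : ℂ) (x : X3) : AnalyticAt ℂ (LL j s t) x :=
  ((an_coord 2 x).sub (analyticAt_const.mul (((an_coord 0 x).pow _).div_const))).add
    (analyticAt_const.mul (((an_coord 1 x).pow _).div_const))

theorem isOpen_Om (j : ℕ) : IsOpen (Om j) := by
  have h : ∀ s t, IsOpen {x | LL j s t x ≠ 0} := fun s t =>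
    isOpen_ne_fun (continuous_iff_continuousAt.2 fun x => (an_LL j s t x).continuousAt)
      continuous_const
  exact (h _ _).inter ((h _ _).inter ((h _ _).inter (h _ _)))

theorem an_TT {j : ℕ} {x : X3} (hx : x ∈ Om j) (a b : Fin 2) :
    AnalyticAt ℂ (fun y => TT j y a b) x := by
  obtain ⟨h1, h2, h3, h4⟩ := hx
  have k1 := (an_LL j _ _ x).fun_inv h1
  have k2 := (an_LL j _ _ x).fun_inv h2
  have k3 := (an_LL j _ _ x).fun_inv h3
  have k4 := (an_LL j _ _ x).fun_inv h4
  fin_cases a <;> fin_cases b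
  · exact ((k1.add k2).add k3).add k4
  · exact (k1.mul k2).neg.sub (k3.mul k4)
  · exact (k1.mul k3).add (k2.mul k4)
  · exact (analyticAt_const.mul (an_coord 2 x)).mul (((k1.mul k2).mul k3).mul k4)

theorem an_mat {E : Type*} [NormedAddCommGroup E] [NormedSpace ℂ E] {F : E → M6} {x : E}
    (h : ∀ p q, AnalyticAt ℂ (fun y => F y p q) x) : AnalyticAt ℂ F x := by
  have : F = fun y => ∑ p, ∑ q, F y p q • Matrix.single p q (1 : ℂ) := by
    funext y
    conv_lhs => rw [Matrix.matrix_eq_sum_single (F y)]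
    simp
  rw [this]
  exact Finset.analyticAt_fun_sum _ fun p _ => Finset.analyticAt_fun_sum _ fun q _ =>
    (h p q).smul analyticAt_const

theorem an_ite (c : Prop) [Decidable c] (a : ℂ) (i : Fin 3) (n : ℕ) (x : X3) :
    AnalyticAt ℂ (fun y : X3 => if c then a * y i ^ n else 0) x := by
  split_ifs
  · exact analyticAt_const.mul ((an_coord i x).pow _)
  · exact analyticAt_const

theorem an_A0 {j : ℕ} (e : ℝ) {x : X3} (hx : x ∈ Om j) : AnalyticAt ℂ (A0 j e) x :=
  an_mat fun _ _ => (((analyticAt_const.mul ((an_coord 0 x).pow _)).mul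
    ((an_coord 1 x).pow _)).mul (an_TT hx _ _)).add (an_ite _ _ _ _ x)

theorem an_A1 {j : ℕ} (e : ℝ) {x : X3} (hx : x ∈ Om j) : AnalyticAt ℂ (A1 j e) x :=
  an_mat fun _ _ => (((analyticAt_const.mul ((an_coord 0 x).pow _)).mul
    ((an_coord 1 x).pow _)).mul (an_TT hx _ _)).add (an_ite _ _ _ _ x)

theorem an_A2 {j : ℕ} (e : ℝ) {x : X3} (hx : x ∈ Om j) : AnalyticAt ℂ (A2 j e) x :=
  an_mat fun _ _ => ((analyticAt_const.mul ((an_coord 0 x).pow _)).mul
    ((an_coord 1 x).pow _)).mul (an_TT hx _ _)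

theorem an_Am {j : ℕ} (e : ℝ) {x : X3} (hx : x ∈ Om j) (v : X3) :
    AnalyticAt ℂ (fun y => Am j e y v) x :=
  (((an_A0 e hx).const_smul (c := v 0)).add ((an_A1 e hx).const_smul (c := v 1))).add
    ((an_A2 e hx).const_smul (c := v 2))

/-- the regular system as a linear map -/
def AL (j : ℕ) (e : ℝ) (x : X3) : X3 →L[ℂ] M6 :=
  (ContinuousLinearMap.proj (R := ℂ) (φ := fun _ : Fin 3 => ℂ) 0).smulRight (A0 j e x) +
    (ContinuousLinearMap.proj (R := ℂ) (φ := fun _ : Fin 3 => ℂ) 1).smulRight (A1 j e x) +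
    (ContinuousLinearMap.proj (R := ℂ) (φ := fun _ : Fin 3 => ℂ) 2).smulRight (A2 j e x)

theorem AL_apply (j : ℕ) (e : ℝ) (x v : X3) : AL j e x v = Am j e x v := rfl

theorem SolR_iff {j : ℕ} {e : ℝ} {Z : X3 → M6} {x : X3} : SolR j e Z x ↔
    HasFDerivAt Z ((ContinuousLinearMap.mul ℂ M6).flip (Z x) ∘L AL j e x) x := by
  constructor
  · rintro ⟨L, hL, h⟩
    refine h.congr_fderiv (ContinuousLinearMap.ext fun v => ?_)
    rw [hL]; rfl
  · exact fun h => ⟨_, fun _ => rfl, h⟩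

theorem an_cfg (j : ℕ) (x : X3) : AnalyticAt ℂ (cfg j) x := by
  refine analyticAt_pi_iff.2 fun i => ?_
  fin_cases i
  · exact (((an_coord 0 x).pow _).div_const).neg
  · exact ((an_coord 0 x).pow _).div_const
  · exact (an_coord 2 x).sub (((an_coord 1 x).pow _).div_const)
  · exact (an_coord 2 x).add (((an_coord 1 x).pow _).div_const)

theorem fderiv_line {F : Type*} [NormedAddCommGroup F] [NormedSpace ℂ F] {f : X3 → F} {x v : X3}
    {w : F} (hf : DifferentiableAt ℂ f x) (h : HasDerivAt (fun s : ℂ => f (x + s • v)) w 0) :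
    fderiv ℂ f x v = w := by
  have h1 : HasDerivAt (fun s : ℂ => x + s • v) v 0 := by
    simpa using ((hasDerivAt_id (0 : ℂ)).smul_const v).const_add x
  have h2 : HasFDerivAt f (fderiv ℂ f x) (x + (0 : ℂ) • v) := by simpa using hf.hasFDerivAt
  exact (h2.comp_hasDerivAt 0 h1).unique h

theorem line_pow (a b : ℂ) (n : ℕ) :
    HasDerivAt (fun s : ℂ => (a + s * b) ^ n) (n * a ^ (n - 1) * b) 0 := by
  simpa using (((hasDerivAt_id (0 : ℂ)).mul_const b).const_add a).fun_pow n

theorem fderiv_cfg (j : ℕ) (x v : X3) : fderiv ℂ (cfg j) x v = dcfg j x v := by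
  refine fderiv_line (an_cfg j x).differentiableAt (hasDerivAt_pi.2 fun i => ?_)
  have h0 := (line_pow (x 0) (v 0) (2 * j + 1)).div_const 2
  have h1 := (line_pow (x 1) (v 1) (2 * j + 1)).div_const 2
  have h2 : HasDerivAt (fun s : ℂ => x 2 + s * v 2) (v 2) 0 := by
    simpa using ((hasDerivAt_id (0 : ℂ)).mul_const (v 2)).const_add (x 2)
  simp only [Nat.add_sub_cancel, Nat.cast_add, Nat.cast_mul, Nat.cast_ofNat, Nat.cast_one] at h0 h1
  fin_cases i
  · exact h0.neg
  · exact h0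
  · exact h2.sub h1
  · exact h2.add h1

theorem an_gg (j : ℕ) (x : X3) : AnalyticAt ℂ (gg j) x := by
  refine AnalyticAt.mul (an_mat fun p q => ?_) analyticAt_const
  simp only [diagonal_apply]
  split_ifs
  · exact ((an_coord 0 x).pow _).mul ((an_coord 1 x).pow _)
  · exact analyticAt_const

theorem fderiv_gg (j : ℕ) {x : X3} (h0 : x 0 ≠ 0) (h1 : x 1 ≠ 0) (v : X3) :
    fderiv ℂ (gg j) x v = diagonal (fun p => sh j x p * lsh j x v p) * Tm := by
  refine fderiv_line (an_gg j x).differentiableAt (HasDerivAt.mul_const ?_ Tm)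
  have h : ∀ p, HasDerivAt (fun s : ℂ => sh j (x + s • v) p) (sh j x p * lsh j x v p) 0 := by
    intro p
    have := (line_pow (x 0) (v 0) (K1 j p)).mul (line_pow (x 1) (v 1) (K2 j p))
    refine this.congr_deriv ?_
    have k : ∀ (a : ℂ) (n : ℕ), a ≠ 0 → (n : ℂ) * a ^ (n - 1) = n * a ^ n / a := by
      intro a n ha
      rcases n with _ | n
      · simp
      · rw [Nat.add_sub_cancel, pow_succ]; field_simp
    rw [k _ _ h0, k _ _ h1]
    simp only [sh, lsh]
    ring
  exact (LinearMap.toContinuousLinearMap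
    (diagonalLinearMap (Fin 6) ℂ ℂ)).hasFDerivAt.comp_hasDerivAt 0 (hasDerivAt_pi.2 h)

theorem cfg_inj {j : ℕ} {x : X3} (hx : x ∈ Om j) (h0 : x 0 ≠ 0) (h1 : x 1 ≠ 0) :
    Function.Injective (cfg j x) := by
  obtain ⟨k1, k2, k3, k4⟩ := hx
  have p0 := pow_ne_zero (2 * j + 1) h0
  have p1 := pow_ne_zero (2 * j + 1) h1
  simp only [LL] at k1 k2 k3 k4
  intro a b hab
  fin_cases a <;> fin_cases b <;> simp only [cfg] at hab <;> simp at hab ⊢
  all_goals first
    | exact p0 (by linear_combination hab) | exact p0 (by linear_combination -hab)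
    | exact p1 (by linear_combination hab) | exact p1 (by linear_combination -hab)
    | exact k1 (by linear_combination hab) | exact k1 (by linear_combination -hab)
    | exact k2 (by linear_combination hab) | exact k2 (by linear_combination -hab)
    | exact k3 (by linear_combination hab) | exact k3 (by linear_combination -hab)
    | exact k4 (by linear_combination hab) | exact k4 (by linear_combination -hab)

theorem gg_unit (j : ℕ) {x : X3} (h0 : x 0 ≠ 0) (h1 : x 1 ≠ 0) : IsUnit (gg j x) := by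
  refine IsUnit.mul ?_ ⟨⟨Tm, Ti, Tm_Ti, Ti_Tm⟩, rfl⟩
  rw [isUnit_iff_isUnit_det, det_diagonal, isUnit_iff_ne_zero]
  exact Finset.prod_ne_zero_iff.2 fun p _ => mul_ne_zero (pow_ne_zero _ h0) (pow_ne_zero _ h1)

/-- A solution of the Pfaffian system gives a solution of the regular system. -/
theorem gauge_sol {j : ℕ} (hj : 1 ≤ j) {e : ℝ} (he : (4 * j + 2) * e = 1) {x : X3}
    (hx : x ∈ Om j) (h0 : x 0 ≠ 0) (h1 : x 1 ≠ 0) {Y : Cf → M6}
    (hY : ∃ L : Cf →L[ℂ] M6, (∀ v, L v = conn e (cfg j x) v * Y (cfg j x)) ∧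
      HasFDerivAt Y L (cfg j x)) : SolR j e (fun y => gg j y * Y (cfg j y)) x := by
  obtain ⟨L, hL, hY⟩ := hY
  refine ⟨_, fun v => ?_, (an_gg j x).differentiableAt.hasFDerivAt.mul'
    (hY.comp x (an_cfg j x).differentiableAt.hasFDerivAt)⟩
  change gg j x * L (fderiv ℂ (cfg j) x v) + fderiv ℂ (gg j) x v * Y (cfg j x) = _
  rw [hL, fderiv_cfg, fderiv_gg j h0 h1, ← mul_assoc (Am j e x v), gauge hj he hx h0 h1, add_mul,
    add_comm, mul_assoc (gg j x)]

theorem diff_clm {A : Type*} [NormedRing A] [NormedAlgebra ℂ A] {f : X3 → X3 →L[ℂ] A} {U : Set X3}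
    (hU : IsOpen U) (h : ∀ v, ContDiffOn ℂ 1 (fun y => f y v) U) {x : X3} (hx : x ∈ U) :
    DifferentiableAt ℂ f x :=
  ((contDiffOn_clm_apply.2 h).contDiffAt (hU.mem_nhds hx)).differentiableAt (by simp)

theorem flat_alg {A : Type*} [NormedRing A] [NormedAlgebra ℂ A] {f : X3 → X3 →L[ℂ] A} {x : X3}
    (hf : DifferentiableAt ℂ f x) {Z : X3 → A}
    (hZ : ∀ᶠ y in 𝓝 x, HasFDerivAt Z ((ContinuousLinearMap.mul ℂ A).flip (Z y) ∘L f y) y)
    (hu : IsUnit (Z x)) (u v : X3) :
    fderiv ℂ (fun y => f y v) x u - fderiv ℂ (fun y => f y u) x v =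
      f x u * f x v - f x v * f x u := by
  have h0 := hZ.self_of_nhds
  have h1 : DifferentiableAt ℂ
      (fun y => (ContinuousLinearMap.mul ℂ A).flip (Z y) ∘L f y) x :=
    (((ContinuousLinearMap.mul ℂ A).flip.differentiableAt).comp x h0.differentiableAt).clm_comp hf
  have h2 := second_derivative_symmetric_of_eventually hZ h1.hasFDerivAt u v
  have h3 : ∀ u v, fderiv ℂ (fun y => (ContinuousLinearMap.mul ℂ A).flip (Z y) ∘L f y) x u v =
      f x v * (f x u * Z x) + fderiv ℂ (fun y => f y v) x u * Z x := by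
    intro u v
    have k1 := h1.hasFDerivAt.clm_apply (hasFDerivAt_const v x)
    have k2 := (hf.clm_apply (differentiableAt_const v)).hasFDerivAt.mul' h0
    have k3 := congrArg (fun L => L u) (k1.unique k2)
    simpa using k3
  rw [h3, h3] at h2
  refine hu.mul_right_cancel ?_
  rw [sub_mul, sub_mul, mul_assoc, mul_assoc]
  linear_combination (norm := abel1) h2

theorem flat_of_sol {j : ℕ} {e : ℝ} {x : X3} (hx : x ∈ Om j) {Z : X3 → M6}
    (hZ : ∀ᶠ y in 𝓝 x, SolR j e Z y) (hu : IsUnit (Z x)) (u v : X3) :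
    fderiv ℂ (fun y => Am j e y v) x u - fderiv ℂ (fun y => Am j e y u) x v =
      Am j e x u * Am j e x v - Am j e x v * Am j e x u := by
  simp only [SolR_iff] at hZ
  exact flat_alg (f := AL j e) (diff_clm (isOpen_Om j)
    (fun v y hy => (an_Am e hy v).contDiffAt.contDiffWithinAt) hx) hZ hu u v

theorem dense_ne : Dense {x : X3 | x 0 ≠ 0 ∧ x 1 ≠ 0} := by
  have h : ∀ i : Fin 3, Dense {x : X3 | x i ≠ 0} := fun i =>
    (dense_compl_singleton (0 : ℂ)).preimage (isOpenMap_eval (X := fun _ : Fin 3 => ℂ) i)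
  exact (h 0).inter_of_isOpen_left (h 1) (isOpen_ne_fun (continuous_apply 0) continuous_const)

/-- A function continuous at `x` that vanishes off the mirrors near `x` vanishes at `x`. -/
theorem eq_of_ne {F : Type*} [TopologicalSpace F] [T2Space F] {f g : X3 → F} {x : X3}
    (hf : ContinuousAt f x) (hg : ContinuousAt g x)
    (h : ∀ᶠ y in 𝓝 x, y 0 ≠ 0 → y 1 ≠ 0 → f y = g y) : f x = g x := by
  have hn : (𝓝[{x : X3 | x 0 ≠ 0 ∧ x 1 ≠ 0}] x).NeBot :=
    mem_closure_iff_nhdsWithin_neBot.1 (dense_ne x)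
  refine tendsto_nhds_unique_of_eventuallyEq (l := 𝓝[{x : X3 | x 0 ≠ 0 ∧ x 1 ≠ 0}] x)
    (hf.tendsto.mono_left nhdsWithin_le_nhds) (hg.tendsto.mono_left nhdsWithin_le_nhds) ?_
  filter_upwards [self_mem_nhdsWithin, nhdsWithin_le_nhds h] with y hy hy'
  exact hy' hy.1 hy.2

theorem isOpen_inj : IsOpen {a : Cf | Function.Injective a} := by
  have : {a : Cf | Function.Injective a} = ⋂ i, ⋂ l, {a : Cf | i = l ∨ a i ≠ a l} := by
    ext a
    simp only [mem_ofPred_eq, mem_iInter]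
    exact ⟨fun h i l => (em (i = l)).imp_right fun k => h.ne k,
      fun h i l k => (h i l).resolve_right (not_not.2 k)⟩
  rw [this]
  refine isOpen_iInter_of_finite fun i => isOpen_iInter_of_finite fun l => ?_
  by_cases h : i = l
  · simp [h]
  · simpa [h] using isOpen_ne_fun (continuous_apply i) (continuous_apply (A := fun _ => ℂ) l)

/-- The regular system is flat. -/
theorem flat {j : ℕ} (hj : 1 ≤ j) {e : ℝ} (he : (4 * j + 2) * e = 1) {x : X3} (hx : x ∈ Om j)
    (u v : X3) : fderiv ℂ (fun y => Am j e y v) x u - fderiv ℂ (fun y => Am j e y u) x v =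
      Am j e x u * Am j e x v - Am j e x v * Am j e x u := by
  have c1 : ∀ v, ContinuousAt (fun y => Am j e y v) x := fun v => (an_Am e hx v).continuousAt
  have c2 : ∀ u v, ContinuousAt (fun z => fderiv ℂ (fun y => Am j e y v) z u) x := fun u v =>
    (an_Am e hx v).fderiv.continuousAt.clm_apply continuousAt_const
  refine eq_of_ne (f := fun z => fderiv ℂ (fun y => Am j e y v) z u -
    fderiv ℂ (fun y => Am j e y u) z v) (g := fun z => Am j e z u * Am j e z v -
      Am j e z v * Am j e z u) ((c2 u v).sub (c2 v u))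
    (((c1 u).mul (c1 v)).sub ((c1 v).mul (c1 u))) ?_
  filter_upwards [(isOpen_Om j).mem_nhds hx] with y hy h0 h1
  obtain ⟨r, hr, hb⟩ := Metric.isOpen_iff.1 isOpen_inj _ (cfg_inj hy h0 h1)
  obtain ⟨Y, -, hY⟩ := conn_frame e Metric.isOpen_ball (Metric.mem_ball_self hr)
    ((convex_ball _ _).starConvex (Metric.mem_ball_self hr)) hb
  refine flat_of_sol hy (Z := fun z => gg j z * Y (cfg j z)) ?_
    ((gg_unit j h0 h1).mul (hY _ (Metric.mem_ball_self hr)).1) u v
  filter_upwards [(isOpen_Om j).mem_nhds hy,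
    (an_cfg j y).continuousAt.preimage_mem_nhds (Metric.ball_mem_nhds _ hr),
    (continuous_apply 0).continuousAt.eventually_ne h0,
    (continuous_apply 1).continuousAt.eventually_ne h1] with z hz hz' z0 z1
  exact gauge_sol hj he hz z0 z1 (hY _ hz').2

/-- Frames of the regular system on star-shaped parts of the chart. -/
theorem frame_star {j : ℕ} (hj : 1 ≤ j) {e : ℝ} (he : (4 * j + 2) * e = 1) {U : Set X3}
    (hU : IsOpen U) {x0 : X3} (h0 : x0 ∈ U) (hc : StarConvex ℝ x0 U) (hO : U ⊆ Om j) :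
    ∃ Z : X3 → M6, Z x0 = 1 ∧ AnalyticOnNhd ℂ Z U ∧ ∀ x ∈ U, IsUnit (Z x) ∧ SolR j e Z x := by
  obtain ⟨Z, Z0, hZ⟩ := flat_frame' hU h0 hc (Om := AL j e)
    (fun v y hy => (an_Am e (hO hy) v).contDiffAt.contDiffWithinAt)
    (fun y hy u v => flat hj he (hO hy) u v)
  refine ⟨Z, Z0, ?_, fun x hx => ⟨(hZ x hx).1, SolR_iff.2 (hZ x hx).2⟩⟩
  exact MP_caab05_ag.GB.osg X3 M6 Z U hU fun x hx =>
    (hZ x hx).2.differentiableAt.differentiableWithinAt

end

end Pool.Agent.Lib.MP_0c623d_al.BP.B
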