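import Pool.Agent.Lib.MP_0c623d_al.B.Defs

set_option autoImplicit false

/-!
The residues in the new frame.
-/

namespace Pool.Agent.Lib.MP_0c623d_al.BP.B

open Matrix

noncomputable section

/-- the residue along `01` in the new frame -/
def R0 (e : ℝ) : M6 :=
  !![4 * al e + be e, 0, -be e / 4, 0, 0, 0; 0, 0, 0, 0, 0, 0; 0, 0, 0, 0, 0, 0;
    0, 0, 0, 2 * al e, 0, 0; 0, 0, 0, 0, 2 * al e, 0; 0, 0, 0, 0, 0, 0]

/-- the residue along `23` in the new frame -/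
def R5 (e : ℝ) : M6 :=
  !![0, 0, 0, 0, 0, 0; 0, 4 * al e + be e, -be e / 4, 0, 0, 0; 0, 0, 0, 0, 0, 0;
    0, 0, 0, 2 * al e, 0, 0; 0, 0, 0, 0, 0, 0; 0, 0, 0, 0, 0, 2 * al e]

/-- the residues along the cross pairs in the new frame -/
def Gs (e : ℝ) (s t : ℂ) : M6 := of fun p q =>
  gam e p q * (s ^ ((p1 p + p1 q : Fin 2) : ℕ) * t ^ ((p2 p + p2 q : Fin 2) : ℕ))

theorem Tm_R0 (e : ℝ) : Tm * Res e 0 = R0 e * Tm := by
  ext p q
  fin_cases p <;> fin_cases q <;>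
    simp [Tm, Res, ResA, R0, Matrix.mul_apply, Fin.sum_univ_six] <;> ring

theorem Tm_R5 (e : ℝ) : Tm * Res e 5 = R5 e * Tm := by
  ext p q
  fin_cases p <;> fin_cases q <;>
    simp [Tm, Res, ResA, R5, Matrix.mul_apply, Fin.sum_univ_six] <;> ring

theorem Tm_R1 (e : ℝ) : Tm * Res e 1 = Gs e (-1) (-1) * Tm := by
  ext p q
  fin_cases p <;> fin_cases q <;>
    simp [Tm, Res, ResA, Gs, gam, p1, p2, Matrix.mul_apply, Fin.sum_univ_six] <;> ring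

theorem Tm_R2 (e : ℝ) : Tm * Res e 2 = Gs e (-1) 1 * Tm := by
  ext p q
  fin_cases p <;> fin_cases q <;>
    simp [Tm, Res, ResA, Gs, gam, p1, p2, Matrix.mul_apply, Fin.sum_univ_six] <;> ring

theorem Tm_R3 (e : ℝ) : Tm * Res e 3 = Gs e 1 (-1) * Tm := by
  ext p q
  fin_cases p <;> fin_cases q <;>
    simp [Tm, Res, ResA, Gs, gam, p1, p2, Matrix.mul_apply, Fin.sum_univ_six] <;> ring

theorem Tm_R4 (e : ℝ) : Tm * Res e 4 = Gs e 1 1 * Tm := by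
  ext p q
  fin_cases p <;> fin_cases q <;>
    simp [Tm, Res, ResA, Gs, gam, p1, p2, Matrix.mul_apply, Fin.sum_univ_six] <;> ring

/-- the symmetric sums -/
def SS (j : ℕ) (x : X3) (a b : Fin 2) : ℂ :=
  (LL j 1 1 x)⁻¹ + (-1) ^ (b : ℕ) * (LL j 1 (-1) x)⁻¹ + (-1) ^ (a : ℕ) * (LL j (-1) 1 x)⁻¹ +
    (-1) ^ (a : ℕ) * (-1) ^ (b : ℕ) * (LL j (-1) (-1) x)⁻¹

theorem SS_eq {j : ℕ} {x : X3} (hx : x ∈ Om j) (a b : Fin 2) :
    SS j x a b = (x 0 ^ (2 * j + 1)) ^ (a : ℕ) * (x 1 ^ (2 * j + 1)) ^ (b : ℕ) * TT j x a b := by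
  obtain ⟨h1, h2, h3, h4⟩ := hx
  have e1 : x 0 ^ (2 * j + 1) = LL j (-1) 1 x - LL j 1 1 x := by simp only [LL]; ring
  have e2 : x 1 ^ (2 * j + 1) = LL j 1 1 x - LL j 1 (-1) x := by simp only [LL]; ring
  have e3 : x 2 = (LL j 1 (-1) x + LL j (-1) 1 x) / 2 := by simp only [LL]; ring
  have e4 : LL j (-1) (-1) x = LL j 1 (-1) x + LL j (-1) 1 x - LL j 1 1 x := by
    simp only [LL]; ring
  rw [e1, e2]
  have h5 := h4
  rw [e4] at h5
  fin_cases a <;> fin_cases b <;> simp [SS, TT]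
  · rw [e4]; field_simp; ring
  · rw [e4]; field_simp; ring
  · rw [e3, e4]; field_simp; ring

end

end Pool.Agent.Lib.MP_0c623d_al.BP.B
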