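import Pool.Agent.Lib.MP_0c623d_al.BP.Sk
import Pool.Agent.Lib.MP_0c623d_al.BP.Signs
import Pool.Agent.Lib.MP_0c623d_al.F.Rot
import Pool.Agent.Lib.MP_0c623d_al.F.Split

set_option autoImplicit false

/-!
The signs at the centre of a chart, from the sign of the period vector off the mirrors.
-/

namespace Pool.Agent.Lib.MP_0c623d_al.BP

open Complex Matrix Filter Topology Set Function
open Pool.Agent.BP.F (V Mat E3 hh cfg Adm pw Spacelike analytic_pw analytic_cfg)
open Pool.Agent.BP.F.Spl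

namespace Spc

theorem herm_hh {Hm : Mat} (h : Hm.IsHermitian) : Herm fun u v : V => hh Hm v u :=
  ⟨fun u v w => hh_add_right Hm w u v, fun c u v => hh_smul_right Hm c v u,
    fun u v => hh_conj h v u⟩

theorem cont_hh (Hm : Mat) : Continuous fun v : V => (hh Hm v v).re := by
  unfold hh
  fun_prop

theorem hh_mul (Hm P : Mat) (x y : V) : hh (Pᴴ * Hm * P) x y = hh Hm (P *ᵥ x) (P *ᵥ y) := by
  unfold hh
  rw [star_mulVec, ← mulVec_mulVec, ← mulVec_mulVec, dotProduct_mulVec]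

theorem qf_tr (X : Mat) (x y : V) : qf Xᵀ x y = hh X y x := by
  unfold qf hh
  rw [mulVec_transpose, dotProduct_comm, dotProduct_mulVec]

/-- configurations of distinct points are dense in a chart -/
theorem freq_inj (k : ℕ) (d0 ζ : E3) : ∃ᶠ η in 𝓝 ζ, Injective (cfg (pw k d0 η)) := by
  let D : E3 → ℂ := fun η => ∏ n : Fin 6, (cfg (pw k d0 η) (fst n) - cfg (pw k d0 η) (snd n))
  have hA : ∀ η, AnalyticAt ℂ D η := fun η => by
    have h := analyticAt_pi_iff.1 ((analytic_cfg _).comp (analytic_pw (k := k) d0 η))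
    exact Finset.analyticAt_fun_prod _ fun n _ => (h _).sub (h _)
  by_contra hc
  rw [not_frequently] at hc
  have h0 : D =ᶠ[𝓝 ζ] 0 := by
    filter_upwards [hc] with η h
    by_contra hne
    refine h fun i j hij => ?_
    have h6 := Finset.prod_ne_zero_iff.1 hne
    by_contra hne2
    have key : ∀ i j : Fin 4, i ≠ j → (fst (ix i j) = i ∧ snd (ix i j) = j) ∨
        (fst (ix i j) = j ∧ snd (ix i j) = i) := by decide
    have := h6 (ix i j) (Finset.mem_univ _)
    rcases key i j hne2 with ⟨a, b⟩ | ⟨a, b⟩ <;> rw [a, b, hij, sub_self] at this <;>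
      exact this rfl
  have h1 := AnalyticOnNhd.eq_of_eventuallyEq (fun η _ => hA η) analyticOnNhd_const h0
  have h2 : D 1 = 0 := congrFun h1 1
  have h3 : pw k d0 1 = 1 := by funext p; simp [pw]
  obtain ⟨n, -, hn⟩ := Finset.prod_eq_zero_iff.1 h2
  rw [h3] at hn
  fin_cases n <;> simp [cfg, fst, snd] at hn <;> norm_num at hn

/-- the abstract statement -/
theorem spc_of {Hm : Mat} (hH : Hm.IsHermitian) (hU : IsUnit Hm)
    (hN : ∃ I : Submodule ℂ V, 2 ≤ Module.finrank ℂ I ∧ ∀ x ∈ I, (hh Hm x x).re ≤ 0)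
    {Gc : E3 → V} {d0 : E3} (hd : DifferentiableAt ℂ Gc d0)
    (hp : ∀ᶠ ζ in 𝓝 d0, 0 ≤ (hh Hm (Gc ζ) (Gc ζ)).re) (hi : Injective (fderiv ℂ Gc d0))
    (he : ∃ v, fderiv ℂ Gc d0 v = Gc d0) {U : Submodule ℂ V} (h3 : Module.finrank ℂ U = 3)
    (hpos : ∀ u ∈ U, u ≠ 0 → 0 < (hh Hm u u).re)
    (ho : ∀ u ∈ U, ∀ v, hh Hm u (fderiv ℂ Gc d0 v) = 0) :
    Spacelike Hm (Gc d0) (fderiv ℂ Gc d0) := by
  have H := herm_hh hH
  let F : Submodule ℂ V := LinearMap.range (fderiv ℂ Gc d0).toLinearMap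
  have P : Pt (fun u v : V => hh Hm v u) F U := by
    refine ⟨H, by simp, fun v hv => ?_, hN, ?_, h3, hpos, ?_⟩
    · have h1 : star v ᵥ* Hm = 0 := by
        funext i
        have := hv (Pi.single i 1)
        simp only [hh] at this
        rw [dotProduct_mulVec, dotProduct_single_one] at this
        exact this
      have h2 := (vecMul_injective_iff_isUnit.2 hU) (h1.trans (zero_vecMul Hm).symm)
      exact star_eq_zero.1 h2
    · rw [LinearMap.finrank_range_of_inj hi]; simp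
    · rintro _ ⟨v, rfl⟩ u hu
      exact ho u hu v
  have hw : Gc d0 ∈ F := he
  have loc : ∀ v, HasDerivAt (fun z : ℂ => Gc (d0 + z • v)) (fderiv ℂ Gc d0 v) 0 ∧
      ∀ᶠ z : ℂ in 𝓝 0, 0 ≤ (hh Hm (Gc (d0 + z • v)) (Gc (d0 + z • v))).re := fun v => by
    have h1 : HasDerivAt (fun z : ℂ => d0 + z • v) v 0 := by
      simpa using ((hasDerivAt_id (0 : ℂ)).smul_const v).const_add d0
    refine ⟨hd.hasFDerivAt.comp_hasDerivAt_of_eq 0 h1 (by simp), ?_⟩
    have h2 : Tendsto (fun z : ℂ => d0 + z • v) (𝓝 0) (𝓝 d0) := by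
      simpa using h1.continuousAt.tendsto
    exact h2.eventually hp
  have h0 : Gc d0 ≠ 0 := by
    intro hz
    have nn : ∀ t ∈ F, 0 ≤ 1 * (hh Hm t t).re := by
      rintro _ ⟨v, rfl⟩
      obtain ⟨a, b⟩ := loc v
      have c := ((cont_hh Hm).tendsto _).comp a.tendsto_slope_zero
      rw [one_mul]
      refine ge_of_tendsto c ?_
      filter_upwards [b.filter_mono nhdsWithin_le_nhds] with z hz2
      simp only [Function.comp, zero_add, zero_smul, add_zero, hz, sub_zero]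
      rw [H.re_smul]
      positivity
    have PF : Herm.Pos (fun u v : V => hh Hm v u) F := fun t ht t0 =>
      lt_of_le_of_ne (by simpa using nn t ht) fun e => t0 (P.rad ht fun x hx =>
        H.rad_of_semidef 1 (Or.inl rfl) nn ht e.symm hx)
    have h4 := P.pos_le (PF.sup H P.pos P.orth).1
    rw [P.sup_top, finrank_top, P.six] at h4
    omega
  have pos : 0 < (hh Hm (Gc d0) (Gc d0)).re := by
    refine lt_of_le_of_ne hp.self_of_nhds fun e => h0 (P.rad hw ?_)
    rintro _ ⟨v, rfl⟩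
    obtain ⟨a, b⟩ := loc v
    have := touch H a (by simpa using e.symm) b
    simpa using this
  refine ⟨pos, fun v hv o => P.tan_neg hw pos ⟨v, rfl⟩ o fun e => hv (hi ?_)⟩
  simpa using e

end Spc

variable {e : ℝ} {f : FR e}

/-- the signs at the centres of charts -/
theorem GR.sgn (k : ℕ) (g : GR f) (hN : g.Neg) (hp : ∀ a : Cf, Injective a → 0 ≤ g.phi a) :
    g.Sgn k := by
  rintro d0 Gc - ⟨h1, -, h3, h4, h5, U, h6, h7, h8⟩
  refine Spc.spc_of g.herm g.unitH hN h1.differentiableAt ?_ h4 h5 h6 h7 h8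
  filter_upwards [h3.eventually_nhds, h1.eventually_continuousAt] with ζ a b
  refine (isClosed_Ici (a := (0 : ℝ))).mem_of_frequently_of_tendsto ?_
    (((Spc.cont_hh g.Hm).tendsto _).comp b)
  refine ((Spc.freq_inj k d0 ζ).and_eventually a).mono fun η h => ?_
  simp only [Function.comp, mem_Ici]
  rw [h.2 h.1]
  exact hp _ h.1

/-- the plane of `NegSt` -/
theorem GR.neg_of (g : GR f) (h : ∃ a : Cf, Injective a ∧ ∃ x y : Fin 6 → ℂ, ∀ p q : ℂ,
    (p ≠ 0 ∨ q ≠ 0) → (qf (g.Gam a)ᵀ (p • x + q • y) (p • x + q • y)).re < 0) : g.Neg := by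
  obtain ⟨a, ha, x, y, h⟩ := h
  obtain ⟨P, -, hP⟩ := g.cong a ha
  simp only [Spc.qf_tr, hP, Spc.hh_mul, mulVec_add, mulVec_smul] at h
  have li : LinearIndependent ℂ ![P *ᵥ x, P *ᵥ y] := by
    refine LinearIndependent.pair_iff.2 fun p q hz => ?_
    by_contra hc
    have := h p q (not_and_or.1 hc)
    rw [hz] at this
    simp [hh] at this
  refine ⟨Submodule.span ℂ (range ![P *ᵥ x, P *ᵥ y]), ?_, fun z hz => ?_⟩
  · rw [finrank_span_eq_card li]; simp
  · obtain ⟨c, rfl⟩ := (Submodule.mem_span_range_iff_exists_fun ℂ).1 hz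
    simp only [Fin.sum_univ_two, cons_val_zero, cons_val_one]
    by_cases hc : c 0 ≠ 0 ∨ c 1 ≠ 0
    · exact (h _ _ hc).le
    · push Not at hc
      simp [hc.1, hc.2, hh]

/-- the signs at the centres of charts from `Sg` and the plane of `NegSt` -/
theorem GR.sgn_of (k : ℕ) (g : GR f) (hS : Sg fun a => (g.Gam a)ᵀ)
    (h : ∃ a : Cf, Injective a ∧ ∃ x y : Fin 6 → ℂ, ∀ p q : ℂ,
      (p ≠ 0 ∨ q ≠ 0) → (qf (g.Gam a)ᵀ (p • x + q • y) (p • x + q • y)).re < 0) : g.Sgn k :=
  g.sgn k (g.neg_of h) fun a ha => by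
    have := hS.pos a ha
    rw [Spc.qf_tr] at this
    exact this.le

end Pool.Agent.Lib.MP_0c623d_al.BP
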