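import Pool.Agent.Lib.MP_0c623d_al.B.Gram
import Pool.Agent.Lib.MP_0c623d_al.B.XDefs
import Pool.Agent.Lib.MP_0c623d_al.BP.Sk2

set_option autoImplicit false

/-!
The chart functions in the coordinates `(u₁, u₂, c)`.
-/

namespace Pool.Agent.Lib.MP_0c623d_al.BP.B

open Matrix Filter Topology Set Function Metric
open Pool.Agent.BP.F (V hh)
open scoped Matrix.Norms.Operator

noncomputable section

namespace Xc

variable {j : ℕ} {e : ℝ} {Z : X3 → M6} {x : X3}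

theorem diff_wr (j : ℕ) : Differentiable ℂ (wr j) := by
  refine differentiable_pi.2 fun i => ?_
  fin_cases i <;> simp [wr] <;> fun_prop

theorem cont_dwr (j : ℕ) (v : X3) : Continuous fun x => dwr j x v := by
  refine continuous_pi fun i => ?_
  fin_cases i <;> simp [dwr] <;> fun_prop

theorem dwr_euler (j : ℕ) (x : X3) :
    dwr j x ![x 0 / (2 * j + 1), x 1 / (2 * j + 1), x 2] = wr j x := by
  have h : (2 * j + 1 : ℂ) ≠ 0 := by exact_mod_cast (by omega : 2 * j + 1 ≠ 0)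
  funext i
  fin_cases i <;> simp [dwr, wr] <;> field_simp <;> ring

theorem dwr_smul (j : ℕ) (x v : X3) (c : ℂ) : dwr j x (c • v) = c • dwr j x v := by
  funext i
  fin_cases i <;> simp [dwr] <;> ring

theorem dwr_inj (hx : x ∈ Om j) {v : X3} (h : dwr j x v = 0) : v = 0 := by
  have hk : (2 * j + 1 : ℂ) ≠ 0 := by exact_mod_cast (by omega : 2 * j + 1 ≠ 0)
  have h0 := congrFun h 0
  have h1 := congrFun h 1
  have h2 := congrFun h 2
  have h3 := congrFun h 3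
  have h4 := congrFun h 4
  have h5 := congrFun h 5
  simp [dwr, hk] at h0 h1 h2 h3 h4 h5
  have : v 0 = 0 ∧ v 1 = 0 ∧ v 2 = 0 := by
    by_cases c : x 2 = 0
    · have := hx.1
      by_cases a : x 0 = 0
      · have b : x 1 ≠ 0 := fun b => this (by simp [LL, a, b, c])
        simp_all
      · simp_all
    · simp_all
  funext i
  fin_cases i <;> simp [this]

theorem der_row (h : Reg j e Z x) : DifferentiableAt ℂ (fun x => wr j x ᵥ* Z x) x := by
  obtain ⟨-, L, -, hd⟩ := h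
  exact (W.vmL.hasFDerivAt_of_bilinear (diff_wr j x).hasFDerivAt hd).differentiableAt

theorem fder_off (hj : 1 ≤ j) (he : (4 * j + 2) * e = 1) (hx : x ∈ Om j)
    (h : ∀ᶠ y in 𝓝 x, Reg j e Z y) (h0 : x 0 ≠ 0) (h1 : x 1 ≠ 0) (v : X3) :
    fderiv ℂ (fun x => wr j x ᵥ* Z x) x v = W.dg e • (dwr j x v ᵥ* Z x) := by
  have hx' := h.self_of_nhds
  obtain ⟨L, hL, hd⟩ := der_Bi hj he hx hx' h0 h1
  obtain ⟨L2, hL2, hd2⟩ := der_cfg j x
  have k1 := W.vmL.hasFDerivAt_of_bilinear (der_row hx').hasFDerivAt hd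
  have k2 := ((W.cw_der (cfg j x)).comp x hd2).congr_of_eventuallyEq
    (f₁ := fun y => W.vmL (wr j y ᵥ* Z y) (Bi j Z y)) (h.mono fun y hy => by
      simp only [W.vmL_apply, Function.comp]
      rw [vecMul_vecMul, Z_Bi hy, wr_gg])
  have k3 : (wr j x ᵥ* Z x) ᵥ* L v + fderiv ℂ (fun x => wr j x ᵥ* Z x) x v ᵥ* Bi j Z x =
      (2 : ℂ) • Bm (L2 v) (cfg j x) := congrArg (· v) (k1.unique k2)
  refine vecMul_injective_iff_isUnit.2 (Bi_unit hx' h0 h1) ?_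
  have k4 : dwr j x v ᵥ* gg j x = Bm (cfg j x) (dcfg j x v) := dwr_gg j x v
  simp only []
  rw [hL, hL2, vecMul_neg, vecMul_vecMul, ← mul_assoc, Z_Bi hx', ← vecMul_vecMul, wr_gg,
    W.cw_conn e (inj_of_om hx h0 h1), W.Bm_comm (dcfg j x v)] at k3
  rw [smul_vecMul, vecMul_vecMul, Z_Bi hx', k4]
  linear_combination (norm := module) k3

theorem freq_off (x : X3) : ∃ᶠ y in 𝓝 x, y 0 ≠ 0 ∧ y 1 ≠ 0 := by
  have h : Tendsto (fun t : ℂ => x + fun _ => t) (𝓝[≠] 0) (𝓝 x) := by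
    refine Tendsto.mono_left ?_ nhdsWithin_le_nhds
    exact Continuous.tendsto' (by fun_prop) _ _ (by funext i; simp)
  have k : ∀ c : ℂ, ∀ᶠ t in 𝓝[≠] (0 : ℂ), c + t ≠ 0 := fun c => by
    by_cases hc : c = 0
    · filter_upwards [self_mem_nhdsWithin] with t ht
      simpa [hc] using ht
    · exact (ContinuousAt.eventually_ne (g := fun t => c + t) (by fun_prop)
        (by simpa using hc)).filter_mono nhdsWithin_le_nhds
  exact h.frequently ((k (x 0)).and (k (x 1))).frequently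

theorem an_row {x0 : X3} {r : ℝ} (h : ∀ x ∈ ball x0 r, Reg j e Z x) :
    AnalyticOnNhd ℂ (fun x => wr j x ᵥ* Z x) (ball x0 r) :=
  Pool.Agent.Lib.MP_caab05_ag.GB.osg _ _ _ _ isOpen_ball fun y hy =>
    (der_row (h y hy)).differentiableWithinAt

theorem fder (hj : 1 ≤ j) (he : (4 * j + 2) * e = 1) {x0 : X3} {r : ℝ} (hr : 0 < r)
    (hb : ball x0 r ⊆ Om j) (h : ∀ x ∈ ball x0 r, Reg j e Z x) (v : X3) :
    fderiv ℂ (fun x => wr j x ᵥ* Z x) x0 v = W.dg e • (dwr j x0 v ᵥ* Z x0) := by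
  have c1 : ContinuousAt (fun y => fderiv ℂ (fun x => wr j x ᵥ* Z x) y v) x0 :=
    (an_row h x0 (mem_ball_self hr)).fderiv.continuousAt.clm_apply continuousAt_const
  obtain ⟨-, L, -, hd⟩ := h x0 (mem_ball_self hr)
  have c2 : ContinuousAt (fun y => W.dg e • (W.vmL (dwr j y v) (Z y))) x0 :=
    ((W.vmL.continuous.comp (cont_dwr j v)).continuousAt.clm_apply
      hd.continuousAt).const_smul (W.dg e)
  refine tendsto_nhds_unique_of_frequently_eq c1 c2 ?_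
  refine ((freq_off x0).and_eventually (isOpen_ball.eventually_mem
    (mem_ball_self hr)).eventually_nhds).mono fun y hy => ?_
  exact fder_off hj he (hb hy.2.self_of_nhds) (hy.2.mono h) hy.1.1 hy.1.2 v

theorem hh_inv {P H : M6} (hP : IsUnit P) (y : V) :
    hh (Pᴴ * H * P)⁻¹ (Pᴴ *ᵥ y) (Pᴴ *ᵥ y) = hh H⁻¹ y y := by
  have a := (isUnit_iff_isUnit_det _).1 hP
  have b := (isUnit_iff_isUnit_det _).1 ((isUnit_conjTranspose _).2 hP)
  rw [← hh_cong, conjTranspose_conjTranspose, Matrix.mul_inv_rev, Matrix.mul_inv_rev,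
    mul_nonsing_inv_cancel_left _ _ a, nonsing_inv_mul_cancel_right _ _ b]

theorem star_mulVec' (A : M6) (s : V) : star (A *ᵥ s) = Aᵀᴴ *ᵥ star s := by
  rw [star_mulVec, ← mulVec_transpose]
  rfl

theorem conj_sub (N : Submodule ℂ V) :
    ∃ N' : Submodule ℂ V, Module.finrank ℂ N' = Module.finrank ℂ N ∧ ∀ t ∈ N', star t ∈ N := by
  refine ⟨N.map (starLinearEquiv ℂ : V ≃ₗ⋆[ℂ] V).toLinearMap, ?_, ?_⟩
  · have := rank_eq_of_equiv_equiv (star : ℂ → ℂ)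
      ((starLinearEquiv ℂ : V ≃ₗ⋆[ℂ] V).submoduleMap N).toAddEquiv star_involutive.bijective
      fun r m => ((starLinearEquiv ℂ : V ≃ₗ⋆[ℂ] V).submoduleMap N).map_smulₛₗ r m
    exact congrArg Cardinal.toNat this.symm
  · rintro _ ⟨s, hs, rfl⟩
    simpa using hs

theorem exU {Hm Q : M6} (hH : Hm.IsHermitian) (hU : IsUnit Hm) (hQ : IsUnit Q)
    {N : Submodule ℂ V} (h3 : Module.finrank ℂ N = 3)
    (hp : ∀ s ∈ N, s ≠ 0 → 0 < (hh (Qᴴ * Hm * Q)⁻¹ (star s) (star s)).re) :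
    ∃ U : Submodule ℂ V, Module.finrank ℂ U = 3 ∧ (∀ u ∈ U, u ≠ 0 → 0 < (hh Hm u u).re) ∧
      ∀ u ∈ U, ∀ d : V, (∀ s ∈ N, d ⬝ᵥ s = 0) → hh Hm u (Q *ᵥ d) = 0 := by
  obtain ⟨N', h1, h2⟩ := conj_sub N
  have hP : IsUnit (Qᴴ * Hm) := ((isUnit_conjTranspose _).2 hQ).mul hU
  have dP := (isUnit_iff_isUnit_det _).1 hP
  have dH := (isUnit_iff_isUnit_det _).1 hU
  let T : V ≃ₗ[ℂ] V := Matrix.toLinearEquiv' _ hP.invertible
  have hT : ∀ u, T u = (Qᴴ * Hm) *ᵥ u := fun _ => rfl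
  have mem : ∀ u ∈ N'.map T.symm.toLinearMap, star ((Qᴴ * Hm) *ᵥ u) ∈ N := by
    rintro _ ⟨t, ht, rfl⟩
    rw [← hT]
    simpa using h2 t ht
  refine ⟨N'.map T.symm.toLinearMap, by rw [LinearEquiv.finrank_map_eq, h1, h3],
    fun u hu u0 => ?_, fun u hu d hd => ?_⟩
  · have := hp _ (mem u hu) fun z => u0 (T.injective (by rw [hT, star_eq_zero.1 z, map_zero]))
    rwa [star_star, ← mulVec_mulVec, hh_inv hQ, ← hh_cong, hH.eq,
      mul_nonsing_inv _ dH, one_mul] at this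
  · have := hd _ (mem u hu)
    rw [star_mulVec, conjTranspose_mul, conjTranspose_conjTranspose, hH.eq, dotProduct_comm,
      ← dotProduct_mulVec, ← mulVec_mulVec] at this
    exact this

end Xc

open Xc in
theorem xSt (hR : RegSt) (hP : UPosSt) : XSt := by
  intro j e hj he f g σ x0 hx0
  have hj1 : 1 ≤ j := by omega
  have he1 : e < 1 / 12 := by
    have h3 : (3 : ℝ) ≤ j := by exact_mod_cast hj
    by_contra hc
    push Not at hc
    nlinarith
  obtain ⟨r, hr, hb, Z, hZ⟩ := hR j e hj1 he x0 hx0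
  replace hZ : ∀ x ∈ ball x0 r, Reg j e Z x := hZ
  refine ⟨r, hr, fun S hS hc ⟨x1, hx1⟩ hO => ?_⟩
  have hY := W.Sol.perm (e := e) (U := Pool.Agent.BP.F.Om) (Y := f.Y)
    (fun a ha => ⟨f.unit a ha, f.sol a ha⟩) σ
  obtain ⟨Y, hYe⟩ : ∃ Y : Cf → M6, Y = fun b => (f.Y (b ∘ σ)).submatrix (pp σ⁻¹) id := ⟨_, rfl⟩
  rw [← hYe] at hY
  have off : ∀ x ∈ S, x ∈ Off x0 r := fun x hx => by
    have hi : Injective (cfg j x) := (W.om_inj _ (hO x hx)).of_comp_right σ.surjective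
    refine ⟨hS hx, fun h => ?_, fun h => ?_⟩
    · exact absurd (hi (show cfg j x 0 = cfg j x 1 by simp [cfg, h])) (by decide)
    · exact absurd (hi (show cfg j x 2 = cfg j x 3 by simp [cfg, h])) (by decide)
  have cc : Continuous (cfg j) := continuous_iff_continuousAt.2 fun x => by
    obtain ⟨L, -, h⟩ := der_cfg j x
    exact h.continuousAt
  obtain ⟨C, hC⟩ : ∃ C, C = Bi j Z x1 * Y (cfg j x1) := ⟨_, rfl⟩
  have uC : IsUnit C := hC ▸ (Bi_unit (hZ _ (hS hx1)) (off _ hx1).2.1 (off _ hx1).2.2).mul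
    (hY _ (hO _ hx1)).1
  have e1 : ∀ x ∈ S, Bi j Z x * Y (cfg j x) = C := fun x hx => by
    rw [hC]
    refine loc_const (O := Off x0 r ∩ {x | cfg j x ∘ σ ∈ Pool.Agent.BP.F.Om})
      ((off_open x0 r).inter (W.om_open.preimage (by fun_prop))) hc
      (fun y hy => ⟨off y hy, hO y hy⟩) (φ := fun x => Bi j Z x * Y (cfg j x))
      (fun y hy => der_ext hj1 he (hb hy.1.1) (hZ y hy.1.1) hy.1.2.1 hy.1.2.2 (hY _ hy.2).2) hx hx1
  have e2 : ∀ x ∈ Off x0 r, (Bi j Z x)ᵀᴴ * g.Gam (cfg j x) * (Bi j Z x)ᵀ = Cᵀᴴ * g.Hm * Cᵀ := by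
    intro x hx
    rw [loc_const (off_open x0 r) (off_conn x0 hr) subset_rfl
      (φ := fun x => (Bi j Z x)ᵀᴴ * g.Gam (cfg j x) * (Bi j Z x)ᵀ)
      (fun y hy => der_gram hj1 he (hb hy.1) (hZ y hy.1) hy.2.1 hy.2.2 g) hx (off _ hx1)]
    have k := g.perm _ (W.om_inj _ (hO _ hx1)) σ⁻¹
    have k2 : (cfg j x1 ∘ σ) ∘ ⇑σ⁻¹ = cfg j x1 := by funext i; simp
    have k3 : g.Gam (cfg j x1) = (Y (cfg j x1))ᵀᴴ * g.Hm * (Y (cfg j x1))ᵀ := by
      rw [← k2, k, g.loc _ (hO _ hx1), k2, hYe]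
      rfl
    rw [k3, hC, transpose_mul, conjTranspose_mul]
    noncomm_ring
  have e3 : ∀ x ∈ Off x0 r, (Z x * C)ᵀᴴ * g.Hm * (Z x * C)ᵀ =
      (gg j x)ᵀᴴ * g.Gam (cfg j x) * (gg j x)ᵀ := fun x hx => by
    rw [← Z_Bi (hZ x hx.1), transpose_mul, transpose_mul, conjTranspose_mul, conjTranspose_mul]
    have := e2 x hx
    calc _ = (Z x)ᵀᴴ * (Cᵀᴴ * g.Hm * Cᵀ) * (Z x)ᵀ := by noncomm_ring
      _ = _ := by rw [← this]; noncomm_ring
  have hZ' : ∀ x ∈ ball x0 r, Reg j e (fun x => Z x * C) x := fun x hx => by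
    obtain ⟨u, L, hL, hd⟩ := hZ x hx
    refine ⟨u.mul uC, _, fun v => ?_, hd.mul_const' C⟩
    change L v * C = _
    rw [hL, mul_assoc]
  have uQ : IsUnit (Z x0 * C)ᵀ := (isUnit_transpose _).2 (hZ' x0 (mem_ball_self hr)).1
  have hD := fder hj1 he hr hb hZ'
  have hg := W.dg_ne he1
  refine ⟨fun x => wr j x ᵥ* (Z x * C), an_row hZ' x0 (mem_ball_self hr), fun x hx => ?_,
    fun x hx h0 h1 => ?_, ?_, ?_, ?_⟩
  · simp only []
    rw [← e1 x hx, ← mul_assoc, Z_Bi (hZ x (hS hx)), ← vecMul_vecMul, wr_gg, hYe]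
    simp only [W.row_perm, FR.W, ← W.cw_perm]
  · have hi := inj_of_om (hb hx) h0 h1
    simp only []
    rw [← mulVec_transpose, ← hh_cong, e3 x ⟨hx, h0, h1⟩, hh_cong, mulVec_transpose, wr_gg,
      GR.phi, g.perm _ hi]
    have : cw (cfg j x ∘ σ) = cw (cfg j x) ∘ W.ppe σ := funext fun n => W.cw_perm σ _ n
    rw [this]
    congr 1
    simp only [hh, dotProduct, mulVec]
    refine (Equiv.sum_comp (W.ppe σ) _).symm.trans (Finset.sum_congr rfl fun n _ => ?_)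
    congr 1
    exact (Equiv.sum_comp (W.ppe σ) _).symm
  · refine (injective_iff_map_eq_zero _).2 fun v hv => dwr_inj hx0 ?_
    rw [hD, smul_eq_zero, or_iff_right hg] at hv
    exact vecMul_injective_iff_isUnit.2 (hZ' x0 (mem_ball_self hr)).1
      (hv.trans (zero_vecMul _).symm)
  · refine ⟨(W.dg e)⁻¹ • ![x0 0 / (2 * j + 1), x0 1 / (2 * j + 1), x0 2], ?_⟩
    rw [map_smul, hD, dwr_euler, smul_smul, inv_mul_cancel₀ hg, one_smul]
  · have cZ : ContinuousAt (fun x => Z x * C) x0 := by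
      obtain ⟨-, L, -, hd⟩ := hZ' x0 (mem_ball_self hr)
      exact hd.continuousAt
    have uG : IsUnit ((Z x0 * C)ᵀᴴ * g.Hm * (Z x0 * C)ᵀ) :=
      (((isUnit_conjTranspose _).2 uQ).mul g.unitH).mul uQ
    have cG : ContinuousAt (fun x => ((Z x * C)ᵀᴴ * g.Hm * (Z x * C)ᵀ)⁻¹) x0 := by
      have c1 : Continuous fun A : M6 => Aᵀᴴ * g.Hm * Aᵀ := by fun_prop
      obtain ⟨y, hy⟩ := uG
      have c2 := NormedRing.inverse_continuousAt y
      rw [hy] at c2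
      simp only [nonsing_inv_eq_ringInverse]
      exact ContinuousAt.comp (f := fun x => (Z x * C)ᵀᴴ * g.Hm * (Z x * C)ᵀ) c2
        (c1.continuousAt.comp cZ)
    obtain ⟨N, h3, ho, hp⟩ := hP j e hj he x0 hx0 _ cG (by
      filter_upwards [ball_mem_nhds x0 hr] with x hx h0 h1 l
      rw [e3 x ⟨hx, h0, h1⟩, star_mulVec', hh_inv ((isUnit_transpose _).2 (gg_unit1 j h0 h1)),
        g.pos _ (inj_of_om (hb hx) h0 h1)])
    obtain ⟨U, u3, up, uo⟩ := exU g.herm g.unitH uQ h3 hp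
    refine ⟨U, u3, up, fun u hu v => ?_⟩
    rw [hD, ← smul_vecMul, ← mulVec_transpose]
    exact uo u hu _ fun s hs => by rw [smul_dotProduct, ho s hs v, smul_zero]

end

end Pool.Agent.Lib.MP_0c623d_al.BP.B
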